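import Pool.Agent.Work.MP_f2148a_nt.M56.Defs

set_option autoImplicit false

/-!
# Bounded range of the box theorem (helper68): definitions. See NOTES_f2148a_h68.md.

Exponents (logarithms to base `K`): `s` for `σ`, `d` for `Δ`, `q` for `|ξ|`, `a` for `1/ρ`,
`t` for `1 + |c|/ρ` (so `|c| ≤ K ^ (t - a)`), `om` for the allowed number of points,
`b = 4q+s+d` for `1/γ`.
-/

namespace Pool.Agent.Work.MP_f2148a_nt.M56.H

/-- The numerical inequality `(*)` for one bidegree, one height, and one value of `w`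
(`w` = exponent of the ratio of the height of the form to its norm on the box). -/
def Ineq (ε s q a b om w h : ℝ) (m n : ℕ) : Prop :=
  ∃ al be : ℝ, 0 ≤ al ∧ 0 ≤ be ∧ n * al + m * be = 1 ∧
    w * (2 * (al * s + be * q) - 2 * h * al * be - om) + ε ≤ a * b

/-- All numerical conditions. -/
structure Cond (ε s d q a t om : ℝ) : Prop where
  h0 : s + ε ≤ 4 * q + d
  h1 : (9 / 2 + ε) * (s * q) ≤ a * (4 * q + s + d)
  h3 : a + ε ≤ 4 * q + s + d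
  h2 : ∀ m n : ℕ, 1 ≤ m → 2 ≤ n → ∀ h : ℝ, 0 ≤ h →
    Ineq ε s q a (4 * q + s + d) om (3 * d + s + t + m * s + n * q + h) h m n ∨
      (1 / 10 ≤ a - t ∧ n = 2 ∧ m ≤ 4 ∧ Ineq ε s q a (4 * q + s + d) om (14 * a) h m n)

/-- The points of a box (reference solution `(x, y)` with data `α, β, ω, τ`). -/
structure Bx (x y α β : ℤ) (ω τ ρ S Q : ℝ) (s t X Y : ℤ) : Prop where
  val : 3 * s * F0 x y X Y + t * G1 x y α β X Y = 3
  jne : J432 (q4 x y α β s t) ≠ 0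
  rr : |τ * (Y : ℝ)| ≤ ρ * |((X : ℝ) + ω * Y) / τ|
  xi1 : Q ≤ |((X : ℝ) + ω * Y) / τ|
  xi2 : |((X : ℝ) + ω * Y) / τ| ≤ 2 * Q
  d1 : S / 10 ≤ -(2 * ω * s) / (3 * α * τ) + t * α / (3 * τ)
  d2 : -(2 * ω * s) / (3 * α * τ) + t * α / (3 * τ) ≤ 10 * S

/-- The reference data. -/
structure Rf (x y α β : ℤ) (ω τ Δ l c : ℝ) : Prop where
  hα : 1 ≤ α
  hω : ω = (β : ℝ) / (3 * α)
  hτ : 0 < τ
  hτ1 : τ ≤ 1
  dep : Dep (Z0 x y α β) ω τ Δ l c
  hl : |l| ≤ 1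
  hc : |c| ≤ 1
  hΔ : 1 / 4 ≤ Δ

end Pool.Agent.Work.MP_f2148a_nt.M56.H
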