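import Pool.Agent.Work.MP_f2148a_nt.M56.H.Curve

set_option autoImplicit false

/-!
# The box theorem in the bounded range (theorem BB of NOTES_f2148a_h68.md)
-/

namespace Pool.Agent.Work.MP_f2148a_nt.M56.H

open G4 G3 LD Polynomial

private theorem large (c η : ℝ) (hη : 0 < η) : ∃ Λ₀ : ℝ, ∀ Λ : ℝ, Λ₀ ≤ Λ →
    c ≤ Real.exp (Λ * η) := by
  refine ⟨c / η, fun Λ hΛ => ?_⟩
  rw [div_le_iff₀ hη] at hΛ
  have := Real.add_one_le_exp (Λ * η)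
  linarith

/-- The choice of `η` for Step A. -/
private theorem eta (ε C₀ : ℝ) (hε : 0 < ε) (hC : 1 ≤ C₀) : ∃ η : ℝ, 0 < η ∧ η ≤ ε ∧
    ∀ s q a b : ℝ, 1 / C₀ ≤ s → s ≤ C₀ → 1 / C₀ ≤ q → q ≤ C₀ → a ≤ C₀ →
      (9 / 2 + ε) * (s * q) ≤ a * b →
      (9 / 2 + ε / 2) * ((s + η) * (q + η)) ≤ a * (b - η) := by
  have hC0 : 0 < C₀ := by linarith
  set T : ℝ := (9 / 2 + ε / 2) * (2 * C₀ + 1) + C₀ with hT
  have hT0 : 0 < T := by positivity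
  refine ⟨min (min ε 1) (ε / 2 * (1 / C₀ * (1 / C₀)) / T), by positivity,
    (min_le_left _ _).trans (min_le_left _ _), ?_⟩
  intro s q a b hs1 hs2 hq1 hq2 ha h
  set η : ℝ := min (min ε 1) (ε / 2 * (1 / C₀ * (1 / C₀)) / T) with hη
  have hη0 : 0 < η := by positivity
  have hη1 : η ≤ 1 := (min_le_left _ _).trans (min_le_right _ _)
  have hη2 : η * T ≤ ε / 2 * (1 / C₀ * (1 / C₀)) := by
    rw [← le_div_iff₀ hT0]
    exact min_le_right _ _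
  have hC1 : 0 < 1 / C₀ := by positivity
  have hsq : 1 / C₀ * (1 / C₀) ≤ s * q := mul_le_mul hs1 hq1 hC1.le (hC1.le.trans hs1)
  have h1 : ε / 2 * (1 / C₀ * (1 / C₀)) ≤ ε / 2 * (s * q) :=
    mul_le_mul_of_nonneg_left hsq (by positivity)
  have h2 : (s + η) * (q + η) ≤ s * q + η * (2 * C₀ + 1) := by nlinarith
  have h3 : (9 / 2 + ε / 2) * ((s + η) * (q + η)) ≤
      (9 / 2 + ε / 2) * (s * q + η * (2 * C₀ + 1)) :=
    mul_le_mul_of_nonneg_left h2 (by positivity)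
  have h4 : a * η ≤ C₀ * η := mul_le_mul_of_nonneg_right ha hη0.le
  have h5 : η * T = (9 / 2 + ε / 2) * (η * (2 * C₀ + 1)) + C₀ * η := by rw [hT]; ring
  nlinarith

/-- THEOREM BB (assembly: helper68). -/
theorem bb (ε C₀ : ℝ) (hε : 0 < ε) (hC : 1 ≤ C₀) :
    ∃ C K₀ : ℝ, 1 ≤ K₀ ∧ ∀ K : ℝ, K₀ ≤ K →
    ∀ (x y α β : ℤ) (ω τ Δ l c : ℝ) (s d q a t om J₀ H₀ : ℝ),
      Rf x y α β ω τ Δ l c → K ^ d ≤ Δ → Δ ≤ 2 * K ^ d → |c| ≤ K ^ (t - a) →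
      (1 / 10 ≤ a - t → |l| = 1) →
      1 / C₀ ≤ s → s ≤ C₀ → -1 ≤ d → d ≤ C₀ → 1 / C₀ ≤ q → q ≤ C₀ → 1 / C₀ ≤ a → a ≤ C₀ →
      0 ≤ t → t ≤ C₀ → 1 / C₀ ≤ om → om ≤ C₀ →
      2 * |ω| / (3 * α * τ) ≤ K ^ C₀ → 1 / τ ≤ K ^ C₀ → (α : ℝ) ≤ K ^ C₀ →
      |(x : ℝ)| ≤ K ^ C₀ → |(y : ℝ)| ≤ K ^ C₀ → |(β : ℝ)| ≤ K ^ C₀ →
      Cond ε s d q a t om → K ^ ε * J₀ ^ 2 ≤ H₀ →
      ∀ P : Finset (ℤ × ℤ × ℤ × ℤ),
        (∀ p ∈ P, Bx x y α β ω τ (K ^ (-a)) (K ^ s) (K ^ q) p.1 p.2.1 p.2.2.1 p.2.2.2) →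
        (∀ p ∈ P, |((J432 (q4 x y α β p.1 p.2.1) : ℤ) : ℝ)| ≤ J₀ ∧
          H₀ ≤ |((Hq (q4 x y α β p.1 p.2.1) p.2.2.1 p.2.2.2 : ℤ) : ℝ)|) →
        (∀ p ∈ P, ∀ p' ∈ P, p ≠ p' → p.1 * p'.2.1 ≠ p'.1 * p.2.1) →
        (∀ p ∈ P, ∀ p' ∈ P, p ≠ p' →
          (Hq (q4 x y α β p.1 p.2.1) p.2.2.1 p.2.2.2) ^ 3 * J432 (q4 x y α β p'.1 p'.2.1)
            ≠ (Hq (q4 x y α β p'.1 p'.2.1) p'.2.2.1 p'.2.2.2) ^ 3
              * J432 (q4 x y α β p.1 p.2.1)) →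
        (P.card : ℝ) ≤ C * K ^ (om + ε) := by
  have hC00 : 0 < C₀ := by linarith
  obtain ⟨η, hη, hηε, hstep⟩ := eta ε C₀ hε hC
  obtain ⟨Λ₁, hdat⟩ := dat C₀ η hC hη
  set B : ℝ := 6 * C₀ + ε + 12 with hB
  have hB0 : 0 < B := by positivity
  obtain ⟨J, Λ₂, hax⟩ := AX.ax B (ε / 2) hB0 (by positivity) 4
  obtain ⟨Cc, Λ₃, hCc, hcurve⟩ := curve ε C₀ hε hC J
  obtain ⟨Λ₄, h60⟩ := large 60 ε hε
  obtain ⟨Λ₅, h5⟩ := large 5 (1 / C₀) (by positivity)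
  refine ⟨2 + J * Cc, max 1 (Real.exp (max (max (max Λ₁ Λ₂) (max Λ₃ Λ₄)) (max Λ₅ 1))),
    le_max_left _ _, ?_⟩
  intro K hK x y α β ω τ Δ l c s d q a t om J₀ H₀ hrf hΔ1 hΔ2 hc hl1 hs1 hs2 hd1 hd2 hq1 hq2 ha1
    ha2 ht1 ht2 ho1 ho2 hw1 hτ1 hα1 hx1 hy1 hβ1 hcond hJH P hbx hJP hdst hinv
  have hK1 : 1 ≤ K := (le_max_left _ _).trans hK
  have hK0 : 0 < K := by linarith
  obtain ⟨Λ, rfl⟩ : ∃ Λ : ℝ, K = Real.exp Λ := ⟨Real.log K, (Real.exp_log hK0).symm⟩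
  have hΛm : max (max (max Λ₁ Λ₂) (max Λ₃ Λ₄)) (max Λ₅ 1) ≤ Λ :=
    Real.exp_le_exp.1 ((le_max_right _ _).trans hK)
  have hΛ1 : Λ₁ ≤ Λ := (le_trans (by simp) hΛm)
  have hΛ2 : Λ₂ ≤ Λ := (le_trans (by simp) hΛm)
  have hΛ3 : Λ₃ ≤ Λ := (le_trans (by simp) hΛm)
  have hΛ4 : Λ₄ ≤ Λ := (le_trans (by simp) hΛm)
  have hΛ5 : Λ₅ ≤ Λ := (le_trans (by simp) hΛm)
  have hΛ6 : 1 ≤ Λ := (le_trans (by simp) hΛm)
  have hΛ0 : 0 < Λ := by linarith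
  have hpow : ∀ z : ℝ, Real.exp Λ ^ z = Real.exp (Λ * z) := fun z => (Real.exp_mul Λ z).symm
  simp only [hpow] at *
  rw [mul_neg] at hbx
  have hpar : Par C₀ Λ x y α β ω τ Δ l c s d q a t om :=
    ⟨hrf, hΔ1, hΔ2, hc, hs1, hs2, hd1, hd2, hq1, hq2, ha1, ha2, ht1, ht2, ho1, ho2, hw1, hτ1, hα1,
      hx1, hy1, hβ1⟩
  have hC0 : 0 < 1 / C₀ := by positivity
  have hE1 : 1 ≤ Real.exp (Λ * (om + ε)) :=
    Real.one_le_exp (mul_nonneg hΛ0.le (by linarith))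
  have hh3 := hcond.h3
  have hρ5 : Real.exp (-(Λ * a)) ≤ 1 / 5 := by
    have h1 : (5 : ℝ) ≤ Real.exp (Λ * a) := (h5 Λ hΛ5).trans
      (Real.exp_le_exp.2 (mul_le_mul_of_nonneg_left ha1 hΛ0.le))
    rw [Real.exp_neg, ← one_div]
    exact one_div_le_one_div_of_le (by norm_num) h1
  have h60' : 60 * Real.exp (Λ * s) ≤ Δ * Real.exp (Λ * q) ^ 4 := by
    calc 60 * Real.exp (Λ * s) ≤ Real.exp (Λ * ε) * Real.exp (Λ * s) :=
          mul_le_mul_of_nonneg_right (h60 Λ hΛ4) (Real.exp_pos _).le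
      _ = Real.exp (Λ * (s + ε)) := by
          rw [← Real.exp_add]
          congr 1
          ring
      _ ≤ Real.exp (Λ * (4 * q + d)) :=
          Real.exp_le_exp.2 (mul_le_mul_of_nonneg_left hcond.h0 hΛ0.le)
      _ = Real.exp (Λ * d) * Real.exp (Λ * q) ^ 4 := by
          rw [← Real.exp_nat_mul, ← Real.exp_add]
          congr 1
          push_cast
          ring
      _ ≤ Δ * Real.exp (Λ * q) ^ 4 :=
          mul_le_mul_of_nonneg_right hΔ1 (by positivity)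
  classical
  -- the points with `t = 0` or `Y = 0`
  set P1 := P.filter (fun p => p.2.1 = 0) with hP1
  set P2 := P.filter (fun p => p.2.2.2 = 0) with hP2
  set P3 := P.filter (fun p => p.2.1 ≠ 0 ∧ p.2.2.2 ≠ 0) with hP3
  have hsub : P ⊆ P1 ∪ (P2 ∪ P3) := by
    intro p hp
    by_cases h1 : p.2.1 = 0
    · exact Finset.mem_union_left _ (Finset.mem_filter.2 ⟨hp, h1⟩)
    · refine Finset.mem_union_right _ ?_
      by_cases h2 : p.2.2.2 = 0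
      · exact Finset.mem_union_left _ (Finset.mem_filter.2 ⟨hp, h2⟩)
      · exact Finset.mem_union_right _ (Finset.mem_filter.2 ⟨hp, h1, h2⟩)
  have hc1 : P1.card ≤ 1 := by
    refine Finset.card_le_one.2 fun p hp p' hp' => ?_
    by_contra hne
    obtain ⟨h1, h2⟩ := Finset.mem_filter.1 hp
    obtain ⟨h3, h4⟩ := Finset.mem_filter.1 hp'
    exact hdst p h1 p' h3 hne (by rw [h2, h4, mul_zero, mul_zero])
  have hc2 : P2.card ≤ 1 := by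
    refine Finset.card_le_one.2 fun p hp p' hp' => ?_
    by_contra hne
    obtain ⟨h1, h2⟩ := Finset.mem_filter.1 hp
    obtain ⟨h3, h4⟩ := Finset.mem_filter.1 hp'
    exact hdst p h1 p' h3 hne (same_v hrf hρ5 (Real.exp_pos _) (Real.exp_pos _) h60' (hbx p h1)
      (hbx p' h3) (by rw [h2, h4, mul_zero, mul_zero]))
  -- the other points
  have hP3P : ∀ i : {p // p ∈ P3}, (i : ℤ × ℤ × ℤ × ℤ) ∈ P := fun i =>
    (Finset.mem_filter.1 i.2).1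
  have hfam : Fam x y α β ω τ (Real.exp (-(Λ * a))) (Real.exp (Λ * s)) (Real.exp (Λ * q))
      (fun i : {p // p ∈ P3} => (i : ℤ × ℤ × ℤ × ℤ)) :=
    { bx := fun i => hbx _ (hP3P i)
      dst := fun i j h => hdst _ (hP3P i) _ (hP3P j) fun e => h (Subtype.ext e)
      inv := fun i j h => hinv _ (hP3P i) _ (hP3P j) fun e => h (Subtype.ext e)
      t0 := fun i => (Finset.mem_filter.1 i.2).2.1
      Y0 := fun i => (Finset.mem_filter.1 i.2).2.2 }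
  have hCB : C₀ ≤ B := by rw [hB]; linarith
  have h1B : 1 / B ≤ 1 / C₀ := one_div_le_one_div_of_le hC00 hCB
  have hdt := hdat Λ hΛ1 x y α β ω τ Δ l c s d q a hrf hΔ1 ha1 (by linarith) _ _ hfam.bx B
    (by rw [hB]; linarith)
  obtain ⟨G, hGc, hG1, hG2⟩ := hax Λ hΛ2 a (4 * q + s + d - η) (s + η) (q + η) (h1B.trans ha1)
    (ha2.trans hCB) (h1B.trans (by linarith)) (by rw [hB]; linarith) (h1B.trans (by linarith))
    (by rw [hB]; linarith) (h1B.trans (by linarith)) (by rw [hB]; linarith)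
    (hstep s q a (4 * q + s + d) hs1 hs2 hq1 hq2 ha2 hcond.h1) _ _ _ _ _ _ _ _ _ hdt hfam.t0
    hfam.Y0
  set Sg : ℤ[X][X] → Finset {p // p ∈ P3} := fun g => Finset.univ.filter fun i =>
    ∀ m n, Bd m n g → ev m n g (i : ℤ × ℤ × ℤ × ℤ).1 (i : ℤ × ℤ × ℤ × ℤ).2.1
      (i : ℤ × ℤ × ℤ × ℤ).2.2.1 (i : ℤ × ℤ × ℤ × ℤ).2.2.2 = 0 with hSg
  have hcov : (Finset.univ : Finset {p // p ∈ P3}) ⊆ G.biUnion Sg := by
    intro i _
    obtain ⟨g, hg, hgz⟩ := hG2 i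
    exact Finset.mem_biUnion.2 ⟨g, hg, Finset.mem_filter.2 ⟨Finset.mem_univ _, hgz⟩⟩
  have hSgle : ∀ g ∈ G, ((Sg g).card : ℝ) ≤ Cc * Real.exp (Λ * (om + ε)) := by
    intro g hg
    obtain ⟨hgi, m, n, hm, hn, hex⟩ := hG1 g hg
    rw [← Fintype.card_coe]
    exact hcurve Λ hΛ3 x y α β ω τ Δ l c s d q a t om J₀ H₀ hpar hl1 hcond hJH m n hm hn g hgi hex
      _ (fun i : {i // i ∈ Sg g} => ((i : {p // p ∈ P3}) : ℤ × ℤ × ℤ × ℤ))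
      (hfam.sub _ Subtype.val_injective) (fun i => hJP _ (hP3P i))
      (fun i => (Finset.mem_filter.1 i.2).2 m n hex.bd)
  have hc3 : (P3.card : ℝ) ≤ J * Cc * Real.exp (Λ * (om + ε)) := by
    have h1 : P3.card ≤ ∑ g ∈ G, (Sg g).card := by
      rw [← Fintype.card_coe, ← Finset.card_univ]
      exact (Finset.card_le_card hcov).trans Finset.card_biUnion_le
    have h2 : (P3.card : ℝ) ≤ ∑ g ∈ G, ((Sg g).card : ℝ) := by exact_mod_cast h1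
    refine h2.trans ((Finset.sum_le_sum hSgle).trans ?_)
    rw [Finset.sum_const, nsmul_eq_mul]
    have h3 : (G.card : ℝ) ≤ J := by exact_mod_cast hGc
    calc (G.card : ℝ) * (Cc * Real.exp (Λ * (om + ε))) ≤ J * (Cc * Real.exp (Λ * (om + ε))) :=
          mul_le_mul_of_nonneg_right h3 (by positivity)
      _ = _ := by ring
  have hcard : P.card ≤ P1.card + (P2.card + P3.card) :=
    (Finset.card_le_card hsub).trans ((Finset.card_union_le _ _).trans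
      (Nat.add_le_add_left (Finset.card_union_le _ _) _))
  have h6 : (P.card : ℝ) ≤ 1 + (1 + P3.card) := by
    have h7 : P.card ≤ 1 + (1 + P3.card) := by omega
    exact_mod_cast h7
  nlinarith

end Pool.Agent.Work.MP_f2148a_nt.M56.H
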