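import Pool.Agent.Work.MP_f2148a_nt.M56.LD.Ev

set_option autoImplicit false

/-!
# H/Cls (size M, algebra only): the residue classes of the zeros of a primitive form modulo `p`

PROOF. Let `k = ZMod p`. `g` is irreducible of positive degree in `y`, so primitive, so its reduction `G : k[X][X]` is not zero and has
bidegree at most `(m, n)`; `ev m n G (s i) (t i) (u i) (v i) = 0` in `k`. Normalize: `(s : t) ∈ P¹(k)` is `Option k` (`t ≠ 0`: `some (s/t)`, else `none`), same for
`(u : v)`; `P¹(k)` has `p + 1` elements. Write `G = ∑_j c_j(s, t) u^j v^(n-j)` (`c_j` forms of degree `m` in `(s, t)`), not all `c_j` are zero. The points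
`(s : t)` at which ALL `c_j` vanish are at most `m` (a nonzero form of degree `m`: `t = 0` counts through the leading coefficient); for each of the other
`(s : t)` there are at most `n` values `(u : v)`. So the set of zeros in `P¹ × P¹` has at most `m (p + 1) + n (p + 1)` elements; number them.
(`s i t j - s j t i = 0` in `k` if the normalized classes agree.) A convenient form: a finite set `Z ⊆ Option k × Option k` of the pairs at which the (dehomogenized) form vanishes,
`card Z ≤ (m + n) (p + 1)`, and an injection of `Z` into `Fin`.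
-/

namespace Pool.Agent.Work.MP_f2148a_nt.M56.H

open LD Polynomial

private def clsPs {k : Type*} [Field k] : Option k → k
  | some x => x
  | none => 1

private def clsPt {k : Type*} [Field k] : Option k → k
  | some _ => 1
  | none => 0

private def clsHom {k : Type*} [Field k] (d : ℕ) (f : Fin (d + 1) → k) (s t : k) : k :=
  ∑ i, f i * (s ^ (i : ℕ) * t ^ (d - (i : ℕ)))

private theorem clsHom_count {k : Type*} [Field k] [Fintype k] [DecidableEq k] (d : ℕ)
    (f : Fin (d + 1) → k) (hf : ∃ i, f i ≠ 0) :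
    (Finset.univ.filter (fun a : Option k => clsHom d f (clsPs a) (clsPt a) = 0)).card ≤ d := by
  classical
  obtain ⟨i₀, hi₀⟩ := hf
  set F : k[X] := ∑ i : Fin (d + 1), Polynomial.monomial (i : ℕ) (f i) with hF
  have hcoef : ∀ i : Fin (d + 1), F.coeff i = f i := by
    intro i
    rw [hF, finsetSum_coeff]
    rw [Finset.sum_eq_single i]
    · rw [coeff_monomial, if_pos rfl]
    · intro j _ hj
      rw [coeff_monomial, if_neg (fun h => hj (Fin.ext h))]
    · intro h
      exact absurd (Finset.mem_univ _) h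
  have hF0 : F ≠ 0 := by
    intro h
    apply hi₀
    rw [← hcoef i₀, h, coeff_zero]
  have hdeg : F.natDegree ≤ d := by
    rw [hF]
    refine natDegree_sum_le_of_forall_le _ _ fun i _ => ?_
    exact (natDegree_monomial_le _).trans (by omega)
  have hsome : ∀ x : k, clsHom d f (clsPs (some x)) (clsPt (some x)) = F.eval x := by
    intro x
    unfold clsHom clsPs clsPt
    rw [hF, eval_finsetSum]
    refine Finset.sum_congr rfl fun i _ => ?_
    rw [eval_monomial, one_pow, mul_one]
  have hnone : clsHom d f (clsPs none) (clsPt none) = F.coeff d := by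
    have h1 : F.coeff d = f (Fin.last d) := hcoef (Fin.last d)
    rw [h1]
    unfold clsHom clsPs clsPt
    rw [Finset.sum_eq_single (Fin.last d)]
    · simp
    · intro j _ hj
      have h2 : (j : ℕ) ≠ d := fun h => hj (Fin.ext h)
      have h3 : d - (j : ℕ) ≠ 0 := by omega
      simp [h3]
    · intro h
      exact absurd (Finset.mem_univ _) h
  have hroots : (F.roots.toFinset.image (some : k → Option k)).card ≤ F.natDegree :=
    Finset.card_image_le.trans ((Multiset.toFinset_card_le _).trans (card_roots' F))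
  by_cases hlast : F.coeff d = 0
  · have hd1 : F.natDegree < d := by
      rcases Nat.lt_or_ge F.natDegree d with h | h
      · exact h
      · exfalso
        have h1 : F.natDegree = d := le_antisymm hdeg h
        apply hF0
        rw [← leadingCoeff_eq_zero]
        unfold leadingCoeff
        rw [h1]
        exact hlast
    have hsub : (Finset.univ.filter (fun a : Option k => clsHom d f (clsPs a) (clsPt a) = 0))
        ⊆ insert none (F.roots.toFinset.image (some : k → Option k)) := by
      intro a ha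
      rw [Finset.mem_filter] at ha
      cases a with
      | none => exact Finset.mem_insert_self _ _
      | some x =>
        apply Finset.mem_insert_of_mem
        rw [Finset.mem_image]
        refine ⟨x, ?_, rfl⟩
        rw [Multiset.mem_toFinset, mem_roots hF0]
        rw [hsome x] at ha
        exact ha.2
    calc _ ≤ _ := Finset.card_le_card hsub
      _ ≤ _ := Finset.card_insert_le _ _
      _ ≤ d := by omega
  · have hsub : (Finset.univ.filter (fun a : Option k => clsHom d f (clsPs a) (clsPt a) = 0))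
        ⊆ F.roots.toFinset.image (some : k → Option k) := by
      intro a ha
      rw [Finset.mem_filter] at ha
      cases a with
      | none =>
        rw [hnone] at ha
        exact absurd ha.2 hlast
      | some x =>
        rw [Finset.mem_image]
        refine ⟨x, ?_, rfl⟩
        rw [Multiset.mem_toFinset, mem_roots hF0]
        rw [hsome x] at ha
        exact ha.2
    calc _ ≤ _ := Finset.card_le_card hsub
      _ ≤ _ := hroots
      _ ≤ d := hdeg

private def clsHH {k : Type*} [Field k] (m n : ℕ) (G : Fin (m + 1) → Fin (n + 1) → k)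
    (s t u v : k) : k :=
  clsHom n (fun j => clsHom m (fun i => G i j) s t) u v

private theorem clsHH_count {k : Type*} [Field k] [Fintype k] [DecidableEq k] (m n : ℕ)
    (G : Fin (m + 1) → Fin (n + 1) → k) (hG : ∃ i j, G i j ≠ 0) :
    (Finset.univ.filter (fun z : Option k × Option k =>
      clsHH m n G (clsPs z.1) (clsPt z.1) (clsPs z.2) (clsPt z.2) = 0)).card
      ≤ (m + n) * (Fintype.card k + 1) := by
  classical
  obtain ⟨i₀, j₀, h0⟩ := hG
  have hbad : (Finset.univ.filter (fun a : Option k =>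
      clsHom m (fun i => G i j₀) (clsPs a) (clsPt a) = 0)).card ≤ m :=
    clsHom_count m (fun i => G i j₀) ⟨i₀, h0⟩
  have hcard : Fintype.card (Option k) = Fintype.card k + 1 := Fintype.card_option
  have hfib : ∀ a : Option k, (Finset.univ.filter (fun b : Option k =>
      clsHH m n G (clsPs a) (clsPt a) (clsPs b) (clsPt b) = 0)).card ≤
      (if clsHom m (fun i => G i j₀) (clsPs a) (clsPt a) = 0 then Fintype.card k + 1 else 0)
        + n := by
    intro a
    split_ifs with h
    · refine (Finset.card_le_univ _).trans ?_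
      rw [hcard]
      omega
    · rw [zero_add]
      exact clsHom_count n (fun j => clsHom m (fun i => G i j) (clsPs a) (clsPt a)) ⟨j₀, h⟩
  rw [Finset.card_filter, Fintype.sum_prod_type]
  calc (∑ a : Option k, ∑ b : Option k, if clsHH m n G (clsPs (a, b).1) (clsPt (a, b).1)
          (clsPs (a, b).2) (clsPt (a, b).2) = 0 then 1 else 0)
      = ∑ a : Option k, (Finset.univ.filter (fun b : Option k =>
          clsHH m n G (clsPs a) (clsPt a) (clsPs b) (clsPt b) = 0)).card := by
        refine Finset.sum_congr rfl fun a _ => ?_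
        rw [Finset.card_filter]
    _ ≤ ∑ a : Option k, ((if clsHom m (fun i => G i j₀) (clsPs a) (clsPt a) = 0
          then Fintype.card k + 1 else 0) + n) := Finset.sum_le_sum fun a _ => hfib a
    _ = (Finset.univ.filter (fun a : Option k =>
          clsHom m (fun i => G i j₀) (clsPs a) (clsPt a) = 0)).card * (Fintype.card k + 1)
        + (Fintype.card k + 1) * n := by
        rw [Finset.sum_add_distrib, Finset.sum_const, Finset.card_univ, hcard, smul_eq_mul,
          ← Finset.sum_filter, Finset.sum_const, smul_eq_mul]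
    _ ≤ m * (Fintype.card k + 1) + (Fintype.card k + 1) * n := by gcongr
    _ = (m + n) * (Fintype.card k + 1) := by ring

private theorem clsHom_smul {k : Type*} [Field k] (d : ℕ) (f : Fin (d + 1) → k) (l s t : k) :
    clsHom d f (l * s) (l * t) = l ^ d * clsHom d f s t := by
  unfold clsHom
  rw [Finset.mul_sum]
  refine Finset.sum_congr rfl fun i _ => ?_
  have h : l ^ d = l ^ (i : ℕ) * l ^ (d - (i : ℕ)) := by
    rw [← pow_add]
    congr 1
    omega
  rw [h, mul_pow, mul_pow]
  ring

private theorem clsHom_mul {k : Type*} [Field k] (d : ℕ) (f : Fin (d + 1) → k) (l s t : k) :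
    clsHom d (fun i => l * f i) s t = l * clsHom d f s t := by
  unfold clsHom
  rw [Finset.mul_sum]
  refine Finset.sum_congr rfl fun i _ => ?_
  ring

private theorem clsHH_smul {k : Type*} [Field k] (m n : ℕ) (G : Fin (m + 1) → Fin (n + 1) → k)
    (l l' s t u v : k) :
    clsHH m n G (l * s) (l * t) (l' * u) (l' * v) = l ^ m * l' ^ n * clsHH m n G s t u v := by
  unfold clsHH
  rw [clsHom_smul]
  have : (fun j => clsHom m (fun i => G i j) (l * s) (l * t))
      = fun j => l ^ m * clsHom m (fun i => G i j) s t := by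
    funext j
    rw [clsHom_smul]
  rw [this, clsHom_mul]
  ring

open Classical in
private noncomputable def clsN {k : Type*} [Field k] (s t : k) : Option k :=
  if t = 0 then none else some (s / t)

private theorem clsN_spec {k : Type*} [Field k] (s t : k) (h : ¬ (s = 0 ∧ t = 0)) :
    ∃ l : k, l ≠ 0 ∧ s = l * clsPs (clsN s t) ∧ t = l * clsPt (clsN s t) := by
  unfold clsN
  split_ifs with ht
  · refine ⟨s, fun hs => h ⟨hs, ht⟩, ?_, ?_⟩
    · unfold clsPs
      rw [mul_one]
    · unfold clsPt
      rw [mul_zero, ht]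
  · refine ⟨t, ht, ?_, ?_⟩
    · unfold clsPs
      field_simp
    · unfold clsPt
      rw [mul_one]

private theorem clsN_eq {k : Type*} [Field k] (s t s' t' : k) (h : ¬ (s = 0 ∧ t = 0))
    (h' : ¬ (s' = 0 ∧ t' = 0)) (e : clsN s t = clsN s' t') : s * t' - s' * t = 0 := by
  obtain ⟨l, -, h1, h2⟩ := clsN_spec s t h
  obtain ⟨l', -, h1', h2'⟩ := clsN_spec s' t' h'
  rw [← e] at h1' h2'
  generalize clsPs (clsN s t) = a at *
  generalize clsPt (clsN s t) = b at *
  rw [h1, h2, h1', h2']
  ring

private theorem cls_prim {m n p : ℕ} (hp : p.Prime) {g : ℤ[X][X]} (hg : Irr m n g) :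
    ∃ (i : Fin (m + 1)) (j : Fin (n + 1)), ¬ ((p : ℤ) ∣ (g.coeff j).coeff i) := by
  by_contra hcon
  push Not at hcon
  have hprim : g.IsPrimitive := hg.irr.isPrimitive (by
    rw [hg.ex.top]
    have := hg.n1
    omega)
  have hdvd : C (C (p : ℤ)) ∣ g := by
    rw [C_dvd_iff_dvd_coeff]
    intro j
    rw [C_dvd_iff_dvd_coeff]
    intro i
    rcases Nat.lt_or_ge n j with hj | hj
    · rw [coeff_eq_zero_of_natDegree_lt (lt_of_le_of_lt hg.ex.bd.1 hj), coeff_zero]
      exact dvd_zero _
    · rcases Nat.lt_or_ge m i with hi | hi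
      · rw [coeff_eq_zero_of_natDegree_lt (lt_of_le_of_lt (hg.ex.bd.2 j) hi)]
        exact dvd_zero _
      · exact hcon ⟨i, by omega⟩ ⟨j, by omega⟩
  have hu := hprim _ hdvd
  rw [isUnit_C] at hu
  have hp' : Prime (p : ℤ) := Nat.prime_iff_prime_int.mp hp
  exact hp'.not_isUnit hu

private theorem cls_ev {m n p : ℕ} [Fact p.Prime] (g : ℤ[X][X]) (s t u v : ℤ)
    (h : ev m n g s t u v = 0) :
    clsHH m n (fun i j => (((g.coeff (j : ℕ)).coeff (i : ℕ) : ℤ) : ZMod p))
      (s : ZMod p) (t : ZMod p) (u : ZMod p) (v : ZMod p) = 0 := by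
  have h1 : ((ev m n g s t u v : ℤ) : ZMod p) = 0 := by
    rw [h, Int.cast_zero]
  rw [← h1]
  unfold clsHH clsHom ev mon cf
  rw [Fintype.sum_prod_type_right]
  push_cast
  refine Finset.sum_congr rfl fun j _ => ?_
  rw [Finset.sum_mul]
  refine Finset.sum_congr rfl fun i _ => ?_
  simp only [algebraMap_int_eq, eq_intCast, Int.cast_eq]
  ring

theorem cls (m n p : ℕ) (hp : p.Prime) {g : ℤ[X][X]} (hg : Irr m n g) {ι : Type*} (P : Pts ι)
    (hz : ∀ i, ev m n g (P.s i) (P.t i) (P.u i) (P.v i) = 0)
    (h3 : ∀ i, ¬ ((p : ℤ) ∣ P.s i ∧ (p : ℤ) ∣ P.t i))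
    (h4 : ∀ i, ¬ ((p : ℤ) ∣ P.u i ∧ (p : ℤ) ∣ P.v i)) :
    ∃ κ : ι → Fin ((m + n) * (p + 1)), ∀ i j, κ i = κ j →
      (p : ℤ) ∣ P.s i * P.t j - P.s j * P.t i ∧ (p : ℤ) ∣ P.u i * P.v j - P.u j * P.v i := by
  classical
  have : Fact p.Prime := ⟨hp⟩
  set G : Fin (m + 1) → Fin (n + 1) → ZMod p :=
    fun i j => (((g.coeff (j : ℕ)).coeff (i : ℕ) : ℤ) : ZMod p) with hG
  have hG0 : ∃ i j, G i j ≠ 0 := by
    obtain ⟨i, j, hij⟩ := cls_prim hp hg
    refine ⟨i, j, fun h => hij ?_⟩
    rw [hG] at h
    exact (ZMod.intCast_zmod_eq_zero_iff_dvd _ _).mp h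
  set Z : Finset (Option (ZMod p) × Option (ZMod p)) :=
    Finset.univ.filter (fun z : Option (ZMod p) × Option (ZMod p) =>
      clsHH m n G (clsPs z.1) (clsPt z.1) (clsPs z.2) (clsPt z.2) = 0) with hZ
  have hcard : Z.card ≤ (m + n) * (p + 1) := by
    have := clsHH_count m n G hG0
    rw [ZMod.card] at this
    exact this
  have h3' : ∀ i, ¬ ((P.s i : ZMod p) = 0 ∧ (P.t i : ZMod p) = 0) := by
    intro i h
    exact h3 i ⟨(ZMod.intCast_zmod_eq_zero_iff_dvd _ _).mp h.1,
      (ZMod.intCast_zmod_eq_zero_iff_dvd _ _).mp h.2⟩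
  have h4' : ∀ i, ¬ ((P.u i : ZMod p) = 0 ∧ (P.v i : ZMod p) = 0) := by
    intro i h
    exact h4 i ⟨(ZMod.intCast_zmod_eq_zero_iff_dvd _ _).mp h.1,
      (ZMod.intCast_zmod_eq_zero_iff_dvd _ _).mp h.2⟩
  have hmem : ∀ i, (clsN (P.s i : ZMod p) (P.t i : ZMod p),
      clsN (P.u i : ZMod p) (P.v i : ZMod p)) ∈ Z := by
    intro i
    rw [hZ, Finset.mem_filter]
    refine ⟨Finset.mem_univ _, ?_⟩
    have e := cls_ev (m := m) (n := n) (p := p) g _ _ _ _ (hz i)
    obtain ⟨l, hl, e1, e2⟩ := clsN_spec _ _ (h3' i)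
    obtain ⟨l', hl', e3, e4⟩ := clsN_spec _ _ (h4' i)
    have e5 : clsHH m n G (P.s i : ZMod p) (P.t i : ZMod p) (P.u i : ZMod p) (P.v i : ZMod p)
        = l ^ m * l' ^ n * clsHH m n G (clsPs (clsN (P.s i : ZMod p) (P.t i : ZMod p)))
          (clsPt (clsN (P.s i : ZMod p) (P.t i : ZMod p)))
          (clsPs (clsN (P.u i : ZMod p) (P.v i : ZMod p)))
          (clsPt (clsN (P.u i : ZMod p) (P.v i : ZMod p))) := by
      rw [← clsHH_smul, ← e1, ← e2, ← e3, ← e4]
    rw [e5] at e
    have hne : l ^ m * l' ^ n ≠ 0 := mul_ne_zero (pow_ne_zero _ hl) (pow_ne_zero _ hl')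
    exact (mul_eq_zero.mp e).resolve_left hne
  let φ : Z ↪ Fin ((m + n) * (p + 1)) :=
    Z.equivFin.toEmbedding.trans (Fin.castLEEmb hcard)
  refine ⟨fun i => φ ⟨_, hmem i⟩, fun i j hij => ?_⟩
  have h5 := φ.injective hij
  have h6 := Subtype.mk.inj h5
  have h7 := (Prod.mk.inj h6).1
  have h8 := (Prod.mk.inj h6).2
  constructor
  · rw [← ZMod.intCast_zmod_eq_zero_iff_dvd]
    push_cast
    exact clsN_eq _ _ _ _ (h3' i) (h3' j) h7
  · rw [← ZMod.intCast_zmod_eq_zero_iff_dvd]
    push_cast
    exact clsN_eq _ _ _ _ (h4' i) (h4' j) h8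

end Pool.Agent.Work.MP_f2148a_nt.M56.H
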