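import Pool.Agent.Work.MP_f2148a_nt.M56.H.Par
import Pool.Agent.Work.MP_f2148a_nt.M56.CO.Contact

set_option autoImplicit false

/-!
# H/Ctc (size S-M): lower bound of the norm on the box from the contact order

PROOF. `CO.contact` with `a = 0` (`taylor 0` is the identity) and `g i j = cf G (i, j)`: the coefficient of `r ^ k γ ^ 0` of
`psi (U1 l c) (U2 l c) m 2 G` is the coefficient `k` of `CO.GG l c m g` (put `γ = 0`: `U₁ = γ - p₂(r)`, `U₂ = p₁(r)`), so
`nrm ρ γ (psi ..) ≥ |coeff k| ρ ^ k ≥ |coeff k| ρ ^ 14` for the `k ≤ 14` given by the theorem for the largest `|g i j|`, and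
`ht ≤ 15 max |g i j|`.
-/

namespace Pool.Agent.Work.MP_f2148a_nt.M56.H

open G4 G3 LD Polynomial

/-- the substitution `γ = 0` -/
private noncomputable def phi : A →ₐ[ℝ] ℝ[X] := MvPolynomial.aeval ![X, 0]

private theorem coeff_phi (F : A) (k : ℕ) :
    (phi F).coeff k = MvPolynomial.coeff (Finsupp.single 0 k) F := by
  classical
  induction F using MvPolynomial.induction_on' with
  | monomial x c =>
    unfold phi
    rw [MvPolynomial.aeval_monomial, Finsupp.prod_fintype _ _ (fun i => pow_zero _),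
      Fin.prod_univ_two, MvPolynomial.coeff_monomial]
    simp only [Matrix.cons_val_zero, Matrix.cons_val_one]
    rw [Polynomial.algebraMap_apply, Algebra.algebraMap_self_apply, coeff_C_mul]
    by_cases h1 : x 1 = 0
    · rw [h1, pow_zero, mul_one, coeff_X_pow]
      by_cases h0 : k = x 0
      · have hx : x = Finsupp.single 0 k := by
          ext i
          fin_cases i
          · simp [h0]
          · simpa using h1
        rw [if_pos h0, if_pos hx, mul_one]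
      · have hx : x ≠ Finsupp.single 0 k := by
          intro h
          apply h0
          rw [h]
          simp
        rw [if_neg h0, if_neg hx, mul_zero]
    · have hx : x ≠ Finsupp.single 0 k := by
        intro h
        apply h1
        rw [h]
        simp
      rw [zero_pow h1, mul_zero, coeff_zero, mul_zero, if_neg hx]
  | add p q hp hq => rw [map_add, coeff_add, hp, hq, MvPolynomial.coeff_add]

private theorem phi_U1 (l c : ℝ) : phi (U1 l c) = -CO.P2 c := by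
  have h2 : (C (2 : ℝ) : ℝ[X]) = 2 := map_ofNat C 2
  unfold phi U1 pb CO.P2
  rw [h2]
  simp

private theorem phi_U2 (l c : ℝ) : phi (U2 l c) = CO.P1 l c := by
  have h2 : (C (2 : ℝ) : ℝ[X]) = 2 := map_ofNat C 2
  have h3 : (C (3 : ℝ) : ℝ[X]) = 3 := map_ofNat C 3
  have h6 : (C (6 : ℝ) : ℝ[X]) = 6 := map_ofNat C 6
  unfold phi U2 pa CO.P1
  rw [C_mul, C_mul, C_mul, h2, h3, h6]
  simp

private theorem phi_psi (l c : ℝ) (m : ℕ) (G : ℝ[X][X]) : phi (psi (U1 l c) (U2 l c) m 2 G) =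
    CO.GG l c m (fun i j => (G.coeff (2 - j)).coeff i) := by
  unfold psi
  rw [← ev_map, phi_U1, phi_U2, map_one]
  have hX : phi (MvPolynomial.X 0) = X := by
    unfold phi
    rw [MvPolynomial.aeval_X]
    rfl
  rw [hX]
  unfold ev CO.GG
  rw [Fintype.sum_prod_type, ← Fin.sum_univ_eq_sum_range (fun i => ∑ j ∈ Finset.range 3,
    C ((G.coeff (2 - j)).coeff i) * ((-CO.P2 c) ^ i * CO.P1 l c ^ (m - i) * X ^ j)) (m + 1)]
  refine Finset.sum_congr rfl fun i _ => ?_
  rw [← Fin.sum_univ_eq_sum_range (fun j =>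
    C ((G.coeff (2 - j)).coeff i) * ((-CO.P2 c) ^ (i : ℕ) * CO.P1 l c ^ (m - i) * X ^ j)) 3]
  rw [← Equiv.sum_comp (Fin.revPerm : Equiv.Perm (Fin 3))]
  refine Finset.sum_congr rfl fun j _ => ?_
  unfold cf mon
  have hj : ((Fin.revPerm j : Fin 3) : ℕ) = 2 - j := by
    rw [Fin.revPerm_apply, Fin.val_rev]
    omega
  have hj2 : 2 - (2 - (j : ℕ)) = j := by omega
  simp only [hj, hj2, one_pow, one_mul]
  rw [Polynomial.algebraMap_apply, Algebra.algebraMap_self_apply]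

theorem ctc : ∃ c₁ : ℝ, 0 < c₁ ∧ ∀ l c ρ γ : ℝ, |l| = 1 → |c| ≤ c₁ → 0 < ρ → ρ ≤ 1 → 0 ≤ γ →
    ∀ m : ℕ, m ≤ 4 → ∀ G : ℝ[X][X],
      c₁ * ρ ^ 14 * ht (cf G : E m 2 → ℝ) ≤ nrm ρ γ (psi (U1 l c) (U2 l c) m 2 G) := by
  obtain ⟨c₀, hc₀, h⟩ := CO.contact
  refine ⟨c₀ / 15, by positivity, ?_⟩
  intro l c ρ γ hl hc hρ hρ1 hγ m hm G
  have key : ∀ e : E m 2, c₀ * ρ ^ 14 * |cf G e| ≤ nrm ρ γ (psi (U1 l c) (U2 l c) m 2 G) := by
    intro e
    have he1 : (e.1 : ℕ) ≤ m := by omega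
    have he2 : (e.2 : ℕ) ≤ 2 := by omega
    obtain ⟨k, hk, hkk⟩ := h l c 0 hl (hc.trans (by linarith)) (by rw [abs_zero]; exact hc₀.le)
      m hm (fun i j => (G.coeff (2 - j)).coeff i) e.1 he1 (2 - e.2) (by omega)
    rw [taylor_zero, ← phi_psi, coeff_phi] at hkk
    have e3 : 2 - (2 - (e.2 : ℕ)) = e.2 := by omega
    rw [e3] at hkk
    have h1 := coeff_wt_le hρ.le hγ (psi (U1 l c) (U2 l c) m 2 G) (Finsupp.single 0 k)
    have h2 : wt ρ γ (Finsupp.single 0 k) = ρ ^ k := by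
      unfold wt
      simp
    rw [h2] at h1
    have h3 : ρ ^ 14 ≤ ρ ^ k := pow_le_pow_of_le_one hρ.le hρ1 hk
    calc c₀ * ρ ^ 14 * |cf G e| = c₀ * |cf G e| * ρ ^ 14 := by ring
      _ ≤ |MvPolynomial.coeff (Finsupp.single 0 k) (psi (U1 l c) (U2 l c) m 2 G)| * ρ ^ 14 :=
          mul_le_mul_of_nonneg_right hkk (by positivity)
      _ ≤ |MvPolynomial.coeff (Finsupp.single 0 k) (psi (U1 l c) (U2 l c) m 2 G)| * ρ ^ k :=
          mul_le_mul_of_nonneg_left h3 (abs_nonneg _)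
      _ ≤ _ := h1
  have hN : 0 ≤ nrm ρ γ (psi (U1 l c) (U2 l c) m 2 G) := nrm_nonneg hρ.le hγ _
  have hsum : c₀ * ρ ^ 14 * ht (cf G : E m 2 → ℝ) ≤
      15 * nrm ρ γ (psi (U1 l c) (U2 l c) m 2 G) := by
    unfold ht
    rw [Finset.mul_sum]
    refine (Finset.sum_le_sum fun e _ => key e).trans ?_
    rw [Finset.sum_const, nsmul_eq_mul, Finset.card_univ, Fintype.card_prod, Fintype.card_fin,
      Fintype.card_fin]
    refine mul_le_mul_of_nonneg_right ?_ hN
    have : (m + 1) * (2 + 1) ≤ 15 := by omega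
    exact_mod_cast this
  have : c₀ / 15 * ρ ^ 14 * ht (cf G : E m 2 → ℝ) =
      (c₀ * ρ ^ 14 * ht (cf G : E m 2 → ℝ)) / 15 := by ring
  rw [this]
  linarith

end Pool.Agent.Work.MP_f2148a_nt.M56.H
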