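import Pool.Agent.Work.MP_f2148a_nt.M56.H.NN
import Pool.Agent.Work.MP_f2148a_nt.M56.N1.Main
import Pool.Agent.Work.MP_f2148a_nt.M56.AX.Main
import Pool.Agent.Work.MP_f2148a_nt.M56.AX.Deg

set_option autoImplicit false

/-!
# H/Curve (helper68): the number of points of a box on one irreducible curve, all bidegrees
-/

namespace Pool.Agent.Work.MP_f2148a_nt.M56.H

open G4 G3 LD Polynomial

private theorem large (c η : ℝ) (hη : 0 < η) : ∃ Λ₀ : ℝ, ∀ Λ : ℝ, Λ₀ ≤ Λ →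
    c ≤ Real.exp (Λ * η) := by
  refine ⟨c / η, fun Λ hΛ => ?_⟩
  rw [div_le_iff₀ hη] at hΛ
  have := Real.add_one_le_exp (Λ * η)
  linarith

theorem Fam.inj {ι : Type} {x y α β : ℤ} {ω τ ρ S Q : ℝ} {f : ι → ℤ × ℤ × ℤ × ℤ}
    (hf : Fam x y α β ω τ ρ S Q f) : Function.Injective f := by
  intro i j h
  by_contra hne
  exact hf.dst i j hne (by rw [h])

/-- The case `n = 1`. -/
theorem curve1 (ε C₀ : ℝ) (hε : 0 < ε) (hC : 1 ≤ C₀) (J m : ℕ) (hm : 1 ≤ m) (hmJ : m ≤ J)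
    (hJ : 1 ≤ J) :
    ∃ C Λ₀ : ℝ, 0 ≤ C ∧ ∀ Λ : ℝ, Λ₀ ≤ Λ →
    ∀ (x y α β : ℤ) (ω τ Δ l c s d q a t om J₀ H₀ : ℝ),
      Par C₀ Λ x y α β ω τ Δ l c s d q a t om → ε ≤ 4 * q + s + d →
      Real.exp (Λ * ε) * J₀ ^ 2 ≤ H₀ → ∀ g : ℤ[X][X], Irr m 1 g →
    ∀ (ι : Type) [Fintype ι] (f : ι → ℤ × ℤ × ℤ × ℤ), Fam x y α β ω τ (Real.exp (-(Λ * a)))
        (Real.exp (Λ * s)) (Real.exp (Λ * q)) f →
      (∀ i, |((J432 (q4 x y α β (f i).1 (f i).2.1) : ℤ) : ℝ)| ≤ J₀ ∧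
        H₀ ≤ |((Hq (q4 x y α β (f i).1 (f i).2.1) (f i).2.2.1 (f i).2.2.2 : ℤ) : ℝ)|) →
      (∀ i, ev m 1 g (f i).1 (f i).2.1 (f i).2.2.1 (f i).2.2.2 = 0) →
      (Fintype.card ι : ℝ) ≤ C * Real.exp (Λ * ε) := by
  obtain ⟨C₂, Λ₁, hb1⟩ := htb C₀ ε hC hε J
  obtain ⟨C₁, Λ₂, hb2⟩ := size C₀ ε hC hε
  set D : ℝ := C₀ + |C₁| + |C₂| with hD
  obtain ⟨C, K₀, hC0, hK₀, hn1⟩ := N1.n1 m hm ε D hε (by positivity)
  refine ⟨C + 2 * m, max (max Λ₁ Λ₂) (max (Real.log K₀) 1), by positivity, ?_⟩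
  intro Λ hΛ x y α β ω τ Δ l c s d q a t om J₀ H₀ hp hb hJH g hg ι _ f hf hJf h0
  have hΛ1 : Λ₁ ≤ Λ := (le_trans (by simp) hΛ)
  have hΛ2 : Λ₂ ≤ Λ := (le_trans (by simp) hΛ)
  have hΛ3 : Real.log K₀ ≤ Λ := (le_trans (by simp) hΛ)
  have hΛ4 : 1 ≤ Λ := (le_trans (by simp) hΛ)
  have hΛ0 : 0 < Λ := by linarith
  have hE1 : 1 ≤ Real.exp (Λ * ε) := Real.one_le_exp (by positivity)
  by_cases hcard : Fintype.card ι ≤ 2 * m * 1
  · have h1 : (Fintype.card ι : ℝ) ≤ 2 * m := by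
      have : ((Fintype.card ι : ℕ) : ℝ) ≤ ((2 * m * 1 : ℕ) : ℝ) := Nat.cast_le.2 hcard
      push_cast at this
      linarith
    have h2 : (0 : ℝ) ≤ 2 * m := by positivity
    nlinarith
  push Not at hcard
  obtain ⟨hcf, -⟩ := hb1 Λ hΛ1 x y α β ω τ Δ l c s d q a t om hp hb m 1 hmJ hJ g hg ι f hf h0
    hcard
  set K : ℝ := Real.exp Λ with hK
  have hKpow : ∀ z : ℝ, K ^ z = Real.exp (Λ * z) := fun z => by
    rw [hK, ← Real.exp_mul]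
  have hKK : K₀ ≤ K := by
    rw [hK]
    rwa [← Real.log_le_iff_le_exp (by linarith)]
  have hC0D : C₀ ≤ D := by
    have := abs_nonneg C₁
    have := abs_nonneg C₂
    rw [hD]
    linarith
  have hC1D : C₁ ≤ D := by
    have := le_abs_self C₁
    have := abs_nonneg C₂
    rw [hD]
    linarith
  have hC2D : C₂ ≤ D := by
    have := abs_nonneg C₁
    have := le_abs_self C₂
    rw [hD]
    linarith
  have hmono : ∀ z w v : ℝ, v ≤ Real.exp (Λ * z) → z ≤ w → v ≤ K ^ w := by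
    intro z w v hv hzw
    rw [hKpow]
    exact hv.trans (Real.exp_le_exp.2 (mul_le_mul_of_nonneg_left hzw hΛ0.le))
  classical
  have hinj := hf.inj
  have h3 := hn1 K hKK x y α β g J₀ H₀ (hmono _ _ _ hp.x1 hC0D) (hmono _ _ _ hp.y1 hC0D)
    (hmono _ _ _ (by
      have : (0 : ℝ) ≤ α := by
        have := hp.rf.hα
        exact_mod_cast (by omega : 0 ≤ α)
      rw [abs_of_nonneg this]
      exact hp.α1) hC0D) (hmono _ _ _ hp.β1 hC0D) hg (by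
      intro i j
      by_cases hij : i ≤ m ∧ j ≤ 1
      · obtain ⟨hi, hj⟩ := hij
        exact hmono _ _ _ (hcf (⟨i, by omega⟩, ⟨j, by omega⟩)) hC2D
      · have hz : (g.coeff j).coeff i = 0 := by
          rw [not_and_or, not_le, not_le] at hij
          rcases hij with h | h
          · exact coeff_eq_zero_of_natDegree_lt ((hg.ex.bd.2 j).trans_lt h)
          · rw [coeff_eq_zero_of_natDegree_lt (hg.ex.bd.1.trans_lt h), coeff_zero]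
        rw [hz, Int.cast_zero, abs_zero]
        positivity) (by
      rw [hKpow]
      exact hJH) (Finset.univ.image f) (by
      intro p hpm
      obtain ⟨i, -, rfl⟩ := Finset.mem_image.1 hpm
      obtain ⟨b1, b2, -, -⟩ := hb2 Λ hΛ2 x y α β ω τ Δ l c s d q a t om hp hb _ _ _ _ (hf.bx i)
      exact ⟨(hf.bx i).val, (hf.bx i).jne, (hJf i).1, (hJf i).2, hmono _ _ _ b1 hC1D,
        hmono _ _ _ b2 hC1D, h0 i⟩) (by
      intro p hpm p' hpm' hne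
      obtain ⟨i, -, rfl⟩ := Finset.mem_image.1 hpm
      obtain ⟨j, -, rfl⟩ := Finset.mem_image.1 hpm'
      exact hf.dst i j fun e => hne (by rw [e])) (by
      intro p hpm p' hpm' hne
      obtain ⟨i, -, rfl⟩ := Finset.mem_image.1 hpm
      obtain ⟨j, -, rfl⟩ := Finset.mem_image.1 hpm'
      exact hf.inv i j fun e => hne (by rw [e]))
  rw [Finset.card_image_of_injective _ hinj, Finset.card_univ, hKpow] at h3
  have h4 : (0 : ℝ) ≤ 2 * m := by positivity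
  nlinarith

/-- All bidegrees. -/
theorem curve (ε C₀ : ℝ) (hε : 0 < ε) (hC : 1 ≤ C₀) (J : ℕ) : ∃ C Λ₀ : ℝ, 0 ≤ C ∧
    ∀ Λ : ℝ, Λ₀ ≤ Λ →
    ∀ (x y α β : ℤ) (ω τ Δ l c s d q a t om J₀ H₀ : ℝ),
      Par C₀ Λ x y α β ω τ Δ l c s d q a t om →
      (1 / 10 ≤ a - t → |l| = 1) → Cond ε s d q a t om →
      Real.exp (Λ * ε) * J₀ ^ 2 ≤ H₀ →
    ∀ m n : ℕ, m ≤ J → n ≤ J → ∀ g : ℤ[X][X], Irreducible g → Ex m n g →
    ∀ (ι : Type) [Fintype ι] (f : ι → ℤ × ℤ × ℤ × ℤ), Fam x y α β ω τ (Real.exp (-(Λ * a)))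
        (Real.exp (Λ * s)) (Real.exp (Λ * q)) f →
      (∀ i, |((J432 (q4 x y α β (f i).1 (f i).2.1) : ℤ) : ℝ)| ≤ J₀ ∧
        H₀ ≤ |((Hq (q4 x y α β (f i).1 (f i).2.1) (f i).2.2.1 (f i).2.2.2 : ℤ) : ℝ)|) →
      (∀ i, ev m n g (f i).1 (f i).2.1 (f i).2.2.1 (f i).2.2.2 = 0) →
      (Fintype.card ι : ℝ) ≤ C * Real.exp (Λ * (om + ε)) := by
  have h1 : ∀ m : ℕ, ∃ C Λ₀ : ℝ, 0 ≤ C ∧ (1 ≤ m → m ≤ J → ∀ Λ : ℝ, Λ₀ ≤ Λ →
    ∀ (x y α β : ℤ) (ω τ Δ l c s d q a t om J₀ H₀ : ℝ),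
      Par C₀ Λ x y α β ω τ Δ l c s d q a t om → ε ≤ 4 * q + s + d →
      Real.exp (Λ * ε) * J₀ ^ 2 ≤ H₀ → ∀ g : ℤ[X][X], Irr m 1 g →
    ∀ (ι : Type) [Fintype ι] (f : ι → ℤ × ℤ × ℤ × ℤ), Fam x y α β ω τ (Real.exp (-(Λ * a)))
        (Real.exp (Λ * s)) (Real.exp (Λ * q)) f →
      (∀ i, |((J432 (q4 x y α β (f i).1 (f i).2.1) : ℤ) : ℝ)| ≤ J₀ ∧
        H₀ ≤ |((Hq (q4 x y α β (f i).1 (f i).2.1) (f i).2.2.1 (f i).2.2.2 : ℤ) : ℝ)|) →
      (∀ i, ev m 1 g (f i).1 (f i).2.1 (f i).2.2.1 (f i).2.2.2 = 0) →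
      (Fintype.card ι : ℝ) ≤ C * Real.exp (Λ * ε)) := by
    intro m
    by_cases h : 1 ≤ m ∧ m ≤ J
    · obtain ⟨C, Λ₀, hC0, hh⟩ := curve1 ε C₀ hε hC J m h.1 h.2 (h.1.trans h.2)
      exact ⟨C, Λ₀, hC0, fun _ _ => hh⟩
    · exact ⟨0, 0, le_rfl, fun h2 h3 => absurd ⟨h2, h3⟩ h⟩
  choose Cm Λm hCm hm1 using h1
  obtain ⟨Cn, Λn, hCn, hnn⟩ := nn ε C₀ hε hC J
  obtain ⟨Λ₃, h60⟩ := large 60 ε hε
  obtain ⟨Λ₄, h5⟩ := large 5 (1 / C₀) (by positivity)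
  set Cs : ℝ := ∑ m ∈ Finset.range (J + 1), Cm m with hCs
  set Λs : ℝ := ∑ m ∈ Finset.range (J + 1), |Λm m| with hΛs
  have hCs0 : 0 ≤ Cs := Finset.sum_nonneg fun m _ => hCm m
  refine ⟨1 + Cs + Cn, max (max Λn Λ₃) (max (max Λ₄ Λs) 1), by positivity, ?_⟩
  intro Λ hΛ x y α β ω τ Δ l c s d q a t om J₀ H₀ hp hl1 hcond hJH m n hmJ hnJ g hgi hex ι _ f hf
    hJf h0
  have hΛ1 : Λn ≤ Λ := (le_trans (by simp) hΛ)
  have hΛ2 : Λ₃ ≤ Λ := (le_trans (by simp) hΛ)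
  have hΛ3 : Λ₄ ≤ Λ := (le_trans (by simp) hΛ)
  have hΛ4 : Λs ≤ Λ := (le_trans (by simp) hΛ)
  have hΛ5 : 1 ≤ Λ := (le_trans (by simp) hΛ)
  have hΛ0 : 0 < Λ := by linarith
  have hC00 : 0 < C₀ := by linarith
  have hC0 : 0 < 1 / C₀ := by positivity
  have hom0 : 0 ≤ om := hC0.le.trans hp.om1
  have ha0 : 0 ≤ a := hC0.le.trans hp.a1
  have hE1 : 1 ≤ Real.exp (Λ * (om + ε)) := Real.one_le_exp (by positivity)
  have hE2 : Real.exp (Λ * om) ≤ Real.exp (Λ * (om + ε)) :=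
    Real.exp_le_exp.2 (mul_le_mul_of_nonneg_left (by linarith) hΛ0.le)
  have hE3 : Real.exp (Λ * ε) ≤ Real.exp (Λ * (om + ε)) :=
    Real.exp_le_exp.2 (mul_le_mul_of_nonneg_left (by linarith) hΛ0.le)
  have hE0 : 0 < Real.exp (Λ * (om + ε)) := Real.exp_pos _
  have hb := hcond.h3
  -- at most one point
  have hone : Fintype.card ι ≤ 1 → (Fintype.card ι : ℝ) ≤
      (1 + Cs + Cn) * Real.exp (Λ * (om + ε)) := by
    intro h
    have h2 : (Fintype.card ι : ℝ) ≤ 1 := by exact_mod_cast h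
    nlinarith
  rcases Nat.eq_zero_or_pos n with hn0 | hn0
  · -- `n = 0`
    subst hn0
    refine hone (Fintype.card_le_one_iff.2 fun i j => ?_)
    by_contra hne
    exact hf.dst i j hne (AX.deg_n0 hgi hex.bd (hf.t0 i) (hf.Y0 i) (hf.t0 j) (hf.Y0 j) (h0 i)
      (h0 j))
  rcases Nat.eq_zero_or_pos m with hm0 | hm0
  · -- `m = 0`
    subst hm0
    refine hone (Fintype.card_le_one_iff.2 fun i j => ?_)
    by_contra hne
    have hv := AX.deg_m0 hgi hex.bd (hf.t0 i) (hf.Y0 i) (hf.t0 j) (hf.Y0 j) (h0 i) (h0 j)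
    refine hf.dst i j hne (same_v hp.rf ?_ (Real.exp_pos _) (Real.exp_pos _) ?_ (hf.bx i)
      (hf.bx j) hv)
    · have h1 : (5 : ℝ) ≤ Real.exp (Λ * a) := (h5 Λ hΛ3).trans
        (Real.exp_le_exp.2 (mul_le_mul_of_nonneg_left hp.a1 hΛ0.le))
      rw [Real.exp_neg, ← one_div]
      exact one_div_le_one_div_of_le (by norm_num) h1
    · calc 60 * Real.exp (Λ * s) ≤ Real.exp (Λ * ε) * Real.exp (Λ * s) :=
            mul_le_mul_of_nonneg_right (h60 Λ hΛ2) (Real.exp_pos _).le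
        _ = Real.exp (Λ * (s + ε)) := by
            rw [← Real.exp_add]
            congr 1
            ring
        _ ≤ Real.exp (Λ * (4 * q + d)) :=
            Real.exp_le_exp.2 (mul_le_mul_of_nonneg_left hcond.h0 hΛ0.le)
        _ = Real.exp (Λ * d) * Real.exp (Λ * q) ^ 4 := by
            rw [← Real.exp_nat_mul, ← Real.exp_add]
            congr 1
            push_cast
            ring
        _ ≤ Δ * Real.exp (Λ * q) ^ 4 :=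
            mul_le_mul_of_nonneg_right hp.Δ1 (by positivity)
  rcases Nat.lt_or_ge n 2 with hn2 | hn2
  · -- `n = 1`
    have hn1 : n = 1 := by omega
    subst hn1
    have hmem : m ∈ Finset.range (J + 1) := Finset.mem_range.2 (by omega)
    have hΛm : Λm m ≤ Λ := by
      refine le_trans (le_abs_self _) (le_trans ?_ hΛ4)
      exact Finset.single_le_sum (f := fun m => |Λm m|) (fun i _ => abs_nonneg _) hmem
    have h3 := hm1 m hm0 hmJ Λ hΛm x y α β ω τ Δ l c s d q a t om J₀ H₀ hp (by linarith) hJH g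
      ⟨hex, le_rfl, hgi⟩ ι f hf hJf h0
    have h4 : Cm m ≤ Cs := Finset.single_le_sum (f := Cm) (fun i _ => hCm i) hmem
    have h5 : Cm m * Real.exp (Λ * ε) ≤ Cs * Real.exp (Λ * (om + ε)) :=
      mul_le_mul h4 hE3 (Real.exp_pos _).le hCs0
    nlinarith
  · -- `n ≥ 2`
    have h3 := hnn Λ hΛ1 x y α β ω τ Δ l c s d q a t om hp hl1 hcond m n hm0 hn2 hmJ hnJ g
      ⟨hex, by omega, hgi⟩ ι f hf h0
    have h5 : Cn * Real.exp (Λ * om) ≤ Cn * Real.exp (Λ * (om + ε)) :=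
      mul_le_mul_of_nonneg_left hE2 hCn
    nlinarith

end Pool.Agent.Work.MP_f2148a_nt.M56.H
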