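import Pool.Agent.Work.MP_f2148a_nt.M56.H.Par

set_option autoImplicit false

/-!
# H/Dat (size M): the real data of the points of a box in the format of block LD

PROOF. `κ = d₂ / p₁(r)`, `θ = ξ`, `r = υ/ξ`, `z = d₁/d₂ p₁(r) + p₂(r)`; `|r| ≤ ρ = exp (-Λ a) ≤ 1/5` for
large `Λ`, `p₁(r) ≥ 1/2` (`G3.pa_ge`), `d₂ ≥ S / 10 > 0`, `|ξ| ≥ Q > 0`. `F_eq` and `Bx.val` give
`3 = 9 Δ ξ⁴ (d₁ p₁(r) + d₂ p₂(r)) = 9 Δ ξ⁴ d₂ z`, so `z = 1 / (3 Δ d₂ ξ⁴)` (`cz_eq`), and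
`|z| ≤ 10 / (3 exp (Λ (d + s + 4 q))) ≤ exp (-Λ (4 q + s + d - η))` for `Λ η ≥ log 10`. `|κ| ≤ 20 S ≤ exp (Λ (s + η))`.
`|θ| ≤ 2 Q`. `κ at2 r z U₁ = κ (z - p₂(r)) = d₁`, `κ at2 r z U₂ = d₂`, and `s = e₁ d₁ = (3α/τ) d₁`, etc. are direct
(`t = e₂ d₁ + e₃ d₂`, `X = τ ξ - (ω/τ) υ`, `Y = υ/τ`). Norms: `nrm 1 1 U₁ ≤ 1 + 2 + |c| ≤ 4`, `nrm 1 1 U₂ ≤ 1 + 6 + 2 + 3 = 12`
(`LD.nrm_add`, `nrm_mul`, `nrm_pow`, `nrm_C`, ...), total degrees at most 4 (see `G3.td_psi` for the pattern).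
-/

namespace Pool.Agent.Work.MP_f2148a_nt.M56.H

open G4 G3 LD

theorem cz_eq {x y α β : ℤ} {ω τ Δ l c ρ S Q : ℝ} (h : Rf x y α β ω τ Δ l c) (hρ : ρ ≤ 1 / 5)
    (hS : 0 < S) (hQ : 0 < Q) {s t X Y : ℤ} (hb : Bx x y α β ω τ ρ S Q s t X Y) :
    cz α ω τ l c s t X Y = 1 / (3 * Δ * cd2 α ω τ s t * cxi ω τ X Y ^ 4) := by
  have hΔ : 0 < Δ := lt_of_lt_of_le (by norm_num) h.hΔ
  have hd2 : 0 < cd2 α ω τ s t := lt_of_lt_of_le (by positivity) hb.d1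
  have hξ : 0 < |cxi ω τ X Y| := lt_of_lt_of_le hQ hb.xi1
  have hξ0 : cxi ω τ X Y ≠ 0 := abs_pos.1 hξ
  have f1 := F_eq h s t X Y
  rw [hb.val] at f1
  have e1 : (3 : ℝ) = 9 * Δ * cxi ω τ X Y ^ 4 * cd2 α ω τ s t * cz α ω τ l c s t X Y := by
    have e2 : cz α ω τ l c s t X Y * (cd2 α ω τ s t * cxi ω τ X Y ^ 4) =
        cd1 α τ s * (cxi ω τ X Y ^ 4 - 6 * l * cxi ω τ X Y ^ 2 * cup τ Y ^ 2
          - 2 * c * cxi ω τ X Y * cup τ Y ^ 3 - 3 * l ^ 2 * cup τ Y ^ 4) +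
        cd2 α ω τ s t * (2 * cxi ω τ X Y ^ 3 * cup τ Y - c * cup τ Y ^ 4) := by
      unfold cz cr pa pb
      field_simp
      ring
    have e3 : ((3 : ℤ) : ℝ) = 3 := by norm_num
    rw [e3, ← e2] at f1
    linear_combination f1
  rw [eq_div_iff (by positivity)]
  linear_combination (-1 / 3) * e1

private theorem am_C (a : ℝ) : (algebraMap ℝ LD.A a) = MvPolynomial.C a := rfl

private theorem at2_U1 (l c r z : ℝ) : at2 r z (U1 l c) = z - pb l c r := by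
  unfold at2 U1 pb
  rw [am_C, am_C]
  simp

private theorem at2_U2 (l c r z : ℝ) : at2 r z (U2 l c) = pa l c r := by
  unfold at2 U2 pa
  rw [am_C, am_C]
  simp

private theorem nX (i : Fin 2) : nrm 1 1 (MvPolynomial.X i : LD.A) = 1 := by
  have h := nrm_monomial 1 1 1 (Finsupp.single i 1)
  have h2 : (MvPolynomial.X i : LD.A) = MvPolynomial.monomial (Finsupp.single i 1) 1 := rfl
  rw [h2, h]
  unfold wt
  simp

private theorem nle_mul {F G : LD.A} {a b : ℝ} (hF : nrm 1 1 F ≤ a) (hG : nrm 1 1 G ≤ b) :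
    nrm 1 1 (F * G) ≤ a * b :=
  (nrm_mul zero_le_one zero_le_one F G).trans (mul_le_mul hF hG
    (nrm_nonneg zero_le_one zero_le_one G) ((nrm_nonneg zero_le_one zero_le_one F).trans hF))

private theorem nle_add {F G : LD.A} {a b : ℝ} (hF : nrm 1 1 F ≤ a) (hG : nrm 1 1 G ≤ b) :
    nrm 1 1 (F + G) ≤ a + b :=
  (nrm_add zero_le_one zero_le_one F G).trans (add_le_add hF hG)

private theorem nle_C {a b : ℝ} (h : |a| ≤ b) : nrm 1 1 (MvPolynomial.C a : LD.A) ≤ b := by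
  rw [nrm_C]
  exact h

private theorem nle_neg {F : LD.A} {a : ℝ} (hF : nrm 1 1 F ≤ a) : nrm 1 1 (-F) ≤ a := by
  have h : -F = MvPolynomial.C (-1) * F := by
    rw [map_neg, map_one, neg_one_mul]
  rw [h, ← one_mul a]
  exact nle_mul (nle_C (by norm_num)) hF

private theorem nle_sub {F G : LD.A} {a b : ℝ} (hF : nrm 1 1 F ≤ a) (hG : nrm 1 1 G ≤ b) :
    nrm 1 1 (F - G) ≤ a + b := by
  rw [sub_eq_add_neg]
  exact nle_add hF (nle_neg hG)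

private theorem nle_X (i : Fin 2) (k : ℕ) : nrm 1 1 ((MvPolynomial.X i : LD.A) ^ k) ≤ 1 := by
  refine (nrm_pow zero_le_one zero_le_one _ k).trans ?_
  rw [nX, one_pow]

private theorem n_U1 {l c : ℝ} (hc : |c| ≤ 1) : nrm 1 1 (U1 l c) ≤ 4 := by
  have e : U1 l c = MvPolynomial.X 1 - (MvPolynomial.C 2 * MvPolynomial.X 0 ^ 1 -
      MvPolynomial.C c * MvPolynomial.X 0 ^ 4) := by
    unfold U1 pb
    rw [am_C, am_C, pow_one, zero_mul, add_zero]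
    have : (MvPolynomial.C 2 : LD.A) = 2 := map_ofNat _ 2
    rw [this]
  rw [e]
  have h1 := nle_sub (nX 1).le (nle_sub (nle_mul (nle_C (a := 2) (b := 2) (by norm_num))
    (nle_X 0 1)) (nle_mul (nle_C hc) (nle_X 0 4)))
  linarith

private theorem n_U2 {l c : ℝ} (hl : |l| ≤ 1) (hc : |c| ≤ 1) : nrm 1 1 (U2 l c) ≤ 12 := by
  have e : U2 l c = 1 - MvPolynomial.C (6 * l) * MvPolynomial.X 0 ^ 2 -
      MvPolynomial.C (2 * c) * MvPolynomial.X 0 ^ 3 -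
      MvPolynomial.C (3 * l ^ 2) * MvPolynomial.X 0 ^ 4 := by
    unfold U2 pa
    rw [am_C, am_C, map_mul, map_mul, map_mul, map_pow]
    have h6 : (MvPolynomial.C 6 : LD.A) = 6 := map_ofNat _ 6
    have h2 : (MvPolynomial.C 2 : LD.A) = 2 := map_ofNat _ 2
    have h3 : (MvPolynomial.C 3 : LD.A) = 3 := map_ofNat _ 3
    rw [h6, h2, h3]
  have h0 : nrm 1 1 (1 : LD.A) ≤ 1 := by
    rw [← MvPolynomial.C_1, nrm_C, abs_one]
  have a1 : |6 * l| ≤ 6 := by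
    rw [abs_mul, abs_of_pos (by norm_num : (0 : ℝ) < 6)]
    linarith
  have a2 : |2 * c| ≤ 2 := by
    rw [abs_mul, abs_of_pos (by norm_num : (0 : ℝ) < 2)]
    linarith
  have a3 : |3 * l ^ 2| ≤ 3 := by
    rw [abs_mul, abs_of_pos (by norm_num : (0 : ℝ) < 3), abs_pow]
    nlinarith [abs_nonneg l]
  rw [e]
  have h1 := nle_sub (nle_sub (nle_sub h0 (nle_mul (nle_C a1) (nle_X 0 2)))
    (nle_mul (nle_C a2) (nle_X 0 3))) (nle_mul (nle_C a3) (nle_X 0 4))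
  linarith

private theorem td_U1 (l c : ℝ) : (U1 l c).totalDegree ≤ 4 := by
  unfold U1 pb
  refine td_sub (td_X _ (by norm_num)) (td_add (td_sub ?_ ?_) ?_)
  · exact td_mul (a := 0) (b := 1) (td_num 2) (td_X _ le_rfl) (by norm_num)
  · exact td_mul (a := 0) (b := 4) (td_am _) (td_pow (a := 1) 4 (td_X _ le_rfl) (by norm_num))
      (by norm_num)
  · rw [zero_mul, MvPolynomial.totalDegree_zero]
    exact Nat.zero_le _

private theorem td_U2 (l c : ℝ) : (U2 l c).totalDegree ≤ 4 := by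
  unfold U2 pa
  refine td_sub (td_sub (td_sub ?_ ?_) ?_) ?_
  · rw [MvPolynomial.totalDegree_one]
    exact Nat.zero_le _
  · exact td_mul (a := 0) (b := 2) (td_mul (a := 0) (b := 0) (td_num 6) (td_am _) le_rfl)
      (td_pow (a := 1) 2 (td_X _ le_rfl) (by norm_num)) (by norm_num)
  · exact td_mul (a := 0) (b := 3) (td_mul (a := 0) (b := 0) (td_num 2) (td_am _) le_rfl)
      (td_pow (a := 1) 3 (td_X _ le_rfl) (by norm_num)) (by norm_num)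
  · exact td_mul (a := 0) (b := 4) (td_mul (a := 0) (b := 0) (td_num 3)
      (td_pow (a := 0) 2 (td_am _) (by norm_num)) le_rfl)
      (td_pow (a := 1) 4 (td_X _ le_rfl) (by norm_num)) (by norm_num)

theorem dat (C₀ η : ℝ) (hC : 1 ≤ C₀) (hη : 0 < η) : ∃ Λ₀ : ℝ, ∀ Λ : ℝ, Λ₀ ≤ Λ →
    ∀ (x y α β : ℤ) (ω τ Δ l c s d q a : ℝ), Rf x y α β ω τ Δ l c → Real.exp (Λ * d) ≤ Δ →
      1 / C₀ ≤ a → η ≤ 4 * q + s + d →
    ∀ (ι : Type) (f : ι → ℤ × ℤ × ℤ × ℤ), (∀ i, Bx x y α β ω τ (Real.exp (-(Λ * a)))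
      (Real.exp (Λ * s)) (Real.exp (Λ * q)) (f i).1 (f i).2.1 (f i).2.2.1 (f i).2.2.2) →
    ∀ B : ℝ, 12 ≤ B → Dat (frm α ω τ) (pts f) (U1 l c) (U2 l c) B 4 (Real.exp (-(Λ * a)))
      (Real.exp (-(Λ * (4 * q + s + d - η)))) (Real.exp (Λ * (s + η))) (Real.exp (Λ * (q + η)))
      (fun i => cd2 α ω τ (f i).1 (f i).2.1 / pa l c (cr ω τ (f i).2.2.1 (f i).2.2.2))
      (fun i => cxi ω τ (f i).2.2.1 (f i).2.2.2) (fun i => cr ω τ (f i).2.2.1 (f i).2.2.2)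
      (fun i => cz α ω τ l c (f i).1 (f i).2.1 (f i).2.2.1 (f i).2.2.2) := by
  refine ⟨max (2 * C₀) (4 / η), fun Λ hΛ x y α β ω τ Δ l c s d q a h hΔ ha hq ι f hb B hB => ?_⟩
  have hC0 : 0 < C₀ := by linarith
  have hΛ1 : 2 * C₀ ≤ Λ := (le_max_left _ _).trans hΛ
  have hΛ2 : 4 ≤ Λ * η := by
    have := (le_max_right _ _).trans hΛ
    rwa [div_le_iff₀ hη] at this
  have hΛ0 : 0 < Λ := by linarith
  have ha0 : 0 < a := lt_of_lt_of_le (by positivity) ha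
  have hΛa : 2 ≤ Λ * a := by
    have h1 : 2 * C₀ * (1 / C₀) ≤ Λ * a := mul_le_mul hΛ1 ha (by positivity) hΛ0.le
    rwa [mul_assoc, mul_one_div_cancel hC0.ne', mul_one] at h1
  have hexp2 : (5 : ℝ) ≤ Real.exp 2 := by
    have h1 := Real.quadratic_le_exp_of_nonneg (by norm_num : (0 : ℝ) ≤ 2)
    norm_num at h1
    exact h1
  have hexp4 : (20 : ℝ) ≤ Real.exp 4 := by
    have h1 : Real.exp 4 = Real.exp 2 * Real.exp 2 := by
      rw [← Real.exp_add]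
      norm_num
    rw [h1]
    nlinarith
  have hη4 : (20 : ℝ) ≤ Real.exp (Λ * η) := hexp4.trans (Real.exp_le_exp.2 hΛ2)
  have hρ : Real.exp (-(Λ * a)) ≤ 1 / 5 := by
    rw [Real.exp_neg, inv_le_comm₀ (Real.exp_pos _) (by norm_num)]
    refine le_trans ?_ (Real.exp_le_exp.2 hΛa)
    norm_num
    exact hexp2
  have hS : 0 < Real.exp (Λ * s) := Real.exp_pos _
  have hQ : 0 < Real.exp (Λ * q) := Real.exp_pos _
  have hα : (0 : ℝ) < α := by exact_mod_cast (lt_of_lt_of_le one_pos h.hα)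
  have hτ := h.hτ
  have hΔ0 : 0 < Δ := lt_of_lt_of_le (by norm_num) h.hΔ
  -- facts for a point
  have hd2 : ∀ i, Real.exp (Λ * s) / 10 ≤ cd2 α ω τ (f i).1 (f i).2.1 := fun i => (hb i).d1
  have hd2' : ∀ i, cd2 α ω τ (f i).1 (f i).2.1 ≤ 10 * Real.exp (Λ * s) := fun i => (hb i).d2
  have hd0 : ∀ i, 0 < cd2 α ω τ (f i).1 (f i).2.1 := fun i => lt_of_lt_of_le (by positivity) (hd2 i)
  have hx1 : ∀ i, Real.exp (Λ * q) ≤ |cxi ω τ (f i).2.2.1 (f i).2.2.2| := fun i => (hb i).xi1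
  have hx0 : ∀ i, cxi ω τ (f i).2.2.1 (f i).2.2.2 ≠ 0 := fun i =>
    abs_pos.1 (lt_of_lt_of_le hQ (hx1 i))
  have hr : ∀ i, |cr ω τ (f i).2.2.1 (f i).2.2.2| ≤ Real.exp (-(Λ * a)) := fun i => by
    unfold cr
    rw [abs_div, div_le_iff₀ (lt_of_lt_of_le hQ (hx1 i))]
    exact (hb i).rr
  have hpa : ∀ i, 1 / 2 ≤ pa l c (cr ω τ (f i).2.2.1 (f i).2.2.2) := fun i =>
    pa_ge h.hl h.hc ((hr i).trans hρ)
  have hpa0 : ∀ i, pa l c (cr ω τ (f i).2.2.1 (f i).2.2.2) ≠ 0 := fun i =>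
    (lt_of_lt_of_le (by norm_num) (hpa i)).ne'
  have k1 : ∀ i, cd2 α ω τ (f i).1 (f i).2.1 / pa l c (cr ω τ (f i).2.2.1 (f i).2.2.2) *
      at2 (cr ω τ (f i).2.2.1 (f i).2.2.2) (cz α ω τ l c (f i).1 (f i).2.1 (f i).2.2.1 (f i).2.2.2)
        (U1 l c) = cd1 α τ (f i).1 := fun i => by
    rw [at2_U1]
    unfold cz
    have := hpa0 i
    have := (hd0 i).ne'
    field_simp
    ring
  have k2 : ∀ i, cd2 α ω τ (f i).1 (f i).2.1 / pa l c (cr ω τ (f i).2.2.1 (f i).2.2.2) *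
      at2 (cr ω τ (f i).2.2.1 (f i).2.2.2) (cz α ω τ l c (f i).1 (f i).2.1 (f i).2.2.1 (f i).2.2.2)
        (U2 l c) = cd2 α ω τ (f i).1 (f i).2.1 := fun i => by
    rw [at2_U2, div_mul_cancel₀ _ (hpa0 i)]
  have k3 : ∀ i, cxi ω τ (f i).2.2.1 (f i).2.2.2 * cr ω τ (f i).2.2.1 (f i).2.2.2 =
      cup τ (f i).2.2.2 := fun i => by
    unfold cr
    rw [mul_div_cancel₀ _ (hx0 i)]
  refine
    { uni := frm_uni hα.ne' hτ.ne'
      n1 := (n_U1 h.hc).trans (by linarith)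
      n2 := (n_U2 h.hl h.hc).trans hB
      t1 := td_U1 l c
      t2 := td_U2 l c
      ρ0 := Real.exp_pos _
      ρ1 := hρ.trans (by norm_num)
      γ0 := Real.exp_pos _
      γ1 := ?_
      hκ := fun i => ?_
      hθ := fun i => ?_
      hr := hr
      hz := fun i => ?_
      hs := fun i => ?_
      ht := fun i => ?_
      hu := fun i => ?_
      hv := fun i => ?_ }
  · rw [Real.exp_le_one_iff, neg_nonpos]
    exact mul_nonneg hΛ0.le (by linarith)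
  · show |cd2 α ω τ (f i).1 (f i).2.1 / pa l c (cr ω τ (f i).2.2.1 (f i).2.2.2)| ≤ _
    have hp := hpa i
    rw [abs_of_nonneg (div_nonneg (hd0 i).le (by linarith)), div_le_iff₀ (by linarith), mul_add,
      Real.exp_add]
    have h1 := hd2' i
    have h2 : Real.exp (Λ * s) * 20 * (1 / 2) ≤ Real.exp (Λ * s) * Real.exp (Λ * η) *
        pa l c (cr ω τ (f i).2.2.1 (f i).2.2.2) :=
      mul_le_mul (mul_le_mul_of_nonneg_left hη4 hS.le) hp (by norm_num) (by positivity)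
    linarith
  · show |cxi ω τ (f i).2.2.1 (f i).2.2.2| ≤ _
    refine (hb i).xi2.trans ?_
    rw [mul_add, Real.exp_add, mul_comm 2]
    exact mul_le_mul_of_nonneg_left (by linarith) hQ.le
  · show |cz α ω τ l c (f i).1 (f i).2.1 (f i).2.2.1 (f i).2.2.2| ≤ _
    have hx4 : Real.exp (Λ * q) ^ 4 ≤ cxi ω τ (f i).2.2.1 (f i).2.2.2 ^ 4 := by
      have h5 := pow_le_pow_left₀ hQ.le (hx1 i) 4
      rwa [← abs_pow, abs_of_nonneg (by positivity)] at h5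
    have hd := hd0 i
    have hxp : 0 < cxi ω τ (f i).2.2.1 (f i).2.2.2 ^ 4 := lt_of_lt_of_le (by positivity) hx4
    rw [cz_eq h hρ hS hQ (hb i), abs_of_nonneg (by positivity), div_le_iff₀ (by positivity)]
    have e1 : Real.exp (-(Λ * (4 * q + s + d - η))) * (Real.exp (Λ * d) * Real.exp (Λ * s) *
        Real.exp (Λ * q) ^ 4) = Real.exp (Λ * η) := by
      rw [← Real.exp_nat_mul, ← Real.exp_add, ← Real.exp_add, ← Real.exp_add]
      congr 1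
      push_cast
      ring
    have e2 : Real.exp (Λ * d) * (Real.exp (Λ * s) / 10) * Real.exp (Λ * q) ^ 4 ≤
        Δ * cd2 α ω τ (f i).1 (f i).2.1 * cxi ω τ (f i).2.2.1 (f i).2.2.2 ^ 4 := by
      refine mul_le_mul (mul_le_mul hΔ (hd2 i) (by positivity) hΔ0.le) hx4 (by positivity) ?_
      positivity
    have e3 := mul_le_mul_of_nonneg_left e2
      (Real.exp_pos (-(Λ * (4 * q + s + d - η)))).le
    nlinarith
  · show (((f i).1 : ℤ) : ℝ) = 3 * α / τ * (_ * at2 _ _ (U1 l c))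
    rw [k1]
    unfold cd1
    field_simp
  · show (((f i).2.1 : ℤ) : ℝ) = 6 * ω / (α * τ) * (_ * at2 _ _ (U1 l c)) +
      3 * τ / α * (_ * at2 _ _ (U2 l c))
    rw [k1, k2]
    unfold cd1 cd2
    field_simp
    ring
  · show (((f i).2.2.1 : ℤ) : ℝ) = τ * cxi ω τ (f i).2.2.1 (f i).2.2.2 + -ω / τ *
      (cxi ω τ (f i).2.2.1 (f i).2.2.2 * cr ω τ (f i).2.2.1 (f i).2.2.2)
    rw [k3]
    unfold cxi cup
    field_simp
    ring
  · show (((f i).2.2.2 : ℤ) : ℝ) = 1 / τ *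
      (cxi ω τ (f i).2.2.1 (f i).2.2.2 * cr ω τ (f i).2.2.1 (f i).2.2.2)
    rw [k3]
    unfold cup
    field_simp

end Pool.Agent.Work.MP_f2148a_nt.M56.H
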