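import Pool.Agent.Work.MP_f2148a_nt.M56.H.Defs

set_option autoImplicit false

/-!
# H/Use (helper68): from the numerical condition with margin `ε` to the hypothesis of `LD.fin`
-/

namespace Pool.Agent.Work.MP_f2148a_nt.M56.H

/-- an endpoint is at least as good as any point for a linear function -/
theorem endpoint {s q : ℝ} {m n : ℕ} (hm : 1 ≤ m) (hn : 1 ≤ n) {al be : ℝ} (h1 : 0 ≤ al)
    (h2 : 0 ≤ be) (h3 : n * al + m * be = 1) :
    ∃ al' be' : ℝ, 0 ≤ al' ∧ 0 ≤ be' ∧ n * al' + m * be' = 1 ∧ al' * be' = 0 ∧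
      al' * s + be' * q ≤ al * s + be * q := by
  have hm' : (0 : ℝ) < m := by exact_mod_cast hm
  have hn' : (0 : ℝ) < n := by exact_mod_cast hn
  by_cases h : s * m ≤ q * n
  · refine ⟨1 / n, 0, by positivity, le_rfl, ?_, by ring, ?_⟩
    · field_simp
      ring
    · have e : 1 / (n : ℝ) = al + m * be / n := by
        field_simp
        linarith
      rw [e]
      have : m * be / n * s ≤ be * q := by
        rw [div_mul_eq_mul_div, div_le_iff₀ hn']
        nlinarith
      nlinarith
  · push Not at h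
    refine ⟨0, 1 / m, le_rfl, by positivity, ?_, by ring, ?_⟩
    · field_simp
      ring
    · have e : 1 / (m : ℝ) = be + n * al / m := by
        field_simp
        linarith
      rw [e]
      have : n * al / m * q ≤ al * s := by
        rw [div_mul_eq_mul_div, div_le_iff₀ hm']
        nlinarith
      nlinarith

/-- From the condition with margin `ε` to the hypothesis of `LD.fin`, for all real heights. -/
theorem ineq_use (ε M δ : ℝ) (hε : 0 < ε) (hM : 1 ≤ M) (hδ : 0 < δ) : ∃ η μ : ℝ, 0 < η ∧ 0 < μ ∧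
    η ≤ δ ∧ ∀ (s q a b om w h : ℝ) (m n : ℕ), 1 ≤ m → 1 ≤ n → 0 ≤ s → s ≤ M → 0 ≤ q → q ≤ M →
      0 ≤ a → a ≤ M → 0 ≤ b → b ≤ M → 0 ≤ om → om ≤ M → |w| ≤ M → |h| ≤ M → 1 / M ≤ a * b →
      Ineq ε s q a b om w (max h 0) m n →
      ∃ al be : ℝ, 0 ≤ al ∧ 0 ≤ be ∧ n * al + m * be = 1 ∧
        max (w + η) η * (2 * (al * (s + η) + be * (q + η)) - 2 * h * al * be - om) + μ ≤
          a * (b - η) := by
  -- constants
  set X := 6 * M + 4 with hX
  have hX0 : 0 < X := by positivity
  obtain ⟨η, hη0, hη1, hη3, hη4⟩ : ∃ η : ℝ, 0 < η ∧ η ≤ δ ∧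
      η * (X + 4 * M + M + 4) ≤ ε / 2 ∧ η * (X + 4 + M) ≤ 1 / (2 * M) := by
    refine ⟨min δ (min (ε / (2 * (X + 4 * M + M + 4))) (1 / (2 * M) / (X + 4 + M))), ?_, ?_,
      ?_, ?_⟩
    · positivity
    · exact min_le_left _ _
    · have h1 : min δ (min (ε / (2 * (X + 4 * M + M + 4))) (1 / (2 * M) / (X + 4 + M))) ≤
          ε / (2 * (X + 4 * M + M + 4)) := (min_le_right _ _).trans (min_le_left _ _)
      refine (mul_le_mul_of_nonneg_right h1 (by positivity)).trans (le_of_eq ?_)
      have : X + 4 * M + M + 4 ≠ 0 := by positivity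
      field_simp
    · have h1 : min δ (min (ε / (2 * (X + 4 * M + M + 4))) (1 / (2 * M) / (X + 4 + M))) ≤
          1 / (2 * M) / (X + 4 + M) := (min_le_right _ _).trans (min_le_right _ _)
      refine (mul_le_mul_of_nonneg_right h1 (by positivity)).trans (le_of_eq ?_)
      have : X + 4 + M ≠ 0 := by positivity
      field_simp
  refine ⟨η, min (ε / 2) (1 / (2 * M)), hη0, by positivity, hη1, ?_⟩
  intro s q a b om w h m n hm hn hs0 hs hq0 hq ha0 ha hb0 hb ho0 ho hw hh hab hI
  obtain ⟨al, be, hal, hbe, hab1, hI⟩ := hI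
  have hm' : (1 : ℝ) ≤ m := by exact_mod_cast hm
  have hn' : (1 : ℝ) ≤ n := by exact_mod_cast hn
  -- choose the exponents
  obtain ⟨al', be', hal', hbe', hab2, hle⟩ : ∃ al' be' : ℝ, 0 ≤ al' ∧ 0 ≤ be' ∧
      n * al' + m * be' = 1 ∧ 2 * (al' * s + be' * q) - 2 * h * al' * be' ≤
        2 * (al * s + be * q) - 2 * max h 0 * al * be := by
    by_cases hh0 : 0 ≤ h
    · exact ⟨al, be, hal, hbe, hab1, by rw [max_eq_left hh0]⟩
    · push Not at hh0
      obtain ⟨al', be', h1, h2, h3, h4, h5⟩ := endpoint (s := s) (q := q) hm hn hal hbe hab1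
      refine ⟨al', be', h1, h2, h3, ?_⟩
      rw [max_eq_right hh0.le]
      have : 2 * h * al' * be' = 0 := by
        rw [mul_assoc, h4, mul_zero]
      rw [this]
      linarith
  refine ⟨al', be', hal', hbe', hab2, ?_⟩
  have hal1 : al' ≤ 1 := by nlinarith
  have hbe1 : be' ≤ 1 := by nlinarith
  set x := 2 * (al' * s + be' * q) - 2 * h * al' * be' - om with hx
  set x' := 2 * (al' * (s + η) + be' * (q + η)) - 2 * h * al' * be' - om with hx'
  have e1 : x' = x + 2 * (al' + be') * η := by rw [hx, hx']; ring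
  have hxx : x' ≤ x + 4 * η := by
    rw [e1]
    nlinarith
  have hxX : x ≤ X := by
    have h1 : al' * s ≤ M := by nlinarith
    have h2 : be' * q ≤ M := by nlinarith
    have h3 : |2 * h * al' * be'| ≤ 2 * M := by
      rw [abs_mul, abs_mul, abs_mul, abs_of_nonneg hal', abs_of_nonneg hbe', abs_two]
      have h4 : al' * be' ≤ 1 := by nlinarith
      have h5 : 0 ≤ al' * be' := by positivity
      calc 2 * |h| * al' * be' = 2 * |h| * (al' * be') := by ring
        _ ≤ 2 * M * 1 := by
            apply mul_le_mul _ h4 h5 (by positivity)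
            linarith
        _ = 2 * M := by ring
    have h4 := neg_abs_le (2 * h * al' * be')
    rw [hx, hX]
    linarith
  have hη5 : η ≤ 1 := by
    have h1 : η * (X + 4 + M) ≤ 1 / (2 * M) := hη4
    have h2 : 1 / (2 * M) ≤ 1 := by
      rw [div_le_one (by positivity)]
      linarith
    nlinarith
  have hx'X : x' ≤ X + 4 := by linarith
  have hab3 : a * η ≤ M * η := mul_le_mul_of_nonneg_right ha hη0.le
  have hη3' : η * (X + 4 * M + M + 4) = η * (X + 4) + 4 * (M * η) + M * η := by ring
  have hη4' : η * (X + 4 + M) = η * (X + 4) + M * η := by ring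
  rw [hη3'] at hη3
  rw [hη4'] at hη4
  have h3 : 1 / M = 1 / (2 * M) + 1 / (2 * M) := by
    field_simp
    ring
  have hηx : η * x' ≤ η * (X + 4) := mul_le_mul_of_nonneg_left hx'X hη0.le
  have hMη : 0 ≤ M * η := by positivity
  rcases le_total 0 w with hw0 | hw0
  · rw [max_eq_left (by linarith)]
    have h4 : w * x + ε ≤ a * b := by
      have : x ≤ 2 * (al * s + be * q) - 2 * max h 0 * al * be - om := by
        rw [hx]
        linarith
      have h5 := mul_le_mul_of_nonneg_left this hw0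
      linarith
    have h5 : w * x' ≤ w * x + w * (4 * η) := by
      rw [← mul_add]
      exact mul_le_mul_of_nonneg_left hxx hw0
    have h6 : w * (4 * η) ≤ M * (4 * η) :=
      mul_le_mul_of_nonneg_right ((le_abs_self w).trans hw) (by positivity)
    have h7 : min (ε / 2) (1 / (2 * M)) ≤ ε / 2 := min_le_left _ _
    have e2 : (w + η) * x' = w * x' + η * x' := by ring
    have e3 : a * (b - η) = a * b - a * η := by ring
    rw [e2, e3]
    linarith
  · rw [max_eq_right (by linarith)]
    have h7 : min (ε / 2) (1 / (2 * M)) ≤ 1 / (2 * M) := min_le_right _ _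
    have e3 : a * (b - η) = a * b - a * η := by ring
    rw [e3]
    linarith

end Pool.Agent.Work.MP_f2148a_nt.M56.H
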