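import Pool.Agent.Work.MP_f2148a_nt.M56.H.Htb
import Pool.Agent.Work.MP_f2148a_nt.M56.H.Use
import Pool.Agent.Work.MP_f2148a_nt.M56.H.Ctc
import Pool.Agent.Work.MP_f2148a_nt.M56.LD.Fin

set_option autoImplicit false

/-!
# H/Fib (helper68): boundedly many points of a box on a curve in one nonsingular residue class
-/

namespace Pool.Agent.Work.MP_f2148a_nt.M56.H

open G4 G3 LD Polynomial

private theorem large (c η : ℝ) (hη : 0 < η) : ∃ Λ₀ : ℝ, ∀ Λ : ℝ, Λ₀ ≤ Λ →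
    c ≤ Real.exp (Λ * η) := by
  refine ⟨c / η, fun Λ hΛ => ?_⟩
  rw [div_le_iff₀ hη] at hΛ
  have := Real.add_one_le_exp (Λ * η)
  linarith

theorem fib (ε C₀ C₂ : ℝ) (hε : 0 < ε) (hC : 1 ≤ C₀) (J : ℕ) : ∃ (η : ℝ) (J' : ℕ) (Λ₀ : ℝ),
    0 < η ∧ η ≤ ε ∧ ∀ Λ : ℝ, Λ₀ ≤ Λ →
    ∀ (x y α β : ℤ) (ω τ Δ l c s d q a t om : ℝ), Par C₀ Λ x y α β ω τ Δ l c s d q a t om →
      (1 / 10 ≤ a - t → |l| = 1) → Cond ε s d q a t om →
    ∀ m n : ℕ, 1 ≤ m → 2 ≤ n → m ≤ J → n ≤ J → ∀ g : ℤ[X][X], Irr m n g →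
    ∀ (ι : Type) [Fintype ι] (f : ι → ℤ × ℤ × ℤ × ℤ), Fam x y α β ω τ (Real.exp (-(Λ * a)))
        (Real.exp (Λ * s)) (Real.exp (Λ * q)) f →
      (∀ i, ev m n g (f i).1 (f i).2.1 (f i).2.2.1 (f i).2.2.2 = 0) →
    ∀ p : ℕ, (pts f).Dv p → Real.exp (Λ * om) ≤ p →
      ht (cf (rl (frm α ω τ) m n g) : E m n → ℝ) ≤ Real.exp (Λ * C₂) →
      1 ≤ up Δ (Real.exp (Λ * s)) (Real.exp (Λ * q)) c (Real.exp (-(Λ * a)))
        (Real.exp (-(Λ * (4 * q + s + d - η)))) m n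
        (nrm (Real.exp (-(Λ * a))) (Real.exp (-(Λ * (4 * q + s + d - η))))
          (psi (U1 l c) (U2 l c) m n (rl (frm α ω τ) m n g))) →
      Fintype.card ι ≤ J' := by
  -- bounds
  have hJ0 : (0 : ℝ) ≤ J := Nat.cast_nonneg J
  set CW : ℝ := 5 * C₀ + 2 * J * C₀ + ε + 3 with hCW
  have hCW0 : 0 ≤ CW := by positivity
  set Ch : ℝ := max C₂ 0 + CW + 1 with hCh
  have hCh0 : 0 ≤ Ch := by positivity
  have hCWε : ε ≤ CW := by
    have : 0 ≤ 2 * (J : ℝ) * C₀ := by positivity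
    rw [hCW]
    linarith
  have hChCW : CW + 1 ≤ Ch := by
    have := le_max_right C₂ 0
    rw [hCh]
    linarith
  set M : ℝ := C₀ ^ 2 + 14 * C₀ + CW + Ch + 1 with hM
  have hCsq : C₀ ≤ C₀ ^ 2 := by nlinarith
  have hM1 : 1 ≤ M := by rw [hM]; linarith
  have hMC : C₀ ≤ M := by rw [hM]; linarith
  obtain ⟨η, μ, hη, hμ, hηε, huse⟩ := ineq_use ε M ε hε hM1 hε
  obtain ⟨Λ₁, hdat⟩ := dat C₀ η hC hη
  obtain ⟨Λ₂, hΛ₂, hup⟩ := up_le C₀ η hη J
  obtain ⟨c₁, hc₁, hctc⟩ := ctc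
  obtain ⟨Λ₃, h3⟩ := large (12 ^ J) 1 one_pos
  obtain ⟨Λ₄, h4⟩ := large (1 / c₁) (1 / 10) (by norm_num)
  obtain ⟨Λ₅, h5⟩ := large (1 / c₁) η hη
  set B : ℝ := M + ε + 1 / η + 12 + J with hB
  have hBη : 0 < 1 / η := by positivity
  obtain ⟨J', Λ₆, hfin⟩ := fin B μ hμ 4
  refine ⟨η, J', max (max (max Λ₁ Λ₂) (max Λ₃ Λ₄)) (max (max Λ₅ Λ₆) 1), hη, hηε, ?_⟩
  intro Λ hΛ x y α β ω τ Δ l c s d q a t om hp hl1 hcond m n hm hn hmJ hnJ g hg ι _ f hf h0 p hdv
    hop hht hup1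
  have hΛ1 : Λ₁ ≤ Λ := (le_trans (by simp) hΛ)
  have hΛ2 : Λ₂ ≤ Λ := (le_trans (by simp) hΛ)
  have hΛ3 : Λ₃ ≤ Λ := (le_trans (by simp) hΛ)
  have hΛ4 : Λ₄ ≤ Λ := (le_trans (by simp) hΛ)
  have hΛ5 : Λ₅ ≤ Λ := (le_trans (by simp) hΛ)
  have hΛ6 : Λ₆ ≤ Λ := (le_trans (by simp) hΛ)
  have hΛ7 : 1 ≤ Λ := (le_trans (by simp) hΛ)
  have hΛ0 : 0 < Λ := by linarith
  have hC0 : 0 < 1 / C₀ := by positivity
  have hC00 : 0 < C₀ := by linarith
  have hs0 : 0 ≤ s := hC0.le.trans hp.s1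
  have hq0 : 0 ≤ q := hC0.le.trans hp.q1
  have ha0 : 0 ≤ a := hC0.le.trans hp.a1
  have ho0 : 0 ≤ om := hC0.le.trans hp.om1
  set b : ℝ := 4 * q + s + d with hb
  have hab : a + ε ≤ b := hcond.h3
  have hmR : (1 : ℝ) ≤ m := by exact_mod_cast hm
  have hnR : (1 : ℝ) ≤ n := by exact_mod_cast (by omega : 1 ≤ n)
  have hmJ' : (m : ℝ) ≤ J := by exact_mod_cast hmJ
  have hnJ' : (n : ℝ) ≤ J := by exact_mod_cast hnJ
  have hms : (m : ℝ) * s ≤ J * C₀ := mul_le_mul hmJ' hp.s2 hs0 hJ0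
  have hnq : (n : ℝ) * q ≤ J * C₀ := mul_le_mul hnJ' hp.q2 hq0 hJ0
  have hms0 : 0 ≤ (m : ℝ) * s := by positivity
  have hnq0 : 0 ≤ (n : ℝ) * q := by positivity
  -- the real data
  have hdt := hdat Λ hΛ1 x y α β ω τ Δ l c s d q a hp.rf hp.Δ1 hp.a1 (by linarith) ι f hf.bx B
    (by rw [hB]; linarith)
  set ρ : ℝ := Real.exp (-(Λ * a)) with hρ
  set γ : ℝ := Real.exp (-(Λ * (b - η))) with hγ
  have hρ0 : 0 < ρ := Real.exp_pos _
  have hγ0 : 0 < γ := Real.exp_pos _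
  have hρ1 : ρ ≤ 1 := by
    rw [hρ, Real.exp_le_one_iff, neg_nonpos]
    positivity
  have hγ1 : γ ≤ 1 := by
    rw [hγ, Real.exp_le_one_iff, neg_nonpos]
    exact mul_nonneg hΛ0.le (by linarith)
  set ν : ℝ := nrm ρ γ (psi (U1 l c) (U2 l c) m n (rl (frm α ω τ) m n g)) with hν
  have hν0 : 0 ≤ ν := nrm_nonneg hρ0.le hγ0.le _
  set H : ℝ := ht (cf (rl (frm α ω τ) m n g) : E m n → ℝ) with hH
  set W : ℝ := 3 * d + s + t + m * s + n * q + η with hW
  have hWle : W ≤ CW := by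
    have := hp.d2
    have := hp.s2
    have := hp.t2
    rw [hW, hCW]
    linarith
  have hWge : -CW ≤ W := by
    have := hp.d1
    have := hp.t1
    have : 0 ≤ J * C₀ := by positivity
    rw [hW, hCW]
    linarith
  have h6 := hup Λ hΛ2 x y α β ω τ Δ l c s d q a t om hp (by linarith) m n hmJ hnJ ν hν0
  have h7 : 1 ≤ Real.exp (Λ * W) * ν := hup1.trans h6
  have h8 : Real.exp (-(Λ * W)) ≤ ν := by
    rw [Real.exp_neg, inv_le_iff_one_le_mul₀ (Real.exp_pos _), mul_comm]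
    exact h7
  have h9 : ν ≤ 12 ^ J * H := by
    have h10 : ν ≤ 12 ^ m * H := nrm_psi_le hρ0.le hγ0.le hρ1 hγ1 (by norm_num)
      (nrm_U1 hp.rf.hc) (nrm_U2 hp.rf.hl hp.rf.hc) m n _
    have hH0 : 0 ≤ H := by
      rw [hH]
      unfold ht
      positivity
    exact h10.trans (mul_le_mul_of_nonneg_right
      (pow_le_pow_right₀ (by norm_num) hmJ) hH0)
  have hHlow : Real.exp (-(Λ * (CW + 1))) ≤ H := by
    have h10 : Real.exp (-(Λ * W)) ≤ Real.exp (Λ * 1) * H :=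
      (h8.trans h9).trans (mul_le_mul_of_nonneg_right (h3 Λ hΛ3) (by
        rw [hH]
        unfold ht
        positivity))
    have h11 : Real.exp (-(Λ * (CW + 1))) ≤ Real.exp (-(Λ * 1)) * Real.exp (-(Λ * W)) := by
      rw [← Real.exp_add, Real.exp_le_exp]
      have h12 := mul_le_mul_of_nonneg_left hWle hΛ0.le
      linarith
    refine h11.trans ?_
    calc Real.exp (-(Λ * 1)) * Real.exp (-(Λ * W)) ≤
          Real.exp (-(Λ * 1)) * (Real.exp (Λ * 1) * H) :=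
          mul_le_mul_of_nonneg_left h10 (Real.exp_pos _).le
      _ = H := by
          rw [← mul_assoc, ← Real.exp_add, neg_add_cancel, Real.exp_zero, one_mul]
  have hHpos : 0 < H := (Real.exp_pos _).trans_le hHlow
  set h : ℝ := Real.log H / Λ with hh
  have hΛh : Λ * h = Real.log H := by
    rw [hh]
    field_simp
  have hexp : Real.exp (Λ * h) = H := by
    rw [hΛh, Real.exp_log hHpos]
  have hh1 : h ≤ Ch := by
    have h10 : Λ * h ≤ Λ * C₂ := by
      rw [hΛh]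
      exact (Real.log_le_iff_le_exp hHpos).2 hht
    have h11 := le_of_mul_le_mul_left h10 hΛ0
    have h12 := le_max_left C₂ 0
    rw [hCh]
    linarith
  have hh2 : -Ch ≤ h := by
    have h10 : Λ * (-(CW + 1)) ≤ Λ * h := by
      rw [hΛh, Real.le_log_iff_exp_le hHpos]
      have e : Λ * (-(CW + 1)) = -(Λ * (CW + 1)) := by ring
      rw [e]
      exact hHlow
    have h11 := le_of_mul_le_mul_left h10 hΛ0
    have h12 := le_max_right C₂ 0
    rw [hCh]
    linarith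
  have hhabs : |h| ≤ Ch := abs_le.2 ⟨hh2, hh1⟩
  have hmx : max h 0 ≤ Ch := max_le hh1 hCh0
  have hmx0 : 0 ≤ max h 0 := le_max_right _ _
  have hinvM : 1 / M ≤ a * b := by
    have h10 : 1 / C₀ * (1 / C₀) ≤ a * b :=
      mul_le_mul hp.a1 (by linarith [hp.a1]) hC0.le ha0
    refine le_trans ?_ h10
    rw [div_mul_div_comm, one_mul, one_div_le_one_div (by linarith) (by positivity), ← pow_two,
      hM]
    linarith
  have hM14 : CW + Ch + 1 + 14 * C₀ ≤ M := by rw [hM]; linarith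
  have hChM : Ch ≤ M := by linarith
  have hBM : M + ε + 12 ≤ B := by rw [hB]; linarith
  have hbM : b ≤ M := by
    have := hp.q2
    have := hp.s2
    have := hp.d2
    rw [hb]
    linarith
  have hb0 : 0 ≤ b := by linarith
  have hmB : (m : ℝ) ≤ B := by rw [hB]; linarith
  have hnB : (n : ℝ) ≤ B := by rw [hB]; linarith
  have hMB : M ≤ B := by rw [hB]; linarith
  have hCB : C₀ ≤ B := hMC.trans hMB
  have hBpos : 0 < B := by linarith
  have h1B : 1 / B ≤ 1 / C₀ := one_div_le_one_div_of_le hC00 hCB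
  have hBηle : 1 / B ≤ η := by
    rw [div_le_iff₀ hBpos]
    have h10 : η * (1 / η) = 1 := by field_simp
    have h11 : 1 / η ≤ B := by rw [hB]; linarith
    rw [← h10]
    exact mul_le_mul_of_nonneg_left h11 hη.le
  -- the final step for a given w
  have key : ∀ w : ℝ, |w| ≤ M → Ineq ε s q a b om w (max h 0) m n →
      Real.exp (Λ * (h - max (w + η) η)) ≤ ν → w + η ≤ B → Fintype.card ι ≤ J' := by
    intro w hw hI hle hwB
    obtain ⟨al, be, hal, hbe, hab1, hineq⟩ := huse s q a b om w h m n hm (by omega) hs0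
      (hp.s2.trans hMC) hq0 (hp.q2.trans hMC) ha0 (hp.a2.trans hMC) hb0 hbM ho0
      (hp.om2.trans hMC) hw (hhabs.trans hChM) hinvM hI
    refine hfin Λ hΛ6 m n hm (by omega) hmB hnB a (b - η) (max (w + η) η) (s + η) (q + η) h om
      al be (h1B.trans hp.a1) (hp.a2.trans hCB) ?_ ?_ ?_ ?_ ?_ ?_ ?_ ho0 (hp.om2.trans hCB) hal
      hbe hab1 hineq (frm α ω τ) g hg ι (pts f) (hf.on h0) p hdv hop (U1 l c) (U2 l c) _ _ _ _ hdt
      hexp.symm hle
    · exact h1B.trans (by linarith [hp.a1])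
    · linarith
    · exact hBηle.trans (le_max_right _ _)
    · refine max_le hwB ?_
      linarith
    · rw [abs_of_nonneg (by linarith)]
      have := hp.s2
      linarith
    · rw [abs_of_nonneg (by linarith)]
      have := hp.q2
      linarith
    · exact hhabs.trans (hChM.trans hMB)
  rcases hcond.h2 m n hm hn (max h 0) hmx0 with hI | ⟨hat, hn2, hm4, hI⟩
  · refine key _ ?_ hI ?_ ?_
    · rw [abs_le]
      have e : 3 * d + s + t + m * s + n * q + max h 0 = W - η + max h 0 := by rw [hW]; ring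
      rw [e]
      constructor <;> linarith
    · refine le_trans (Real.exp_le_exp.2 ?_) h8
      have h10 : h - max (3 * d + s + t + m * s + n * q + max h 0 + η) η ≤ -W := by
        have h11 := le_max_left (3 * d + s + t + m * s + n * q + max h 0 + η) η
        have h12 := le_max_left h 0
        rw [hW]
        linarith
      have := mul_le_mul_of_nonneg_left h10 hΛ0.le
      linarith
    · have e : 3 * d + s + t + m * s + n * q + max h 0 + η = W + max h 0 := by rw [hW]; ring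
      rw [e]
      refine le_trans ?_ hMB
      linarith
  · subst hn2
    have hl := hl1 hat
    refine key _ ?_ hI ?_ ?_
    · rw [abs_of_nonneg (by positivity)]
      have := hp.a2
      linarith
    · have hc : |c| ≤ c₁ := by
        refine hp.c1.trans ?_
        have h10 : Real.exp (Λ * (t - a)) ≤ Real.exp (-(Λ * (1 / 10))) := by
          rw [Real.exp_le_exp]
          have := mul_le_mul_of_nonneg_left hat hΛ0.le
          linarith
        refine h10.trans ?_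
        rw [Real.exp_neg, inv_le_comm₀ (Real.exp_pos _) hc₁, ← one_div]
        exact h4 Λ hΛ4
      have h10 := hctc l c ρ γ hl hc hρ0 hρ1 hγ0.le m hm4 (rl (frm α ω τ) m 2 g)
      refine le_trans ?_ h10
      rw [← hH, ← hexp]
      have h11 : Real.exp (-(Λ * η)) ≤ c₁ := by
        rw [Real.exp_neg, inv_le_comm₀ (Real.exp_pos _) hc₁, ← one_div]
        exact h5 Λ hΛ5
      have h12 : ρ ^ 14 = Real.exp (-(Λ * (14 * a))) := by
        rw [hρ, ← Real.exp_nat_mul]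
        congr 1
        push_cast
        ring
      rw [h12]
      have h13 : Real.exp (Λ * (h - max (14 * a + η) η)) ≤ Real.exp (-(Λ * η)) *
          Real.exp (-(Λ * (14 * a))) * Real.exp (Λ * h) := by
        rw [← Real.exp_add, ← Real.exp_add, Real.exp_le_exp]
        have h14 := le_max_left (14 * a + η) η
        have := mul_le_mul_of_nonneg_left h14 hΛ0.le
        linarith
      refine h13.trans ?_
      gcongr
    · have := hp.a2
      linarith

end Pool.Agent.Work.MP_f2148a_nt.M56.H
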