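import Pool.Agent.Work.MP_f2148a_nt.M56.H.Defs
import Pool.Agent.Work.MP_f2148a_nt.M56.G3.B1a

set_option autoImplicit false

/-!
# Bounded range (helper68): the real coordinates of the points of a box
-/

namespace Pool.Agent.Work.MP_f2148a_nt.M56.H

open G4 G3 LD

/-- `d₁` -/
noncomputable def cd1 (α : ℤ) (τ : ℝ) (s : ℤ) : ℝ := s * τ / (3 * α)

/-- `d₂` -/
noncomputable def cd2 (α : ℤ) (ω τ : ℝ) (s t : ℤ) : ℝ :=
  -(2 * ω * s) / (3 * α * τ) + t * α / (3 * τ)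

/-- `ξ` -/
noncomputable def cxi (ω τ : ℝ) (X Y : ℤ) : ℝ := ((X : ℝ) + ω * Y) / τ

/-- `υ` -/
noncomputable def cup (τ : ℝ) (Y : ℤ) : ℝ := τ * Y

/-- `r = υ/ξ` -/
noncomputable def cr (ω τ : ℝ) (X Y : ℤ) : ℝ := cup τ Y / cxi ω τ X Y

/-- `γ = d₁/d₂ p₁(r) + p₂(r)` -/
noncomputable def cz (α : ℤ) (ω τ l c : ℝ) (s t X Y : ℤ) : ℝ :=
  cd1 α τ s / cd2 α ω τ s t * pa l c (cr ω τ X Y) + pb l c (cr ω τ X Y)

/-- The frame identity. -/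
theorem F_eq {x y α β : ℤ} {ω τ Δ l c : ℝ} (h : Rf x y α β ω τ Δ l c) (s t X Y : ℤ) :
    ((3 * s * F0 x y X Y + t * G1 x y α β X Y : ℤ) : ℝ) =
      9 * Δ * (cd1 α τ s * (cxi ω τ X Y ^ 4 - 6 * l * cxi ω τ X Y ^ 2 * cup τ Y ^ 2
          - 2 * c * cxi ω τ X Y * cup τ Y ^ 3 - 3 * l ^ 2 * cup τ Y ^ 4) +
        cd2 α ω τ s t * (2 * cxi ω τ X Y ^ 3 * cup τ Y - c * cup τ Y ^ 4)) := by
  obtain ⟨hΔ, hω, hl, hc⟩ := of_dep h.hα h.hτ h.dep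
  have hα : (α : ℝ) ≠ 0 := by
    have := h.hα
    exact_mod_cast (by omega : α ≠ 0)
  have hτ := h.hτ.ne'
  have hl' : l = (x - ω ^ 2) / τ ^ 4 := by
    rw [eq_div_iff (by positivity)]
    exact hl
  have hc' : c = (2 * ω ^ 3 - 6 * x * ω - 4 * y) / τ ^ 6 := by
    rw [eq_div_iff (by positivity)]
    exact hc
  have hβ : (β : ℝ) = 3 * α * ω := by
    rw [hω]
    field_simp
  unfold F0 G1 cd1 cd2 cxi cup
  push_cast
  rw [hl', hc', hΔ, hβ]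
  field_simp
  ring

end Pool.Agent.Work.MP_f2148a_nt.M56.H
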