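import Pool.Agent.Work.MP_f2148a_nt.M56.H.Par
import Pool.Agent.Work.MP_f2148a_nt.M56.G3.Low

set_option autoImplicit false

/-!
# H/Upb (helper68): the bound `G3.up` in exponential form
-/

namespace Pool.Agent.Work.MP_f2148a_nt.M56.H

open G4 G3 LD Polynomial

theorem up_le (C₀ η : ℝ) (hη : 0 < η) (J : ℕ) : ∃ Λ₀ : ℝ, 0 < Λ₀ ∧ ∀ Λ : ℝ, Λ₀ ≤ Λ →
    ∀ (x y α β : ℤ) (ω τ Δ l c s d q a t om : ℝ), Par C₀ Λ x y α β ω τ Δ l c s d q a t om →
      a + η ≤ 4 * q + s + d → ∀ m n : ℕ, m ≤ J → n ≤ J → ∀ ν : ℝ, 0 ≤ ν →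
      up Δ (Real.exp (Λ * s)) (Real.exp (Λ * q)) c (Real.exp (-(Λ * a)))
        (Real.exp (-(Λ * (4 * q + s + d - η)))) m n ν ≤
        Real.exp (Λ * (3 * d + s + t + m * s + n * q + η)) * ν := by
  -- the constant
  set Cc : ℝ := 26244 * 8 * (10 ^ (J + 1) * 2 ^ J) * (2 ^ J * (918 * (4 * J + J))) with hCc
  have hCc0 : 0 ≤ Cc := by positivity
  refine ⟨max 1 (Real.log (Cc + 1) / η), by positivity, ?_⟩
  intro Λ hΛ x y α β ω τ Δ l c s d q a t om hp hab m n hm hn ν hν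
  have hΛ1 : 1 ≤ Λ := (le_max_left _ _).trans hΛ
  have hΛ0 : 0 ≤ Λ := by linarith
  have hΛ2 : Cc ≤ Real.exp (Λ * η) := by
    have h1 : Real.log (Cc + 1) ≤ Λ * η := by
      have := (le_max_right (1 : ℝ) _).trans hΛ
      rwa [div_le_iff₀ hη] at this
    calc Cc ≤ Cc + 1 := by linarith
      _ = Real.exp (Real.log (Cc + 1)) := (Real.exp_log (by positivity)).symm
      _ ≤ _ := Real.exp_le_exp.2 h1
  -- the cost
  have hcost : cost c (Real.exp (-(Λ * a))) (Real.exp (-(Λ * (4 * q + s + d - η)))) ≤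
      918 * Real.exp (Λ * t) := by
    unfold cost
    have e1 : Real.exp (Λ * (t - a)) / Real.exp (-(Λ * a)) = Real.exp (Λ * t) := by
      rw [← Real.exp_sub]
      congr 1
      ring
    have h1 : |c| / Real.exp (-(Λ * a)) ≤ Real.exp (Λ * t) := by
      rw [← e1]
      exact div_le_div_of_nonneg_right hp.c1 (Real.exp_pos _).le
    have h2 : Real.exp (-(Λ * (4 * q + s + d - η))) / Real.exp (-(Λ * a)) ≤ 1 := by
      rw [div_le_one (Real.exp_pos _), Real.exp_le_exp, neg_le_neg_iff]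
      exact mul_le_mul_of_nonneg_left (by linarith) hΛ0
    have h3 : 1 ≤ Real.exp (Λ * t) := Real.one_le_exp (mul_nonneg hΛ0 hp.t1)
    rw [add_div]
    linarith
  have hΔ0 : 0 ≤ Δ := (Real.exp_pos _).le.trans hp.Δ1
  have h1 : Δ ^ 3 ≤ 8 * Real.exp (Λ * (3 * d)) := by
    calc Δ ^ 3 ≤ (2 * Real.exp (Λ * d)) ^ 3 := pow_le_pow_left₀ hΔ0 hp.Δ2 3
      _ = 8 * Real.exp (Λ * (3 * d)) := by
          rw [mul_pow, ← Real.exp_nat_mul]
          norm_num
          ring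
  have h2 : (10 * Real.exp (Λ * s)) ^ (m + 1) ≤ 10 ^ (J + 1) * Real.exp (Λ * ((m + 1) * s)) := by
    rw [mul_pow, ← Real.exp_nat_mul]
    have e1 : ((m + 1 : ℕ) : ℝ) * (Λ * s) = Λ * ((m + 1) * s) := by push_cast; ring
    rw [e1]
    exact mul_le_mul_of_nonneg_right (pow_le_pow_right₀ (by norm_num) (by omega))
      (Real.exp_pos _).le
  have h3 : (2 * Real.exp (Λ * q)) ^ n ≤ 2 ^ J * Real.exp (Λ * (n * q)) := by
    rw [mul_pow, ← Real.exp_nat_mul]
    have e1 : (n : ℝ) * (Λ * q) = Λ * (n * q) := by ring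
    rw [e1]
    exact mul_le_mul_of_nonneg_right (pow_le_pow_right₀ (by norm_num) hn) (Real.exp_pos _).le
  have h4 : (2 : ℝ) ^ m ≤ 2 ^ J := pow_le_pow_right₀ (by norm_num) hm
  have h5 : ((4 * m + n : ℕ) : ℝ) ≤ 4 * J + J := by
    have : 4 * m + n ≤ 4 * J + J := by omega
    exact_mod_cast this
  have h6 : (0 : ℝ) ≤ ((4 * m + n : ℕ) : ℝ) := Nat.cast_nonneg _
  have hc0 : 0 ≤ cost c (Real.exp (-(Λ * a))) (Real.exp (-(Λ * (4 * q + s + d - η)))) := by
    unfold cost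
    positivity
  unfold up
  generalize cost c (Real.exp (-(Λ * a))) (Real.exp (-(Λ * (4 * q + s + d - η)))) = kc at hcost hc0
  generalize ((4 * m + n : ℕ) : ℝ) = N at h5 h6
  calc 26244 * Δ ^ 3 * ((10 * Real.exp (Λ * s)) ^ (m + 1) * (2 * Real.exp (Λ * q)) ^ n) *
        (2 ^ m * (kc * N * ν))
      ≤ 26244 * (8 * Real.exp (Λ * (3 * d))) *
          ((10 ^ (J + 1) * Real.exp (Λ * ((m + 1) * s))) * (2 ^ J * Real.exp (Λ * (n * q)))) *
          (2 ^ J * ((918 * Real.exp (Λ * t)) * (4 * J + J) * ν)) := by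
        gcongr
    _ = Cc * (Real.exp (Λ * (3 * d)) * Real.exp (Λ * ((m + 1) * s)) * Real.exp (Λ * (n * q)) *
          Real.exp (Λ * t)) * ν := by
        rw [hCc]
        ring
    _ ≤ Real.exp (Λ * η) * (Real.exp (Λ * (3 * d)) * Real.exp (Λ * ((m + 1) * s)) *
          Real.exp (Λ * (n * q)) * Real.exp (Λ * t)) * ν := by
        gcongr
    _ = Real.exp (Λ * (3 * d + s + t + m * s + n * q + η)) * ν := by
        rw [← Real.exp_add, ← Real.exp_add, ← Real.exp_add, ← Real.exp_add]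
        congr 2
        ring

end Pool.Agent.Work.MP_f2148a_nt.M56.H
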