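import Pool.Agent.Work.MP_f2148a_nt.M56.H.Size
import Pool.Agent.Work.MP_f2148a_nt.M56.H.Upb
import Pool.Agent.Work.MP_f2148a_nt.M56.LD.Hgt

set_option autoImplicit false

/-!
# H/Htb (helper68): the height of a curve with many points of a box
-/

namespace Pool.Agent.Work.MP_f2148a_nt.M56.H

open G4 G3 LD Polynomial

theorem Fam.on {ι : Type} {x y α β : ℤ} {ω τ ρ S Q : ℝ} {f : ι → ℤ × ℤ × ℤ × ℤ}
    (hf : Fam x y α β ω τ ρ S Q f) {m n : ℕ} {g : ℤ[X][X]}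
    (h0 : ∀ i, ev m n g (f i).1 (f i).2.1 (f i).2.2.1 (f i).2.2.2 = 0) : (pts f).On m n g :=
  ⟨hf.dst, hf.t0, hf.Y0, h0⟩

theorem htb (C₀ η : ℝ) (hC : 1 ≤ C₀) (hη : 0 < η) (J : ℕ) : ∃ C₂ Λ₀ : ℝ, ∀ Λ : ℝ, Λ₀ ≤ Λ →
    ∀ (x y α β : ℤ) (ω τ Δ l c s d q a t om : ℝ), Par C₀ Λ x y α β ω τ Δ l c s d q a t om →
      η ≤ 4 * q + s + d → ∀ m n : ℕ, m ≤ J → n ≤ J → ∀ g : ℤ[X][X], Irr m n g →
    ∀ (ι : Type) [Fintype ι] (f : ι → ℤ × ℤ × ℤ × ℤ), Fam x y α β ω τ (Real.exp (-(Λ * a)))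
        (Real.exp (Λ * s)) (Real.exp (Λ * q)) f →
      (∀ i, ev m n g (f i).1 (f i).2.1 (f i).2.2.1 (f i).2.2.2 = 0) →
      2 * m * n < Fintype.card ι →
      (∀ e : E m n, |((cf g e : ℤ) : ℝ)| ≤ Real.exp (Λ * C₂)) ∧
      ht (cf (rl (frm α ω τ) m n g) : E m n → ℝ) ≤ Real.exp (Λ * C₂) := by
  obtain ⟨C₁, Λ₁, h1⟩ := size C₀ η hC hη
  set D₁ : ℝ := max C₁ 0 with hD₁
  set N : ℕ := (J + J) * ((J + 1) * (J + 1)) with hN
  set Fc : ℝ := ((((J + 1) * (J + 1)).factorial : ℕ) : ℝ) with hFc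
  set C₁' : ℝ := Fc + N * (D₁ + 1) with hC₁'
  obtain ⟨C₂, Λ₂, h2⟩ := ht_up C₀ C₁' hC J
  refine ⟨max C₁' C₂, max (max Λ₁ Λ₂) 1, ?_⟩
  intro Λ hΛ x y α β ω τ Δ l c s d q a t om hp hb m n hm hn g hg ι _ f hf h0 hcard
  have hΛ1 : Λ₁ ≤ Λ := ((le_max_left _ _).trans (le_max_left _ _)).trans hΛ
  have hΛ2 : Λ₂ ≤ Λ := ((le_max_right _ _).trans (le_max_left _ _)).trans hΛ
  have hΛ3 : 1 ≤ Λ := (le_max_right _ _).trans hΛ
  have hΛ0 : 0 ≤ Λ := by linarith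
  have hD0 : 0 ≤ D₁ := le_max_right _ _
  -- the bound for the points
  set Y : ℤ := ⌈Real.exp (Λ * D₁)⌉ with hY
  have hx1 : 1 ≤ Real.exp (Λ * D₁) := Real.one_le_exp (by positivity)
  have hY1 : 1 ≤ Y := by
    have : (1 : ℝ) ≤ Y := hx1.trans (Int.le_ceil _)
    exact_mod_cast this
  have hYle : (Y : ℝ) ≤ Real.exp (Λ * (D₁ + 1)) := by
    have e1 : (Y : ℝ) ≤ Real.exp (Λ * D₁) + 1 := (Int.ceil_lt_add_one _).le
    have e2 : (2 : ℝ) ≤ Real.exp Λ := by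
      have := Real.add_one_le_exp Λ
      linarith
    rw [mul_add, Real.exp_add, mul_one]
    nlinarith
  have hpt : ∀ v : ℤ, |(v : ℝ)| ≤ Real.exp (Λ * C₁) → |v| ≤ Y := by
    intro v hv
    have h3 : |(v : ℝ)| ≤ Y := by
      refine hv.trans (le_trans ?_ (Int.le_ceil _))
      exact Real.exp_le_exp.2 (mul_le_mul_of_nonneg_left (le_max_left _ _) hΛ0)
    exact_mod_cast h3
  have hcf : ∀ e : E m n, |((cf g e : ℤ) : ℝ)| ≤ Real.exp (Λ * C₁') := by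
    intro e
    have h3 := hgt m n hg (hf.on h0) hcard Y hY1 (fun i => by
      obtain ⟨b1, b2, b3, b4⟩ := h1 Λ hΛ1 x y α β ω τ Δ l c s d q a t om hp hb _ _ _ _ (hf.bx i)
      exact ⟨hpt _ b1, hpt _ b2, hpt _ b3, hpt _ b4⟩) e
    have h4 : |((cf g e : ℤ) : ℝ)| ≤ ((((m + 1) * (n + 1)).factorial : ℕ) : ℝ) *
        (Y : ℝ) ^ ((m + n) * ((m + 1) * (n + 1))) := by
      exact_mod_cast h3
    refine h4.trans ?_
    have hYr : (1 : ℝ) ≤ Y := by exact_mod_cast hY1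
    have h5 : ((((m + 1) * (n + 1)).factorial : ℕ) : ℝ) ≤ Fc := by
      rw [hFc]
      have : ((m + 1) * (n + 1)).factorial ≤ ((J + 1) * (J + 1)).factorial :=
        Nat.factorial_le (Nat.mul_le_mul (by omega) (by omega))
      exact_mod_cast this
    have h6 : (Y : ℝ) ^ ((m + n) * ((m + 1) * (n + 1))) ≤ (Y : ℝ) ^ N := by
      refine pow_le_pow_right₀ hYr ?_
      exact Nat.mul_le_mul (by omega) (Nat.mul_le_mul (by omega) (by omega))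
    have h7 : (Y : ℝ) ^ N ≤ Real.exp (Λ * (N * (D₁ + 1))) := by
      refine (pow_le_pow_left₀ (by linarith) hYle N).trans (le_of_eq ?_)
      rw [← Real.exp_nat_mul]
      congr 1
      ring
    have h8 : Fc ≤ Real.exp (Λ * Fc) := by
      have h9 : 0 ≤ Fc := Nat.cast_nonneg _
      have := Real.add_one_le_exp (Λ * Fc)
      nlinarith
    calc ((((m + 1) * (n + 1)).factorial : ℕ) : ℝ) * (Y : ℝ) ^ ((m + n) * ((m + 1) * (n + 1)))
        ≤ Real.exp (Λ * Fc) * Real.exp (Λ * (N * (D₁ + 1))) := by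
          refine mul_le_mul (h5.trans h8) (h6.trans h7) (by positivity) (Real.exp_pos _).le
      _ = Real.exp (Λ * C₁') := by
          rw [← Real.exp_add, hC₁']
          congr 1
          ring
  refine ⟨fun e => (hcf e).trans ?_, (h2 Λ hΛ2 x y α β ω τ Δ l c s d q a t om hp m n hm hn g
    hcf).trans ?_⟩
  · exact Real.exp_le_exp.2 (mul_le_mul_of_nonneg_left (le_max_left _ _) hΛ0)
  · exact Real.exp_le_exp.2 (mul_le_mul_of_nonneg_left (le_max_right _ _) hΛ0)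

end Pool.Agent.Work.MP_f2148a_nt.M56.H
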