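import Pool.Agent.Work.MP_f2148a_nt.M56.H.Dat

set_option autoImplicit false

/-!
# H/Low (size S-M): lower bound of the norm on the box from one nonzero integral derivative

PROOF. `G3.nab_le` with `ρ = exp (-Λ a)`, `g₀ = exp (-Λ (4 q + s + d - η))` (`|z| ≤ g₀` by `dat` or `cz_eq`), the left side is at
least 1; `Δ ≤ 2 exp (Λ d)`, `|s f - t e| ≤ 3`, `|d₂| ≤ 10 exp (Λ s)`, `|ξ| ≤ 2 exp (Λ q)`,
`cost c ρ g₀ = 306 (1 + (|c| + g₀) / ρ) ≤ 306 (2 + exp (Λ t)) ≤ 918 exp (Λ t)` because `g₀ ≤ ρ` (`a + η ≤ 4 q + s + d`). So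
`1 ≤ const (J) * exp (Λ (3 d + s + t + m s + n q)) * nrm`, and `const ≤ exp (Λ η)` for large `Λ`.
-/

namespace Pool.Agent.Work.MP_f2148a_nt.M56.H

open G4 G3 LD Polynomial

/-- the value of `γ` at a point of the box -/
private theorem cz_le_low {x y α β : ℤ} {ω τ Δ l c ρ s d q η Λ : ℝ} (h : Rf x y α β ω τ Δ l c)
    (hρ : ρ ≤ 1 / 5) (hΔ : Real.exp (Λ * d) ≤ Δ) (hη : 4 ≤ Real.exp (Λ * η)) {s' t' X Y : ℤ}
    (hb : Bx x y α β ω τ ρ (Real.exp (Λ * s)) (Real.exp (Λ * q)) s' t' X Y) :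
    |cz α ω τ l c s' t' X Y| ≤ Real.exp (-(Λ * (4 * q + s + d - η))) := by
  rw [cz_eq h hρ (Real.exp_pos _) (Real.exp_pos _) hb]
  have h1 : Real.exp (Λ * s) / 10 ≤ cd2 α ω τ s' t' := hb.d1
  have h2 : Real.exp (Λ * q) ≤ |cxi ω τ X Y| := hb.xi1
  have hd : 0 < cd2 α ω τ s' t' := lt_of_lt_of_le (by positivity) h1
  have hΔ0 : 0 < Δ := lt_of_lt_of_le (Real.exp_pos _) hΔ
  have h4 : Real.exp (Λ * q) ^ 4 ≤ cxi ω τ X Y ^ 4 := by
    have := pow_le_pow_left₀ (Real.exp_pos _).le h2 4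
    rwa [pow_abs, abs_of_nonneg (by positivity)] at this
  have hx : 0 < cxi ω τ X Y ^ 4 := lt_of_lt_of_le (by positivity) h4
  have hpos : 0 < 3 * Δ * cd2 α ω τ s' t' * cxi ω τ X Y ^ 4 := by positivity
  rw [abs_of_pos (by positivity), div_le_iff₀ hpos]
  have h5 : 3 * Real.exp (Λ * d) * (Real.exp (Λ * s) / 10) * Real.exp (Λ * q) ^ 4 ≤
      3 * Δ * cd2 α ω τ s' t' * cxi ω τ X Y ^ 4 := by
    refine mul_le_mul (mul_le_mul ?_ h1 (by positivity) (by positivity)) h4 (by positivity)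
      (by positivity)
    linarith
  have h6 : Real.exp (-(Λ * (4 * q + s + d - η))) *
      (3 * Real.exp (Λ * d) * (Real.exp (Λ * s) / 10) * Real.exp (Λ * q) ^ 4) =
      3 / 10 * Real.exp (Λ * η) := by
    have e : Real.exp (Λ * η) = Real.exp (-(Λ * (4 * q + s + d - η))) * Real.exp (Λ * d) *
        Real.exp (Λ * s) * Real.exp (Λ * q) ^ 4 := by
      rw [← Real.exp_nat_mul, ← Real.exp_add, ← Real.exp_add, ← Real.exp_add]
      congr 1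
      push_cast
      ring
    rw [e]
    ring
  have h7 := mul_le_mul_of_nonneg_left h5 (Real.exp_pos (-(Λ * (4 * q + s + d - η)))).le
  rw [h6] at h7
  linarith

private theorem nrm_nn_low {ρ γ : ℝ} (hρ : 0 ≤ ρ) (hγ : 0 ≤ γ) (F : A) : 0 ≤ nrm ρ γ F :=
  Finset.sum_nonneg fun _ _ => mul_nonneg (abs_nonneg _)
    (mul_nonneg (pow_nonneg hρ _) (pow_nonneg hγ _))

theorem low (C₀ η : ℝ) (hC : 1 ≤ C₀) (hη : 0 < η) (J : ℕ) : ∃ Λ₀ : ℝ, ∀ Λ : ℝ, Λ₀ ≤ Λ →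
    ∀ (x y α β : ℤ) (ω τ Δ l c s d q a t om : ℝ), Par C₀ Λ x y α β ω τ Δ l c s d q a t om →
      a + η ≤ 4 * q + s + d → ∀ s' t' X Y : ℤ, Bx x y α β ω τ (Real.exp (-(Λ * a)))
        (Real.exp (Λ * s)) (Real.exp (Λ * q)) s' t' X Y →
      ∀ m n : ℕ, m ≤ J → n ≤ J → ∀ g : ℤ[X][X], ev m n g s' t' X Y = 0 →
      ∀ e f : ℤ, |s' * f - t' * e| ≤ 3 → nab x y α β e f m n g s' t' X Y ≠ 0 →
      Real.exp (-(Λ * (3 * d + s + t + m * s + n * q + η))) ≤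
        nrm (Real.exp (-(Λ * a))) (Real.exp (-(Λ * (4 * q + s + d - η))))
          (psi (U1 l c) (U2 l c) m n (rl (frm α ω τ) m n g)) := by
  set K : ℝ := 8748 * 8 * 3 * ((10 ^ (J + 1) * 2 ^ J) * (2 ^ J * (918 * (5 * J + 1)))) with hKd
  have hK4 : 4 ≤ K := by
    have h1 : (1 : ℝ) ≤ 10 ^ (J + 1) := one_le_pow₀ (by norm_num)
    have h2 : (1 : ℝ) ≤ 2 ^ J := one_le_pow₀ (by norm_num)
    have h3 : (1 : ℝ) ≤ 5 * J + 1 := by
      have : (0 : ℝ) ≤ J := Nat.cast_nonneg J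
      linarith
    have h4 : (1 : ℝ) ≤ 10 ^ (J + 1) * 2 ^ J := one_le_mul_of_one_le_of_one_le h1 h2
    have h5 : (1 : ℝ) ≤ 918 * (5 * J + 1) := by linarith
    have h6 : (1 : ℝ) ≤ 2 ^ J * (918 * (5 * J + 1)) := one_le_mul_of_one_le_of_one_le h2 h5
    have h7 := one_le_mul_of_one_le_of_one_le h4 h6
    rw [hKd]
    linarith
  refine ⟨max (5 * C₀) (K / η), ?_⟩
  intro Λ hΛ x y α β ω τ Δ l c s d q a t om P hab s' t' X Y hb m n hm hn g hg e f hef hnab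
  have hΛ1 : 5 * C₀ ≤ Λ := (le_max_left _ _).trans hΛ
  have hΛ2 : K / η ≤ Λ := (le_max_right _ _).trans hΛ
  have hΛ0 : 0 < Λ := by linarith
  have hKη : K ≤ Real.exp (Λ * η) := by
    rw [div_le_iff₀ hη] at hΛ2
    have := Real.add_one_le_exp (Λ * η)
    linarith
  have h5 : 5 ≤ Λ * a := by
    calc (5 : ℝ) = (5 * C₀) * (1 / C₀) := by field_simp
      _ ≤ Λ * a := mul_le_mul hΛ1 P.a1 (by positivity) hΛ0.le
  have hρ15 : Real.exp (-(Λ * a)) ≤ 1 / 5 := by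
    rw [Real.exp_neg, one_div]
    have := Real.add_one_le_exp (Λ * a)
    exact inv_anti₀ (by norm_num) (by linarith)
  have hρ0 : 0 < Real.exp (-(Λ * a)) := Real.exp_pos _
  have hg0 : 0 < Real.exp (-(Λ * (4 * q + s + d - η))) := Real.exp_pos _
  have hgρ : Real.exp (-(Λ * (4 * q + s + d - η))) ≤ Real.exp (-(Λ * a)) := by
    refine Real.exp_le_exp.2 (neg_le_neg ?_)
    exact mul_le_mul_of_nonneg_left (by linarith) hΛ0.le
  have hg1 : Real.exp (-(Λ * (4 * q + s + d - η))) ≤ 1 := by linarith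
  have hz := cz_le_low P.rf hρ15 P.Δ1 (hK4.trans hKη) hb
  have hd1 : Real.exp (Λ * s) / 10 ≤ cd2 α ω τ s' t' := hb.d1
  have hd2 : cd2 α ω τ s' t' ≤ 10 * Real.exp (Λ * s) := hb.d2
  have hd : 0 < cd2 α ω τ s' t' := lt_of_lt_of_le (by positivity) hd1
  have hx1 : Real.exp (Λ * q) ≤ |cxi ω τ X Y| := hb.xi1
  have hx2 : |cxi ω τ X Y| ≤ 2 * Real.exp (Λ * q) := hb.xi2
  have hx : 0 < |cxi ω τ X Y| := lt_of_lt_of_le (Real.exp_pos _) hx1
  have hx0 : cxi ω τ X Y ≠ 0 := abs_pos.1 hx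
  have hrr : |cup τ Y / cxi ω τ X Y| ≤ Real.exp (-(Λ * a)) := by
    rw [abs_div, div_le_iff₀ hx]
    exact hb.rr
  have main := nab_le (x := x) (y := y) (β := β) P.rf.hα P.rf.hτ P.rf.dep P.rf.hl P.rf.hc hρ0
    hρ15 hg0.le hg1 m n g s' t' X Y e f (d₁ := cd1 α τ s') (d₂ := cd2 α ω τ s' t')
    (ξ := cxi ω τ X Y) (υ := cup τ Y) rfl rfl rfl rfl hd.ne' hx0 hrr hz hg
  set N := nrm (Real.exp (-(Λ * a))) (Real.exp (-(Λ * (4 * q + s + d - η))))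
          (psi (U1 l c) (U2 l c) m n (rl (frm α ω τ) m n g)) with hN
  have hN0 : 0 ≤ N := nrm_nn_low hρ0.le hg0.le _
  have one_le : (1 : ℝ) ≤ |((nab x y α β e f m n g s' t' X Y : ℤ) : ℝ)| := by
    rw [← Int.cast_abs]
    exact_mod_cast Int.one_le_abs hnab
  have hΔ0 : 0 < Δ := lt_of_lt_of_le (Real.exp_pos _) P.Δ1
  have b1 : Δ ^ 3 ≤ 8 * Real.exp (Λ * d) ^ 3 := by
    calc Δ ^ 3 ≤ (2 * Real.exp (Λ * d)) ^ 3 := pow_le_pow_left₀ hΔ0.le P.Δ2 3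
      _ = _ := by ring
  have b2 : |((s' * f - t' * e : ℤ) : ℝ)| ≤ 3 := by
    rw [← Int.cast_abs]
    exact_mod_cast hef
  have b3 : |cd2 α ω τ s' t'| ^ (m + 1) ≤ 10 ^ (J + 1) * Real.exp (Λ * s) ^ (m + 1) := by
    rw [abs_of_pos hd]
    calc cd2 α ω τ s' t' ^ (m + 1) ≤ (10 * Real.exp (Λ * s)) ^ (m + 1) :=
          pow_le_pow_left₀ hd.le hd2 _
      _ = 10 ^ (m + 1) * Real.exp (Λ * s) ^ (m + 1) := mul_pow _ _ _
      _ ≤ _ := mul_le_mul_of_nonneg_right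
          (pow_le_pow_right₀ (by norm_num) (by omega)) (by positivity)
  have b4 : |cxi ω τ X Y| ^ n ≤ 2 ^ J * Real.exp (Λ * q) ^ n := by
    calc |cxi ω τ X Y| ^ n ≤ (2 * Real.exp (Λ * q)) ^ n := pow_le_pow_left₀ hx.le hx2 _
      _ = 2 ^ n * Real.exp (Λ * q) ^ n := mul_pow _ _ _
      _ ≤ _ := mul_le_mul_of_nonneg_right (pow_le_pow_right₀ (by norm_num) hn) (by positivity)
  have b5 : (2 : ℝ) ^ m ≤ 2 ^ J := pow_le_pow_right₀ (by norm_num) hm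
  have b6 : cost c (Real.exp (-(Λ * a))) (Real.exp (-(Λ * (4 * q + s + d - η)))) ≤
      918 * Real.exp (Λ * t) := by
    have h1 : |c| / Real.exp (-(Λ * a)) ≤ Real.exp (Λ * t) := by
      rw [div_le_iff₀ hρ0, ← Real.exp_add]
      refine P.c1.trans (le_of_eq ?_)
      congr 1
      ring
    have h2 : Real.exp (-(Λ * (4 * q + s + d - η))) / Real.exp (-(Λ * a)) ≤ 1 :=
      (div_le_one hρ0).2 hgρ
    have h3 : 1 ≤ Real.exp (Λ * t) := Real.one_le_exp (mul_nonneg hΛ0.le P.t1)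
    unfold cost
    rw [add_div]
    linarith
  have b7 : ((4 * m + n : ℕ) : ℝ) ≤ 5 * J + 1 := by
    push_cast
    have h1 : (m : ℝ) ≤ J := by exact_mod_cast hm
    have h2 : (n : ℝ) ≤ J := by exact_mod_cast hn
    linarith
  have hcost0 : 0 ≤ cost c (Real.exp (-(Λ * a))) (Real.exp (-(Λ * (4 * q + s + d - η)))) := by
    unfold cost
    positivity
  have hJ0 : (0 : ℝ) ≤ 5 * J + 1 := by positivity
  have up : 8748 * Δ ^ 3 * |((s' * f - t' * e : ℤ) : ℝ)| *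
        (|cd2 α ω τ s' t'| ^ (m + 1) * |cxi ω τ X Y| ^ n) *
        (2 ^ m * (cost c (Real.exp (-(Λ * a))) (Real.exp (-(Λ * (4 * q + s + d - η)))) *
          (4 * m + n : ℕ) * N)) ≤
      8748 * (8 * Real.exp (Λ * d) ^ 3) * 3 *
        ((10 ^ (J + 1) * Real.exp (Λ * s) ^ (m + 1)) * (2 ^ J * Real.exp (Λ * q) ^ n)) *
        (2 ^ J * (918 * Real.exp (Λ * t) * (5 * J + 1) * N)) := by
    gcongr
  have eq1 : 8748 * (8 * Real.exp (Λ * d) ^ 3) * 3 *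
        ((10 ^ (J + 1) * Real.exp (Λ * s) ^ (m + 1)) * (2 ^ J * Real.exp (Λ * q) ^ n)) *
        (2 ^ J * (918 * Real.exp (Λ * t) * (5 * J + 1) * N)) =
      K * Real.exp (Λ * (3 * d + s + t + m * s + n * q)) * N := by
    have e : Real.exp (Λ * (3 * d + s + t + m * s + n * q)) = Real.exp (Λ * d) ^ 3 *
        Real.exp (Λ * s) ^ (m + 1) * Real.exp (Λ * q) ^ n * Real.exp (Λ * t) := by
      rw [← Real.exp_nat_mul, ← Real.exp_nat_mul, ← Real.exp_nat_mul, ← Real.exp_add,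
        ← Real.exp_add, ← Real.exp_add]
      congr 1
      push_cast
      ring
    rw [e, hKd]
    ring
  have fin : 1 ≤ K * Real.exp (Λ * (3 * d + s + t + m * s + n * q)) * N := by
    rw [← eq1]
    exact one_le.trans (main.trans up)
  have e2 : Real.exp (-(Λ * (3 * d + s + t + m * s + n * q + η))) =
      1 / (Real.exp (Λ * η) * Real.exp (Λ * (3 * d + s + t + m * s + n * q))) := by
    rw [← Real.exp_add, one_div, ← Real.exp_neg]
    congr 1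
    ring
  rw [e2, div_le_iff₀ (by positivity)]
  calc (1 : ℝ) ≤ K * Real.exp (Λ * (3 * d + s + t + m * s + n * q)) * N := fin
    _ ≤ Real.exp (Λ * η) * Real.exp (Λ * (3 * d + s + t + m * s + n * q)) * N := by
      gcongr
    _ = _ := by ring

end Pool.Agent.Work.MP_f2148a_nt.M56.H
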