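import Mathlib

set_option autoImplicit false

/-!
# H/Pr (size S, Mathlib only): many primes of a given size

PROOF. `Nat.exists_prime_lt_and_le_two_mul` (Bertrand) repeatedly: `Z ≤ p₁ ≤ 2 (Z + 1) ≤ 4 Z`, `p₁ < p₂ ≤ 2 p₁`, ...
`prime_pick`: if every `p ∈ T` divided `N`, the product of the different primes, at least `Z ^ r > |N|`, would divide `N ≠ 0`.
-/

namespace Pool.Agent.Work.MP_f2148a_nt.M56.H

private theorem primes_aux (r : ℕ) : ∃ C : ℝ, 1 ≤ C ∧ ∀ Z : ℝ, 1 ≤ Z → ∃ T : Finset ℕ,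
    T.card = r ∧ ∀ p ∈ T, p.Prime ∧ Z ≤ p ∧ (p : ℝ) ≤ C * Z := by
  induction r with
  | zero => exact ⟨1, le_refl _, fun Z _ => ⟨∅, rfl, fun p hp => absurd hp (Finset.notMem_empty p)⟩⟩
  | succ r ih =>
    obtain ⟨C, hC1, hC⟩ := ih
    refine ⟨4 * C, by linarith, fun Z hZ => ?_⟩
    obtain ⟨T, hT, hp⟩ := hC Z hZ
    have hCZ : (1 : ℝ) ≤ C * Z := by nlinarith
    have h0 : ⌈C * Z⌉₊ ≠ 0 := by
      have : 0 < ⌈C * Z⌉₊ := Nat.ceil_pos.2 (by linarith)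
      omega
    obtain ⟨q, hq, hq1, hq2⟩ := Nat.exists_prime_lt_and_le_two_mul ⌈C * Z⌉₊ h0
    have h1 : C * Z ≤ (⌈C * Z⌉₊ : ℝ) := Nat.le_ceil _
    have h2 : (⌈C * Z⌉₊ : ℝ) < C * Z + 1 := Nat.ceil_lt_add_one (by linarith)
    have h3 : (⌈C * Z⌉₊ : ℝ) < q := by exact_mod_cast hq1
    have h4 : (q : ℝ) ≤ 2 * (⌈C * Z⌉₊ : ℝ) := by exact_mod_cast hq2
    have hqT : q ∉ T := fun h => by
      have := (hp q h).2.2
      linarith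
    refine ⟨insert q T, by rw [Finset.card_insert_of_notMem hqT, hT], fun p hpT => ?_⟩
    rcases Finset.mem_insert.1 hpT with rfl | h
    · refine ⟨hq, ?_, ?_⟩
      · nlinarith
      · linarith
    · obtain ⟨h5, h6, h7⟩ := hp p h
      exact ⟨h5, h6, by linarith⟩

theorem primes (r : ℕ) : ∃ C : ℝ, ∀ Z : ℝ, 1 ≤ Z → ∃ T : Finset ℕ, T.card = r ∧
    ∀ p ∈ T, p.Prime ∧ Z ≤ p ∧ (p : ℝ) ≤ C * Z := by
  obtain ⟨C, -, hC⟩ := primes_aux r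
  exact ⟨C, hC⟩

theorem prime_pick {Z : ℝ} (hZ : 1 ≤ Z) {T : Finset ℕ} (hT : ∀ p ∈ T, p.Prime ∧ Z ≤ p) {N : ℤ}
    (hN : N ≠ 0) (h : |(N : ℝ)| < Z ^ T.card) : ∃ p ∈ T, ¬ (p : ℤ) ∣ N := by
  by_contra hcon
  push Not at hcon
  have h1 : (∏ p ∈ T, p) ∣ N.natAbs := by
    refine Finset.prod_primes_dvd N.natAbs (fun p hp => (hT p hp).1.prime) fun p hp => ?_
    exact Int.natCast_dvd.1 (hcon p hp)
  have h2 : (∏ p ∈ T, p) ≤ N.natAbs := Nat.le_of_dvd (Int.natAbs_pos.2 hN) h1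
  have h3 : Z ^ T.card ≤ ((∏ p ∈ T, p : ℕ) : ℝ) := by
    rw [Nat.cast_prod, ← Finset.prod_const]
    exact Finset.prod_le_prod (fun _ _ => by linarith) fun p hp => (hT p hp).2
  have h4 : ((N.natAbs : ℕ) : ℝ) = |(N : ℝ)| := by
    rw [Nat.cast_natAbs, Int.cast_abs]
  have h5 : ((∏ p ∈ T, p : ℕ) : ℝ) ≤ ((N.natAbs : ℕ) : ℝ) := by exact_mod_cast h2
  linarith

end Pool.Agent.Work.MP_f2148a_nt.M56.H
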