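import Pool.Agent.Work.MP_f2148a_nt.M56.H.Par

set_option autoImplicit false

/-!
# H/SV (size S-M): at most one point of a box for each `(X : Y)`

PROOF. `Bx.val` gives `IsCoprime X Y` (a common prime `p` has `p ^ 4 ∣ 3`), so `(X', Y') = ± (X, Y)`, and `A = 3 F0 (X, Y)`,
`B = G1 (X, Y)` are the same for both points (forms of degree 4). `s A + t B = 3 = s' A + t' B`; with `k = s t' - s' t`
(integer): `3 (t - t') = ± k A`, `3 (s - s') = ∓ k B`. If `k ≠ 0` then `|d₂(s - s', t - t')| = |k| / 3 * |Δ p₁(ξ, υ)|`, because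
`A = 9 Δ (τ/(3α) p₁ - 2ω/(3ατ) p₂)` and `B = 9 Δ (α/(3τ)) p₂` (`F_eq` with `(s, t) = (1, 0), (0, 1)`), so it is
`≥ Δ ξ⁴ pa (r) / 3 ≥ Δ Q ^ 4 / 6`; but both `d₂` are in `[S / 10, 10 S]`: `|d₂(s - s', t - t')| < 10 S`. So `60 S ≤ Δ Q ^ 4` is impossible.
-/

namespace Pool.Agent.Work.MP_f2148a_nt.M56.H

open G4 G3 LD

private theorem F0_hom (x y g X Y : ℤ) : F0 x y (g * X) (g * Y) = g ^ 4 * F0 x y X Y := by
  unfold F0
  ring

private theorem G1_hom (x y α β g X Y : ℤ) :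
    G1 x y α β (g * X) (g * Y) = g ^ 4 * G1 x y α β X Y := by
  unfold G1
  ring

theorem coprime_XY {x y α β : ℤ} {ω τ ρ S Q : ℝ} {s t X Y : ℤ}
    (hb : Bx x y α β ω τ ρ S Q s t X Y) : IsCoprime X Y := by
  rw [Int.isCoprime_iff_gcd_eq_one]
  obtain ⟨X', hX⟩ : (Int.gcd X Y : ℤ) ∣ X := Int.gcd_dvd_left _ _
  obtain ⟨Y', hY⟩ : (Int.gcd X Y : ℤ) ∣ Y := Int.gcd_dvd_right _ _
  have h1 := hb.val
  generalize hg : Int.gcd X Y = g at hX hY
  rw [hX, hY, F0_hom, G1_hom] at h1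
  have h2 : ((g : ℤ)) ^ 4 ∣ 3 := ⟨3 * s * F0 x y X' Y' + t * G1 x y α β X' Y', by
    linear_combination (-1) * h1⟩
  have h3 : g ^ 4 ∣ 3 := by exact_mod_cast h2
  have h4 : g ^ 4 ≤ 3 := Nat.le_of_dvd (by norm_num) h3
  have h5 : g ≤ 1 := by
    by_contra h6
    have h7 : 2 ^ 4 ≤ g ^ 4 := Nat.pow_le_pow_left (by omega) 4
    omega
  interval_cases g
  · norm_num at h3
  · rfl

/-- `gcd (s, t) ∣ 3`: there are `e, f` with `s f - t e = g`, `g ∈ {1, 3}`. -/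
theorem gcd_st {x y α β : ℤ} {ω τ ρ S Q : ℝ} {s t X Y : ℤ}
    (hb : Bx x y α β ω τ ρ S Q s t X Y) : ∃ e f : ℤ, s * f - t * e = Int.gcd s t ∧
      (Int.gcd s t = 1 ∨ Int.gcd s t = 3) := by
  refine ⟨-Int.gcdB s t, Int.gcdA s t, ?_, ?_⟩
  · rw [Int.gcd_eq_gcd_ab]
    ring
  · have h1 : (Int.gcd s t : ℤ) ∣ 3 := by
      rw [← hb.val]
      exact dvd_add (Dvd.dvd.mul_right (Dvd.dvd.mul_left (Int.gcd_dvd_left _ _) _) _)
        (Dvd.dvd.mul_right (Int.gcd_dvd_right _ _) _)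
    have h2 : Int.gcd s t ∣ 3 := by exact_mod_cast h1
    exact (Nat.dvd_prime Nat.prime_three).1 h2

theorem same_v {x y α β : ℤ} {ω τ Δ l c ρ S Q : ℝ} (h : Rf x y α β ω τ Δ l c) (hρ : ρ ≤ 1 / 5)
    (hS : 0 < S) (hQ : 0 < Q) (h60 : 60 * S ≤ Δ * Q ^ 4) {s t X Y s' t' X' Y' : ℤ}
    (hb : Bx x y α β ω τ ρ S Q s t X Y) (hb' : Bx x y α β ω τ ρ S Q s' t' X' Y')
    (hv : X * Y' = X' * Y) : s * t' = s' * t := by
  -- `(X', Y') = k (X, Y)`, `k = ± 1`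
  obtain ⟨k, hX, hY, hk⟩ : ∃ k : ℤ, X' = k * X ∧ Y' = k * Y ∧ k ^ 4 = 1 := by
    obtain ⟨a, b, hab⟩ := coprime_XY hb
    obtain ⟨a', b', hab'⟩ := coprime_XY hb'
    have e1 : X' = (a * X' + b * Y') * X := by linear_combination (-X') * hab - b * hv
    have e2 : Y' = (a * X' + b * Y') * Y := by linear_combination (-Y') * hab + a * hv
    refine ⟨a * X' + b * Y', e1, e2, ?_⟩
    have e3 : (a * X' + b * Y') * (a' * X + b' * Y) = 1 := by
      rw [← hab']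
      linear_combination (-a') * e1 - b' * e2
    have e4 : IsUnit (a * X' + b * Y') := IsUnit.of_mul_eq_one _ e3
    rcases Int.isUnit_iff.1 e4 with h1 | h1
    · rw [h1]
      norm_num
    · rw [h1]
      norm_num
  have hF : F0 x y X' Y' = F0 x y X Y := by rw [hX, hY, F0_hom, hk, one_mul]
  have hG : G1 x y α β X' Y' = G1 x y α β X Y := by rw [hX, hY, G1_hom, hk, one_mul]
  have v1 := hb.val
  have v2 := hb'.val
  rw [hF, hG] at v2
  by_contra hne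
  have hN : s * t' - s' * t ≠ 0 := sub_ne_zero.2 hne
  have e1 : 3 * (s - s') = (s * t' - s' * t) * G1 x y α β X Y := by
    linear_combination (-s) * v2 + s' * v1
  have e2 : 3 * (t' - t) = (s * t' - s' * t) * (3 * F0 x y X Y) := by
    linear_combination (-t') * v1 + t * v2
  -- the real identity
  have hα : (0 : ℝ) < α := by exact_mod_cast (lt_of_lt_of_le one_pos h.hα)
  have hτ := h.hτ
  have f1 := F_eq h 1 0 X Y
  have f2 := F_eq h 0 1 X Y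
  set P1 := cxi ω τ X Y ^ 4 - 6 * l * cxi ω τ X Y ^ 2 * cup τ Y ^ 2
          - 2 * c * cxi ω τ X Y * cup τ Y ^ 3 - 3 * l ^ 2 * cup τ Y ^ 4 with hP1
  set P2 := 2 * cxi ω τ X Y ^ 3 * cup τ Y - c * cup τ Y ^ 4 with hP2
  have hd : 3 * (cd2 α ω τ s t - cd2 α ω τ s' t') = -((s * t' - s' * t : ℤ) : ℝ) * (Δ * P1) := by
    have r1 : (3 : ℝ) * (s - s') = ((s * t' - s' * t : ℤ) : ℝ) * (G1 x y α β X Y : ℤ) := by
      exact_mod_cast e1
    have r2 : (3 : ℝ) * (t' - t) = ((s * t' - s' * t : ℤ) : ℝ) * (3 * (F0 x y X Y : ℤ)) := by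
      exact_mod_cast e2
    have g1 : (3 : ℝ) * (F0 x y X Y : ℤ) =
        9 * Δ * (τ / (3 * α) * P1 + (-(2 * ω) / (3 * α * τ)) * P2) := by
      have := f1
      unfold cd1 cd2 at this
      push_cast at this
      rw [mul_one, zero_mul, add_zero] at this
      rw [this]
      ring
    have g2 : ((G1 x y α β X Y : ℤ) : ℝ) = 9 * Δ * (α / (3 * τ) * P2) := by
      have := f2
      unfold cd1 cd2 at this
      push_cast at this
      rw [mul_zero, zero_mul, zero_add, one_mul] at this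
      rw [this]
      ring
    have r3 : 3 * (cd2 α ω τ s t - cd2 α ω τ s' t') =
        (-(2 * ω) / (3 * α * τ)) * (3 * ((s : ℝ) - s')) - (α / (3 * τ)) * (3 * ((t' : ℝ) - t)) := by
      unfold cd2
      ring
    rw [r3, r1, r2, g1, g2]
    field_simp
    ring
  have hξ : 0 < |cxi ω τ X Y| := lt_of_lt_of_le hQ hb.xi1
  have hξ0 : cxi ω τ X Y ≠ 0 := abs_pos.1 hξ
  have hr : |cr ω τ X Y| ≤ 1 / 5 := by
    unfold cr
    rw [abs_div, div_le_iff₀ hξ]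
    refine hb.rr.trans ?_
    exact mul_le_mul_of_nonneg_right hρ (abs_nonneg _)
  have hpa := pa_ge h.hl h.hc hr
  have hP : P1 = cxi ω τ X Y ^ 4 * pa l c (cr ω τ X Y) := by
    rw [hP1]
    unfold cr pa
    field_simp
  have hΔ : 0 < Δ := lt_of_lt_of_le (by norm_num) h.hΔ
  have h4 : Q ^ 4 ≤ cxi ω τ X Y ^ 4 := by
    have h5 : Q ^ 4 ≤ |cxi ω τ X Y| ^ 4 := pow_le_pow_left₀ hQ.le hb.xi1 4
    rwa [← abs_pow, abs_of_nonneg (by positivity)] at h5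
  have h5 : Q ^ 4 / 2 ≤ P1 := by
    rw [hP]
    nlinarith [pow_pos hQ 4]
  have h6 : 30 * S ≤ Δ * P1 := by nlinarith
  have h7 : (1 : ℝ) ≤ |((s * t' - s' * t : ℤ) : ℝ)| := by
    have := Int.one_le_abs hN
    exact_mod_cast this
  have h8 : 30 * S ≤ |3 * (cd2 α ω τ s t - cd2 α ω τ s' t')| := by
    rw [hd, neg_mul, abs_neg, abs_mul, abs_of_nonneg (show 0 ≤ Δ * P1 by linarith)]
    nlinarith
  have h9 : |cd2 α ω τ s t - cd2 α ω τ s' t'| ≤ 10 * S - S / 10 := by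
    have a1 : S / 10 ≤ cd2 α ω τ s t := hb.d1
    have a2 : cd2 α ω τ s t ≤ 10 * S := hb.d2
    have a3 : S / 10 ≤ cd2 α ω τ s' t' := hb'.d1
    have a4 : cd2 α ω τ s' t' ≤ 10 * S := hb'.d2
    rw [abs_le]
    constructor <;> linarith
  rw [abs_mul, abs_of_pos (by norm_num : (0 : ℝ) < 3)] at h8
  linarith

end Pool.Agent.Work.MP_f2148a_nt.M56.H
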