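import Pool.Agent.Work.MP_f2148a_nt.M56.H.Fib
import Pool.Agent.Work.MP_f2148a_nt.M56.H.Cls
import Pool.Agent.Work.MP_f2148a_nt.M56.H.Pr
import Pool.Agent.Work.MP_f2148a_nt.M56.H.SV
import Pool.Agent.Work.MP_f2148a_nt.M56.LD.Pad

set_option autoImplicit false

/-!
# H/NN (helper68): the number of points of a box on one irreducible curve with `n ≥ 2`
-/

namespace Pool.Agent.Work.MP_f2148a_nt.M56.H

open G4 G3 LD Polynomial

theorem Fam.sub {ι ι' : Type} {x y α β : ℤ} {ω τ ρ S Q : ℝ} {f : ι → ℤ × ℤ × ℤ × ℤ}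
    (hf : Fam x y α β ω τ ρ S Q f) (φ : ι' → ι) (hφ : Function.Injective φ) :
    Fam x y α β ω τ ρ S Q (fun i => f (φ i)) where
  bx i := hf.bx (φ i)
  dst i j h := hf.dst _ _ fun e => h (hφ e)
  inv i j h := hf.inv _ _ fun e => h (hφ e)
  t0 i := hf.t0 (φ i)
  Y0 i := hf.Y0 (φ i)

theorem class_bound {m n p : ℕ} (hp : p.Prime) (h3 : 3 < p) {g : ℤ[X][X]} (hg : Irr m n g)
    {x y α β : ℤ} {ω τ ρ S Q : ℝ} {J' : ℕ}
    (H : ∀ (ι' : Type) [Fintype ι'] (f' : ι' → ℤ × ℤ × ℤ × ℤ), Fam x y α β ω τ ρ S Q f' →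
      (∀ i, ev m n g (f' i).1 (f' i).2.1 (f' i).2.2.1 (f' i).2.2.2 = 0) → (pts f').Dv p →
      Fintype.card ι' ≤ J')
    (ι : Type) [Fintype ι] (f : ι → ℤ × ℤ × ℤ × ℤ) (hf : Fam x y α β ω τ ρ S Q f)
    (h0 : ∀ i, ev m n g (f i).1 (f i).2.1 (f i).2.2.1 (f i).2.2.2 = 0)
    (hns : ∀ i, ∃ a₁ a₂ a₃ a₄ : ℤ, ¬ (p : ℤ) ∣
      dir m n g (f i).1 (f i).2.1 (f i).2.2.1 (f i).2.2.2 a₁ a₂ a₃ a₄) :
    Fintype.card ι ≤ J' * ((m + n) * (p + 1)) := by
  classical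
  have hst : ∀ i, ¬ ((p : ℤ) ∣ (f i).1 ∧ (p : ℤ) ∣ (f i).2.1) := by
    rintro i ⟨h1, h2⟩
    obtain ⟨e, e', he, hg1⟩ := gcd_st (hf.bx i)
    have h4 : (p : ℤ) ∣ (Int.gcd (f i).1 (f i).2.1 : ℤ) := by
      rw [← he]
      exact dvd_sub (h1.mul_right _) (h2.mul_right _)
    have h5 : p ∣ Int.gcd (f i).1 (f i).2.1 := by exact_mod_cast h4
    rcases hg1 with h6 | h6
    · rw [h6] at h5
      have := Nat.le_of_dvd one_pos h5
      omega
    · rw [h6] at h5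
      have := Nat.le_of_dvd (by norm_num) h5
      omega
  have huv : ∀ i, ¬ ((p : ℤ) ∣ (f i).2.2.1 ∧ (p : ℤ) ∣ (f i).2.2.2) := by
    rintro i ⟨h1, h2⟩
    have h4 := (coprime_XY (hf.bx i)).isUnit_of_dvd' h1 h2
    exact (Nat.prime_iff_prime_int.1 hp).not_unit h4
  obtain ⟨κ, hκ⟩ := cls m n p hp hg (pts f) h0 hst huv
  have h4 := Finset.card_le_mul_card_image_of_maps_to (s := (Finset.univ : Finset ι))
    (t := (Finset.univ : Finset (Fin ((m + n) * (p + 1))))) (f := κ)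
    (fun a _ => Finset.mem_univ _) J' (fun b _ => ?_)
  · rw [Finset.card_univ, Finset.card_univ, Fintype.card_fin] at h4
    exact h4
  · rw [← Fintype.card_coe]
    rcases isEmpty_or_nonempty {a // a ∈ Finset.univ.filter fun a => κ a = b} with he | ⟨⟨i₀⟩⟩
    · rw [Fintype.card_eq_zero]
      exact Nat.zero_le _
    · have hb : ∀ i : {a // a ∈ Finset.univ.filter fun a => κ a = b}, κ i = b := fun i =>
        (Finset.mem_filter.1 i.2).2
      obtain ⟨a₁, a₂, a₃, a₄, ha⟩ := hns i₀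
      refine H _ (fun i => f i) (hf.sub _ Subtype.val_injective) (fun i => h0 i) ?_
      refine pad (pts fun i : {a // a ∈ Finset.univ.filter fun a => κ a = b} => f i) p hp m n g
        (fun i => h0 i) i₀ (fun i => ?_) (fun i => ?_) (fun i => hst i) (fun i => huv i) a₁ a₂ a₃
        a₄ ha
      · exact (hκ i i₀ ((hb i).trans (hb i₀).symm)).1
      · exact (hκ i i₀ ((hb i).trans (hb i₀).symm)).2

private theorem large (c η : ℝ) (hη : 0 < η) : ∃ Λ₀ : ℝ, ∀ Λ : ℝ, Λ₀ ≤ Λ →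
    c ≤ Real.exp (Λ * η) := by
  refine ⟨c / η, fun Λ hΛ => ?_⟩
  rw [div_le_iff₀ hη] at hΛ
  have := Real.add_one_le_exp (Λ * η)
  linarith

theorem nn (ε C₀ : ℝ) (hε : 0 < ε) (hC : 1 ≤ C₀) (J : ℕ) : ∃ C Λ₀ : ℝ, 0 ≤ C ∧
    ∀ Λ : ℝ, Λ₀ ≤ Λ →
    ∀ (x y α β : ℤ) (ω τ Δ l c s d q a t om : ℝ), Par C₀ Λ x y α β ω τ Δ l c s d q a t om →
      (1 / 10 ≤ a - t → |l| = 1) → Cond ε s d q a t om →
    ∀ m n : ℕ, 1 ≤ m → 2 ≤ n → m ≤ J → n ≤ J → ∀ g : ℤ[X][X], Irr m n g →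
    ∀ (ι : Type) [Fintype ι] (f : ι → ℤ × ℤ × ℤ × ℤ), Fam x y α β ω τ (Real.exp (-(Λ * a)))
        (Real.exp (Λ * s)) (Real.exp (Λ * q)) f →
      (∀ i, ev m n g (f i).1 (f i).2.1 (f i).2.2.1 (f i).2.2.2 = 0) →
      (Fintype.card ι : ℝ) ≤ C * Real.exp (Λ * om) := by
  have hJ0 : (0 : ℝ) ≤ J := Nat.cast_nonneg J
  have hC00 : 0 < C₀ := by linarith
  obtain ⟨C₂, Λ₁, hb1⟩ := htb C₀ ε hC hε J
  obtain ⟨η, J', Λ₂, hη, hηε, hb2⟩ := fib ε C₀ C₂ hε hC J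
  obtain ⟨Λ₃, hΛ₃, hb3⟩ := up_le C₀ η hη J
  set CW : ℝ := 5 * C₀ + 2 * J * C₀ + ε + 3 with hCW
  set Cu : ℝ := CW + 1 + C₂ with hCu
  set r : ℕ := ⌈|Cu| * C₀⌉₊ + 1 with hr
  obtain ⟨Cp, hb4⟩ := primes r
  obtain ⟨Λ₄, hb5⟩ := large (12 ^ J) 1 one_pos
  obtain ⟨Λ₅, hb6⟩ := large (10 / 3) η hη
  obtain ⟨Λ₆, hb7⟩ := large 5 (1 / C₀) (by positivity)
  -- the constant
  refine ⟨2 * J * J + (J * (J + 2) + J * (J + 1) + J) + r * (J' * (2 * J * (|Cp| + 1))),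
    max (max (max Λ₁ Λ₂) (max Λ₃ Λ₄)) (max (max Λ₅ Λ₆) 1), by positivity, ?_⟩
  intro Λ hΛ x y α β ω τ Δ l c s d q a t om hp hl1 hcond m n hm hn hmJ hnJ g hg ι _ f hf h0
  have hΛ1 : Λ₁ ≤ Λ := (le_trans (by simp) hΛ)
  have hΛ2 : Λ₂ ≤ Λ := (le_trans (by simp) hΛ)
  have hΛ3 : Λ₃ ≤ Λ := (le_trans (by simp) hΛ)
  have hΛ4 : Λ₄ ≤ Λ := (le_trans (by simp) hΛ)
  have hΛ5 : Λ₅ ≤ Λ := (le_trans (by simp) hΛ)
  have hΛ6 : Λ₆ ≤ Λ := (le_trans (by simp) hΛ)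
  have hΛ7 : 1 ≤ Λ := (le_trans (by simp) hΛ)
  have hΛ0 : 0 < Λ := by linarith
  have hC0 : 0 < 1 / C₀ := by positivity
  have hs0 : 0 ≤ s := hC0.le.trans hp.s1
  have hq0 : 0 ≤ q := hC0.le.trans hp.q1
  have ha0 : 0 ≤ a := hC0.le.trans hp.a1
  have ho0 : 0 ≤ om := hC0.le.trans hp.om1
  have hmJ' : (m : ℝ) ≤ J := by exact_mod_cast hmJ
  have hnJ' : (n : ℝ) ≤ J := by exact_mod_cast hnJ
  set Z : ℝ := Real.exp (Λ * om) with hZ
  have hZ5 : 5 ≤ Z := (hb7 Λ hΛ6).trans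
    (Real.exp_le_exp.2 (mul_le_mul_of_nonneg_left hp.om1 hΛ0.le))
  by_cases hcard : Fintype.card ι ≤ 2 * m * n
  · -- few points
    have h1 : (Fintype.card ι : ℝ) ≤ 2 * m * n := by exact_mod_cast hcard
    have h2 : 2 * (m : ℝ) * n ≤ 2 * J * J := by gcongr
    have h3 : 0 ≤ (J * (J + 2) + J * (J + 1) + J) + (r : ℝ) * (J' * (2 * J * (|Cp| + 1))) := by
      positivity
    have h4 : (0 : ℝ) ≤ 2 * J * J := by positivity
    nlinarith
  push Not at hcard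
  have hb : a + ε ≤ 4 * q + s + d := hcond.h3
  obtain ⟨-, hht⟩ := hb1 Λ hΛ1 x y α β ω τ Δ l c s d q a t om hp (by linarith) m n hmJ hnJ g hg ι
    f hf h0 hcard
  set ρ : ℝ := Real.exp (-(Λ * a)) with hρ
  set γ : ℝ := Real.exp (-(Λ * (4 * q + s + d - η))) with hγ
  have hρ0 : 0 < ρ := Real.exp_pos _
  have hγ0 : 0 < γ := Real.exp_pos _
  have hρ5 : ρ ≤ 1 / 5 := by
    have h1 : (5 : ℝ) ≤ Real.exp (Λ * a) := (hb7 Λ hΛ6).trans
      (Real.exp_le_exp.2 (mul_le_mul_of_nonneg_left hp.a1 hΛ0.le))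
    rw [hρ, Real.exp_neg, ← one_div]
    exact one_div_le_one_div_of_le (by norm_num) h1
  have hγ1 : γ ≤ 1 := by
    rw [hγ, Real.exp_le_one_iff, neg_nonpos]
    exact mul_nonneg hΛ0.le (by linarith)
  have hγ2 : 10 / (3 * Δ * Real.exp (Λ * s) * Real.exp (Λ * q) ^ 4) ≤ γ := by
    have h1 : 3 * Real.exp (Λ * (4 * q + s + d)) ≤
        3 * Δ * Real.exp (Λ * s) * Real.exp (Λ * q) ^ 4 := by
      have e : Real.exp (Λ * (4 * q + s + d)) =
          Real.exp (Λ * d) * Real.exp (Λ * s) * Real.exp (Λ * q) ^ 4 := by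
        rw [← Real.exp_nat_mul, ← Real.exp_add, ← Real.exp_add]
        congr 1
        push_cast
        ring
      rw [e]
      have h2 : Real.exp (Λ * d) * Real.exp (Λ * s) * Real.exp (Λ * q) ^ 4 ≤
          Δ * Real.exp (Λ * s) * Real.exp (Λ * q) ^ 4 := by
        gcongr
        exact hp.Δ1
      linarith
    refine (div_le_div_of_nonneg_left (by norm_num) (by positivity) h1).trans ?_
    rw [div_le_iff₀ (by positivity)]
    have e : γ * (3 * Real.exp (Λ * (4 * q + s + d))) = 3 * Real.exp (Λ * η) := by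
      rw [hγ, mul_left_comm, ← Real.exp_add]
      congr 2
      ring
    rw [e]
    have := hb6 Λ hΛ5
    linarith
  set ν : ℝ := nrm ρ γ (psi (U1 l c) (U2 l c) m n (rl (frm α ω τ) m n g)) with hν
  have hν0 : 0 ≤ ν := nrm_nonneg hρ0.le hγ0.le _
  set U : ℝ := up Δ (Real.exp (Λ * s)) (Real.exp (Λ * q)) c ρ γ m n ν with hU
  obtain ⟨Bd, hBd, hsp⟩ := split hp.rf (Real.exp_pos (Λ * s)) (Real.exp_pos (Λ * q)) hρ0 hρ5 hγ2
    hγ1 hg (pts f) (hf.on h0) hf.bx hf.inv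
  -- the upper bound of the derivatives
  have hUle : U < Z ^ r := by
    have h1 := hb3 Λ hΛ3 x y α β ω τ Δ l c s d q a t om hp (by linarith) m n hmJ hnJ ν hν0
    have hht0 : 0 ≤ ht (cf (rl (frm α ω τ) m n g) : E m n → ℝ) := by
      unfold ht
      positivity
    have h2 : ν ≤ 12 ^ J * Real.exp (Λ * C₂) := by
      have h3 : ν ≤ 12 ^ m * ht (cf (rl (frm α ω τ) m n g) : E m n → ℝ) :=
        nrm_psi_le hρ0.le hγ0.le (by linarith) hγ1 (by norm_num)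
          (nrm_U1 hp.rf.hc) (nrm_U2 hp.rf.hl hp.rf.hc) m n _
      refine h3.trans (mul_le_mul (pow_le_pow_right₀ (by norm_num) hmJ) hht hht0 (by positivity))
    have hms : (m : ℝ) * s ≤ J * C₀ := mul_le_mul hmJ' hp.s2 hs0 hJ0
    have hnq : (n : ℝ) * q ≤ J * C₀ := mul_le_mul hnJ' hp.q2 hq0 hJ0
    have h4 : 3 * d + s + t + m * s + n * q + η ≤ CW := by
      have := hp.d2
      have := hp.s2
      have := hp.t2
      rw [hCW]
      linarith
    have h5 : U ≤ Real.exp (Λ * CW) * (Real.exp (Λ * 1) * Real.exp (Λ * C₂)) := by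
      refine h1.trans (mul_le_mul (Real.exp_le_exp.2 (mul_le_mul_of_nonneg_left h4 hΛ0.le))
        (h2.trans (mul_le_mul_of_nonneg_right (hb5 Λ hΛ4) (Real.exp_pos _).le)) hν0
        (Real.exp_pos _).le)
    have h6 : Real.exp (Λ * CW) * (Real.exp (Λ * 1) * Real.exp (Λ * C₂)) = Real.exp (Λ * Cu) := by
      rw [← Real.exp_add, ← Real.exp_add, hCu]
      congr 1
      ring
    rw [h6] at h5
    refine h5.trans_lt ?_
    rw [hZ, ← Real.exp_nat_mul, Real.exp_lt_exp]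
    have h7 : Cu < r * om := by
      have h8 : |Cu| * C₀ < r := by
        rw [hr]
        push_cast
        exact (Nat.le_ceil _).trans_lt (lt_add_one _)
      have h9 : (r : ℝ) * (1 / C₀) ≤ r * om :=
        mul_le_mul_of_nonneg_left hp.om1 (Nat.cast_nonneg _)
      have h10 : |Cu| < r * (1 / C₀) := by
        rw [mul_one_div, lt_div_iff₀ hC00]
        exact h8
      exact (le_abs_self _).trans_lt (h10.trans_le h9)
    calc Λ * Cu < Λ * (r * om) := mul_lt_mul_of_pos_left h7 hΛ0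
      _ = r * (Λ * om) := by ring
  -- the primes
  obtain ⟨T, hTc, hT⟩ := hb4 Z (by linarith)
  classical
  set Sp : ℕ → Finset ι := fun p => Finset.univ.filter fun i => ∃ a₁ a₂ a₃ a₄ : ℤ,
    ¬ (p : ℤ) ∣ dir m n g (f i).1 (f i).2.1 (f i).2.2.1 (f i).2.2.2 a₁ a₂ a₃ a₄ with hSp
  have hcov : (Finset.univ : Finset ι) ⊆ Bd ∪ T.biUnion Sp := by
    intro i _
    by_cases hi : i ∈ Bd
    · exact Finset.mem_union_left _ hi
    · obtain ⟨a₁, a₂, a₃, a₄, ha, hale⟩ := hsp i hi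
      obtain ⟨p, hpT, hpd⟩ := prime_pick (Z := Z) (by linarith)
        (fun p hp => ⟨(hT p hp).1, (hT p hp).2.1⟩) ha (by
          rw [hTc]
          exact hale.trans_lt hUle)
      refine Finset.mem_union_right _ (Finset.mem_biUnion.2 ⟨p, hpT, ?_⟩)
      exact Finset.mem_filter.2 ⟨Finset.mem_univ _, a₁, a₂, a₃, a₄, hpd⟩
  -- at least one good point gives the lower bound of the norm
  by_cases hall : ∀ i, i ∈ Bd
  · have h1 : (Finset.univ : Finset ι) ⊆ Bd := fun i _ => hall i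
    have h2 := Finset.card_le_card h1
    rw [Finset.card_univ] at h2
    have h3 : (Fintype.card ι : ℝ) ≤ n * (m + 2) + m * (n + 1) + n := by
      exact_mod_cast h2.trans hBd
    have h4 : (n : ℝ) * (m + 2) + m * (n + 1) + n ≤ J * (J + 2) + J * (J + 1) + J := by gcongr
    have h5 : 0 ≤ 2 * (J : ℝ) * J + (r : ℝ) * (J' * (2 * J * (|Cp| + 1))) := by positivity
    have h6 : (0 : ℝ) ≤ J * (J + 2) + J * (J + 1) + J := by positivity
    nlinarith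
  push Not at hall
  obtain ⟨i₁, hi₁⟩ := hall
  have hU1 : 1 ≤ U := by
    obtain ⟨a₁, a₂, a₃, a₄, ha, hale⟩ := hsp i₁ hi₁
    refine le_trans ?_ hale
    have h2 := Int.one_le_abs ha
    exact_mod_cast h2
  have hSple : ∀ p ∈ T, (Sp p).card ≤ J' * ((m + n) * (p + 1)) := by
    intro p hpT
    obtain ⟨hp1, hp2, hp3⟩ := hT p hpT
    have h3p : 3 < p := by
      have : (3 : ℝ) < p := by linarith
      exact_mod_cast this
    rw [← Fintype.card_coe]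
    refine class_bound hp1 h3p hg (x := x) (y := y) (α := α) (β := β) (ω := ω) (τ := τ) (ρ := ρ)
      (S := Real.exp (Λ * s)) (Q := Real.exp (Λ * q)) (fun ι' _ f' hf' h0' hdv => ?_) _
      (fun i : {i // i ∈ Sp p} => f i) (hf.sub _ Subtype.val_injective) (fun i => h0 i)
      (fun i => (Finset.mem_filter.1 i.2).2)
    exact hb2 Λ hΛ2 x y α β ω τ Δ l c s d q a t om hp hl1 hcond m n hm hn hmJ hnJ g hg ι' f' hf'
      h0' p hdv hp2 hht hU1
  have htot : (Fintype.card ι : ℝ) ≤ (n * (m + 2) + m * (n + 1) + n) +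
      ∑ p ∈ T, (J' : ℝ) * ((m + n) * (p + 1)) := by
    have h1 := Finset.card_le_card hcov
    rw [Finset.card_univ] at h1
    have h2 : Fintype.card ι ≤ (n * (m + 2) + m * (n + 1) + n) +
        ∑ p ∈ T, J' * ((m + n) * (p + 1)) := by
      refine h1.trans ((Finset.card_union_le _ _).trans (add_le_add hBd ?_))
      exact Finset.card_biUnion_le.trans (Finset.sum_le_sum hSple)
    have h3 : ((Fintype.card ι : ℕ) : ℝ) ≤ (((n * (m + 2) + m * (n + 1) + n) +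
        ∑ p ∈ T, J' * ((m + n) * (p + 1)) : ℕ) : ℝ) := Nat.cast_le.2 h2
    refine h3.trans (le_of_eq ?_)
    push_cast
    ring
  have hsum : ∑ p ∈ T, (J' : ℝ) * ((m + n) * (p + 1)) ≤
      r * (J' * (2 * J * (|Cp| + 1))) * Z := by
    have h1 : ∀ p ∈ T, (J' : ℝ) * ((m + n) * (p + 1)) ≤ J' * (2 * J * (|Cp| + 1)) * Z := by
      intro p hpT
      obtain ⟨hp1, hp2, hp3⟩ := hT p hpT
      have h2 : (p : ℝ) + 1 ≤ (|Cp| + 1) * Z := by
        have h3 : Cp * Z ≤ |Cp| * Z := mul_le_mul_of_nonneg_right (le_abs_self _) (by linarith)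
        linarith
      have h4 : (m : ℝ) + n ≤ 2 * J := by linarith
      calc (J' : ℝ) * ((m + n) * (p + 1)) ≤ J' * ((2 * J) * ((|Cp| + 1) * Z)) := by gcongr
        _ = _ := by ring
    refine (Finset.sum_le_sum h1).trans (le_of_eq ?_)
    rw [Finset.sum_const, hTc, nsmul_eq_mul]
    ring
  have h4 : (n : ℝ) * (m + 2) + m * (n + 1) + n ≤ J * (J + 2) + J * (J + 1) + J := by gcongr
  have h6 : (0 : ℝ) ≤ 2 * J * J + (J * (J + 2) + J * (J + 1) + J) := by positivity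
  have h7 : (0 : ℝ) ≤ 2 * J * J := by positivity
  nlinarith

end Pool.Agent.Work.MP_f2148a_nt.M56.H
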