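import Pool.Agent.Work.MP_f2148a_nt.M56.H.Defs
import Pool.Agent.Work.MP_f2148a_nt.M56.N2.A
import Pool.Agent.Work.MP_f2148a_nt.M56.N2.B
import Pool.Agent.Work.MP_f2148a_nt.M56.N2.C
import Pool.Agent.Work.MP_f2148a_nt.M56.N2.DD
import Pool.Agent.Work.MP_f2148a_nt.M56.N2.EE
import Pool.Agent.Work.MP_f2148a_nt.M56.N2.Z
import Pool.Agent.Work.MP_f2148a_nt.M56.N2.F

set_option autoImplicit false

/-!
# The numerical block (owner helper29). `A = K ^ (25/63)`, `x ≥ K ^ (53/20)`.

`μ = 1/10000`; all exponents may be off by `e = 10^(-6)` (`10^(-5)` in `yy`).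
Types I and II together: `|c| ≤ K ^ (- yy s d)` (type II has `d + s ≤ 1/3 + e`, `yy = 0`).
-/

namespace Pool.Agent.Work.MP_f2148a_nt.M56.H

open Pool.Agent.Work.MP_f2148a_nt.M56.N2

/-- `|c| ≤ K ^ (- yy s d)` in a cell. -/
noncomputable def yy (s d : ℝ) : ℝ := max 0 (3 * (d + s) - 1 - 1 / 100000)

/-- The allowed number of points, for the cost `t`. -/
noncomputable def omg (d t : ℝ) : ℝ := 5 / 6 - 1 / 10000 - 4 * d - t

/-- The exponent `a` of the window of a cell is good. -/
structure Good (ε s d q a : ℝ) : Prop where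
  a0 : yy s d ≤ a
  a1 : 1 / 10 ≤ a
  a2 : a ≤ 2
  om0 : 1 / 200 ≤ omg d (a - yy s d)
  cond : 2 * s - a ≤ omg d (a - yy s d) ∨
    Cond ε s d q a (a - yy s d) (omg d (a - yy s d))

/-- (E2) is monotone. -/
theorem E2_mono {P th l O O' th' : ℝ} (hl : 0 < l) (hth : 0 ≤ th') (h1 : th' ≤ th) (h2 : O ≤ O')
    (hP : 0 ≤ P) (hE : E2 P th l O) : E2 P th' l O' := by
  intro v hv0 hv1
  have h := hE v hv0 hv1
  have hf : 0 ≤ 2 * l + (2 * l + th') * v := by positivity
  rcases le_or_gt (2 * v - v ^ 2 - O' + 1 / 1000) 0 with h0 | h0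
  · exact (mul_nonpos_of_nonneg_of_nonpos hf h0).trans (mul_nonneg hP hv0.le)
  · refine le_trans (mul_le_mul ?_ ?_ h0.le ?_) h
    · have := mul_le_mul_of_nonneg_right h1 hv0.le
      linarith
    · linarith
    · have := mul_le_mul_of_nonneg_right h1 hv0.le
      linarith

theorem Opt_mono {n m l h w O O' P : ℝ} (hw : 0 ≤ w) (hO : O ≤ O') (h1 : Opt n m l h w O P) :
    Opt n m l h w O' P := by
  obtain ⟨al, be, h2, h3, h4, h5⟩ := h1
  refine ⟨al, be, h2, h3, h4, le_trans (mul_le_mul_of_nonneg_left ?_ hw) h5⟩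
  linarith

/-- back to the units of `K`. -/
theorem toIneq {ε s q a b om w h : ℝ} {m n : ℕ} (hs : 0 < s) (hε : ε ≤ w * s / 2000)
    (h1 : Opt n m (q / s) (h / s) (w / s) (om / s - 1 / 2000) (a * b / s ^ 2)) :
    Ineq ε s q a b om w h m n := by
  obtain ⟨al, be, h2, h3, h4, h5⟩ := h1
  refine ⟨al, be, h2, h3, h4, ?_⟩
  have e1 : w * (2 * (al * s + be * q) - 2 * h * al * be - om) + w * s / 2000 =
      s ^ 2 * (w / s * (2 * (al + be * (q / s)) - 2 * (h / s) * al * be - (om / s - 1 / 2000))) := by
    field_simp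
    ring
  have e2 : a * b = s ^ 2 * (a * b / s ^ 2) := by
    field_simp
  have e3 := mul_le_mul_of_nonneg_left h5 (sq_nonneg s)
  rw [← e1, ← e2] at e3
  linarith

/-- everything in units of `s`, for the three cases. -/
theorem core (s d q a : ℝ) (hs : 19 / 100 ≤ s) (hl : 0 < q)
    (hc : Cell (d / s) (q / s) ((1 + 1 / 100000) / s))
    (ha : a = max (yy s d) (451 / 100 * s * q / (4 * q + s + d)))
    (hb : 0 < 4 * q + s + d) (m n : ℕ) (hm : 1 ≤ m) (hn : 2 ≤ n) (h : ℝ) (hh : 0 ≤ h) :
    Ineq (1 / 100000) s q a (4 * q + s + d) (omg d (a - yy s d))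
        (3 * d + s + (a - yy s d) + m * s + n * q + h) h m n ∨
      (n = 2 ∧ m ≤ 4 ∧ a = yy s d ∧ Ineq (1 / 100000) s q a (4 * q + s + d)
        (omg d (a - yy s d)) (14 * a) h m n) := by
  have hs0 : 0 < s := by linarith
  obtain ⟨D, hD⟩ : ∃ D : ℝ, D = d / s := ⟨_, rfl⟩
  obtain ⟨l, hl'⟩ : ∃ l : ℝ, l = q / s := ⟨_, rfl⟩
  obtain ⟨u, hu⟩ : ∃ u : ℝ, u = (1 + 1 / 100000) / s := ⟨_, rfl⟩
  rw [← hD, ← hl', ← hu] at hc
  have hds : d = D * s := by rw [hD]; field_simp
  have hqs : q = l * s := by rw [hl']; field_simp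
  have hus : u * s = 1 + 1 / 100000 := by rw [hu]; field_simp
  have hl0 : 0 < l := by rw [hl']; positivity
  have hc' := hc
  obtain ⟨c0, c1, c2, c3, c4, c5⟩ := hc'
  have hmR : (1:ℝ) ≤ m := by exact_mod_cast hm
  have hnR : (2:ℝ) ≤ n := by exact_mod_cast hn
  have hb' : 0 < 4 * l + 1 + D := by linarith
  have hbs : 4 * q + s + d = (4 * l + 1 + D) * s := by rw [hqs, hds]; ring
  obtain ⟨A, hAdef⟩ : ∃ A : ℝ, A = 451 / 100 * l / (4 * l + 1 + D) := ⟨_, rfl⟩
  have hA : A * (4 * l + 1 + D) = 451 / 100 * l := by rw [hAdef, div_mul_cancel₀ _ hb'.ne']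
  have hA0 : 0 < A := by rw [hAdef]; positivity
  have hAs : 451 / 100 * s * q / (4 * q + s + d) = A * s := by
    rw [hbs, hqs, hAdef]
    field_simp
  have hA2 : A ≤ 1.1275 := by
    by_contra hcon
    push Not at hcon
    have h1 : 1.1275 * (4 * l + 1 + D) < A * (4 * l + 1 + D) := mul_lt_mul_of_pos_right hcon hb'
    nlinarith
  have hinvs : 1 / s = u / (1 + 1 / 100000) := by rw [hu]; field_simp
  -- the size of the weight
  have hom : ∀ t : ℝ, 0 ≤ u → (5 / 6 - 3 / 10000) * u - 4 * D - t ≤ omg d (t * s) / s := by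
    intro t hu0
    have e : omg d (t * s) / s = (5 / 6 - 1 / 10000) * (1 / s) - 4 * D - t := by
      rw [omg, hds]
      field_simp
    rw [e, hinvs]
    have : (5 / 6 - 3 / 10000) * u ≤ (5 / 6 - 1 / 10000) * (u / (1 + 1 / 100000)) := by
      rw [mul_div_assoc', le_div_iff₀ (by norm_num)]
      nlinarith
    linarith
  have hu0 : 0 ≤ u := by rw [hu]; positivity
  have hwgen : ∀ t : ℝ, 0 ≤ t → 1 / 100000 ≤
      (3 * d + s + t * s + m * s + n * q + h) * s / 2000 := by
    intro t ht
    have h1 : s ≤ 3 * d + s + t * s + m * s + n * q + h := by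
      have h2 : -(1 / 10000) * s ≤ d := by
        rw [hds]; exact mul_le_mul_of_nonneg_right c0 hs0.le
      have h3 : s ≤ m * s := le_mul_of_one_le_left hs0.le hmR
      have h4 : 0 ≤ t * s := by positivity
      have h5 : 0 ≤ n * q := by positivity
      linarith
    nlinarith
  have hwdiv : ∀ t : ℝ, (3 * d + s + t * s + m * s + n * q + h) / s =
      (3 * D + 1 + t) + m + n * l + h / s := by
    intro t
    rw [hds, hqs]
    field_simp
  have hhs : 0 ≤ h / s := by positivity
  -- the far cases
  have far : ∀ (t O P : ℝ), 0 ≤ t → a - yy s d = t * s → a * (4 * q + s + d) / s ^ 2 = P → 0 ≤ P →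
      0 ≤ 3 * D + 1 + t → 1 / 2000 ≤ O → O ≤ (5 / 6 - 3 / 10000) * u - 4 * D - t →
      E2 P (3 * D + 1 + t) l O →
      Ineq (1 / 100000) s q a (4 * q + s + d) (omg d (a - yy s d))
        (3 * d + s + (a - yy s d) + m * s + n * q + h) h m n := by
    intro t O P ht hat hP hP0 hth hO hO' hE
    rw [hat]
    refine toIneq hs0 (hwgen t ht) ?_
    rw [hwdiv, hP, ← hl']
    have hE' : E2 P ((3 * D + 1 + t) / 1) l (1 * O) := by simpa using hE
    have h1 := opt_real P (3 * D + 1 + t) l O 1 n m (h / s) one_pos (by norm_num) (by linarith) hmR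
      hhs hl0 hth hO hP0 hE'
    refine Opt_mono (by positivity) ?_ h1
    have := hom t hu0
    linarith
  rcases le_or_gt (3 * (d + s) - 1 - 1 / 100000) 0 with hy | hy
  · -- case Z
    left
    have hyy : yy s d = 0 := max_eq_left hy
    have haA : a = A * s := by
      rw [ha, hyy, hAs]
      exact max_eq_right (by positivity)
    have hu3 : 3 * (1 + D) ≤ u := by
      have : 3 * (1 + D) * s ≤ u * s := by rw [hus]; nlinarith
      exact le_of_mul_le_mul_right this hs0
    refine far A ((5 / 6 - 3 / 10000) * u - 4 * D - A) (451 / 100 * l) hA0.le ?_ ?_ (by positivity)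
      (by linarith) ?_ le_rfl (caseZ D l u A hc hA hu3)
    · rw [hyy, haA]; ring
    · rw [haA, hbs, ← hA]
      field_simp
    · have : D ≤ 0.449 := by linarith
      linarith
  · have hYs : 3 * (d + s) - 1 - 1 / 100000 = (3 * (1 + D) - u) * s := by
      have : (3 * (1 + D) - u) * s = 3 * (D * s + s) - u * s := by ring
      rw [this, hus, ← hds]
      ring
    have hY0 : 0 ≤ 3 * (1 + D) - u := by
      by_contra hcon
      push Not at hcon
      have : (3 * (1 + D) - u) * s ≤ 0 := mul_nonpos_of_nonpos_of_nonneg hcon.le hs0.le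
      linarith
    have hyy : yy s d = (3 * (1 + D) - u) * s := by
      rw [yy, max_eq_right hy.le, hYs]
    rcases le_total (3 * (1 + D) - u) A with hYA | hYA
    · -- case A
      left
      have haA : a = A * s := by
        rw [ha, hyy, hAs]
        exact max_eq_right (mul_le_mul_of_nonneg_right hYA hs0.le)
      have hE := caseA D l u A hc hA hY0 hYA
      have e1 : u - 2 + A = 3 * D + 1 + (A - (3 * (1 + D) - u)) := by ring
      have e2 : 3 - D - (1 / 6 + 3 / 10000) * u - A =
          (5 / 6 - 3 / 10000) * u - 4 * D - (A - (3 * (1 + D) - u)) := by ring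
      rw [e1, e2] at hE
      refine far (A - (3 * (1 + D) - u)) _ (451 / 100 * l) (by linarith) ?_ ?_ (by positivity)
        (by linarith) ?_ le_rfl hE
      · rw [hyy, haA]; ring
      · rw [haA, hbs, ← hA]
        field_simp
      · have : D ≤ 1 + 6 / 100000 := by linarith
        linarith
    · -- case B
      have haY : a = (3 * (1 + D) - u) * s := by
        rw [ha, hyy, hAs]
        exact max_eq_left (mul_le_mul_of_nonneg_right hYA hs0.le)
      obtain ⟨Y, hY⟩ : ∃ Y : ℝ, Y = 3 * (1 + D) - u := ⟨_, rfl⟩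
      have huY : u = 3 * (1 + D) - Y := by linarith
      rw [← hY] at haY hyy hYA hY0
      have hcY : Cell D l (3 * (1 + D) - Y) := by rw [← huY]; exact hc
      have hYb : 451 / 100 * l ≤ Y * (4 * l + 1 + D) := by
        rw [← hA]
        exact mul_le_mul_of_nonneg_right hYA hb'.le
      have hYpos : 0 < Y := lt_of_lt_of_le hA0 hYA
      have hay : a - yy s d = 0 * s := by rw [hyy, haY]; ring
      have hP : a * (4 * q + s + d) / s ^ 2 = Y * (4 * l + 1 + D) := by
        rw [haY, hbs]
        field_simp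
      have hOpos : 1 / 2000 ≤ (5 / 6 - 3 / 10000) * (3 * (1 + D) - Y) - 4 * D := by
        rw [← huY]
        rcases le_total D (1 / 3) with h1 | h1
        · linarith
        · linarith
      have hOle : (5 / 6 - 3 / 10000) * (3 * (1 + D) - Y) - 4 * D ≤
          (5 / 6 - 3 / 10000) * u - 4 * D - 0 := by rw [← huY]; linarith
      have hth : 0 ≤ 3 * D + 1 + 0 := by linarith
      rcases le_total D (9875 / 10000) with hDD | hDD
      · left
        refine far 0 _ (Y * (4 * l + 1 + D)) le_rfl hay hP (by positivity) hth hOpos hOle ?_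
        have := caseB D l Y hcY hY0 hYb hDD
        simpa using this
      · rcases Nat.lt_or_ge 2 n with hn3 | hn2
        · -- n ≥ 3
          left
          have hn3R : (3:ℝ) ≤ n := by exact_mod_cast hn3
          rw [hay]
          refine toIneq hs0 (hwgen 0 le_rfl) ?_
          rw [hwdiv, hP, ← hl']
          have hE := caseE D l Y hcY hYb hDD
          have hE' : E2 (Y * (4 * l + 1 + D)) ((3 * D + 1 + 0) / (3 / 2)) l
              (3 / 2 * ((5 / 6 - 3 / 10000) * (3 * (1 + D) - Y) - 4 * D)) := by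
            have e : (3 * D + 1 + 0) / (3 / 2) = 2 / 3 * (3 * D + 1) := by ring
            rw [e]; exact hE
          have h1 := opt_real (Y * (4 * l + 1 + D)) (3 * D + 1 + 0) l
            ((5 / 6 - 3 / 10000) * (3 * (1 + D) - Y) - 4 * D) (3 / 2) n m (h / s) (by norm_num)
            (by norm_num) (by linarith) hmR hhs hl0 hth hOpos (by positivity) hE'
          refine Opt_mono (by positivity) ?_ h1
          have := hom 0 hu0
          rw [← huY]
          linarith
        · have hn2' : n = 2 := by omega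
          subst hn2'
          have hth' : 0 ≤ 3 * D + 1 := by linarith
          obtain ⟨z₂, hz₂, hC1, hC2⟩ := caseC D l Y hcY hYb hDD
          have htr : (5 / 6 - 3 / 10000) * (3 * (1 + D) - Y) - 4 * D - 1 / 2000 ≤
              omg d (0 * s) / s - 1 / 2000 := by
            have := hom 0 hu0
            rw [← huY]
            linarith
          rcases Nat.lt_or_ge 4 m with hm5 | hm4
          · left
            have hm5R : (5:ℝ) ≤ m := by exact_mod_cast hm5
            rw [hay]
            refine toIneq hs0 (hwgen 0 le_rfl) ?_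
            rw [hwdiv, hP, ← hl']
            have h1 := opt_D (Y * (4 * l + 1 + D)) (3 * D + 1) l
              ((5 / 6 - 3 / 10000) * (3 * (1 + D) - Y) - 4 * D) m (h / s) hm5R hhs hl0 hth' hOpos
              (by positivity) (by have := hC1 0 le_rfl hz₂.le; simpa using this)
              (fun X hX1 hX2 hX3 => caseD1 D l Y hcY hYb hDD X hX1 hX2 hX3)
              (fun X hX => caseD2 D l Y hcY hYb hDD X hX)
            have e : (3 * D + 1 + (0:ℝ)) = 3 * D + 1 := by ring
            rw [e]
            exact Opt_mono (by positivity) htr (by exact_mod_cast h1)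
          · have hmc : (m:ℝ) = 1 ∨ (m:ℝ) = 2 ∨ (m:ℝ) = 3 ∨ (m:ℝ) = 4 := by
              have : m = 1 ∨ m = 2 ∨ m = 3 ∨ m = 4 := by omega
              rcases this with h1 | h1 | h1 | h1 <;> subst h1 <;> norm_num
            have h1 := opt_C Y (4 * l + 1 + D) (3 * D + 1) l
              ((5 / 6 - 3 / 10000) * (3 * (1 + D) - Y) - 4 * D) m (h / s) z₂ hmc hhs hl0 hth' hOpos
              hY0 hb'.le hz₂ hC1 (fun z hz => hC2 m z hmc hz)
            rcases h1 with h1 | h1
            · left
              rw [hay]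
              refine toIneq hs0 (hwgen 0 le_rfl) ?_
              rw [hwdiv, hP, ← hl']
              have e : (3 * D + 1 + (0:ℝ)) = 3 * D + 1 := by ring
              rw [e]
              exact Opt_mono (by positivity) htr (by exact_mod_cast h1)
            · right
              refine ⟨rfl, hm4, by rw [haY, hyy], ?_⟩
              have hY9 : 9 / 10 ≤ Y := by linarith
              have hwa : 1 / 100000 ≤ 14 * a * s / 2000 := by
                rw [haY]
                nlinarith [mul_nonneg (sub_nonneg.2 hY9) (sq_nonneg s)]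
              rw [hay]
              refine toIneq hs0 hwa ?_
              rw [hP, ← hl']
              have e : 14 * a / s = 14 * Y := by rw [haY]; field_simp
              rw [e]
              exact Opt_mono (by positivity) htr (by exact_mod_cast h1)

/-- NUM2. -/
theorem num (C₀ : ℝ) : ∃ ε : ℝ, 0 < ε ∧ ∀ s d q : ℝ,
    -(1 / 1000000) ≤ d → d ≤ 25 / 126 + 1 / 1000000 → 50 / 63 - 1 / 1000000 ≤ 3 * s + d →
    d + s ≤ 50 / 63 + 1 / 1000000 → 53 / 20 - 1 / 1000000 ≤ 4 * q + 2 * (d + s) →
    4 * q + 2 * (d + s) ≤ C₀ → ∃ a : ℝ, Good ε s d q a := by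
  refine ⟨1 / 100000, by norm_num, ?_⟩
  intro s d q hd0 hd1 h3 h2 hx _
  have hs : 19 / 100 ≤ s := by linarith
  have hs1 : s ≤ 794 / 1000 := by linarith
  have hs0 : 0 < s := by linarith
  have hq : 265 / 1000 ≤ q := by linarith
  have hb : 0 < 4 * q + s + d := by linarith
  have hc : Cell (d / s) (q / s) ((1 + 1 / 100000) / s) := by
    refine ⟨?_, ?_, ?_, ?_, ?_, by positivity⟩
    · rw [le_div_iff₀ hs0]; linarith
    · have e : (126 / 100 * (3 + d / s) + 1 / 10000) = (126 / 100 * (3 * s + d) + s / 10000) / s := by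
        field_simp
      rw [e, div_le_div_iff_of_pos_right hs0]
      linarith
    · have e : 504 / 100 * (d / s) = (504 / 100 * d) / s := by ring
      have e2 : (1 + 1 / 100000) / s + 1 / 10000 = (1 + 1 / 100000 + s / 10000) / s := by
        field_simp
      rw [e, e2, div_le_div_iff_of_pos_right hs0]
      linarith
    · have e : 265 / 100 * ((1 + 1 / 100000) / s) = (265 / 100 * (1 + 1 / 100000)) / s := by ring
      have e2 : 4 * (q / s) + 2 * (1 + d / s) + 2 / 10000 =
          (4 * q + 2 * (s + d) + 2 * s / 10000) / s := by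
        field_simp
      rw [e, e2, div_le_div_iff_of_pos_right hs0]
      linarith
    · have e : 1 + d / s = (s + d) / s := by field_simp
      have e2 : 50 / 63 * ((1 + 1 / 100000) / s) + 1 / 10000 =
          (50 / 63 * (1 + 1 / 100000) + s / 10000) / s := by
        field_simp
      rw [e, e2, div_le_div_iff_of_pos_right hs0]
      linarith
  obtain ⟨a, ha⟩ : ∃ a : ℝ, a = max (yy s d) (451 / 100 * s * q / (4 * q + s + d)) := ⟨_, rfl⟩
  have hay : yy s d ≤ a := by rw [ha]; exact le_max_left _ _
  have haA : 451 / 100 * s * q / (4 * q + s + d) ≤ a := by rw [ha]; exact le_max_right _ _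
  have hA1 : 1 / 10 ≤ 451 / 100 * s * q / (4 * q + s + d) := by
    rw [le_div_iff₀ hb]
    nlinarith
  have hA2 : 451 / 100 * s * q / (4 * q + s + d) ≤ 11275 / 10000 * s := by
    rw [div_le_iff₀ hb]
    nlinarith [mul_pos hs0 hs0, mul_nonneg hs0.le (by linarith : (0:ℝ) ≤ s + d)]
  have hyy0 : 0 ≤ yy s d := le_max_left _ _
  have hyy1 : 3 * (d + s) - 1 - 1 / 100000 ≤ yy s d := le_max_right _ _
  have hyy2 : yy s d ≤ 2 := by
    rw [yy]
    exact max_le (by norm_num) (by linarith)
  have ha2 : a ≤ 2 := by rw [ha]; exact max_le hyy2 (by linarith)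
  have hom0 : 1 / 200 ≤ omg d (a - yy s d) := by
    rw [omg]
    rcases le_total (yy s d) (451 / 100 * s * q / (4 * q + s + d)) with h | h
    · have e : a = 451 / 100 * s * q / (4 * q + s + d) := by rw [ha]; exact max_eq_right h
      have h1 : a ≤ 11275 / 10000 * s := by rw [e]; exact hA2
      rcases le_total (3 * (d + s)) (1 + 1 / 100000) with h4 | h4
      · linarith
      · linarith
    · have e : a = yy s d := by rw [ha]; exact max_eq_left h
      rw [e]
      linarith
  refine ⟨a, hay, hA1.trans haA, ha2, hom0, Or.inr ?_⟩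
  have ha3 : a ≤ 14 / 10 := by
    rw [ha]
    refine max_le ?_ (by linarith)
    rw [yy]
    exact max_le (by norm_num) (by linarith)
  refine ⟨by linarith, ?_, by linarith, ?_⟩
  · have h4 : 451 / 100 * s * q ≤ a * (4 * q + s + d) := by
      rw [div_le_iff₀ hb] at haA
      exact haA
    have h5 : 0 < s * q := by positivity
    nlinarith
  · intro m n hm hn h hh
    rcases core s d q a hs (by linarith) hc ha hb m n hm hn h hh with h1 | ⟨h1, h4, h5, h6⟩
    · exact Or.inl h1
    · right
      refine ⟨?_, h1, h4, h6⟩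
      have e : a - (a - yy s d) = yy s d := by ring
      rw [e, ← h5]
      exact hA1.trans haA

end Pool.Agent.Work.MP_f2148a_nt.M56.H
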