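import Pool.Agent.Work.MP_f2148a_nt.M56.H.Fr
import Pool.Agent.Work.MP_f2148a_nt.M56.LD.Main

set_option autoImplicit false

/-!
# Bounded range (helper68): the bundle of the hypotheses on the parameters

`Λ = log K`.
-/

namespace Pool.Agent.Work.MP_f2148a_nt.M56.H

open G4 G3 LD

/-- The hypotheses on the parameters. -/
structure Par (C₀ Λ : ℝ) (x y α β : ℤ) (ω τ Δ l c s d q a t om : ℝ) : Prop where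
  rf : Rf x y α β ω τ Δ l c
  Δ1 : Real.exp (Λ * d) ≤ Δ
  Δ2 : Δ ≤ 2 * Real.exp (Λ * d)
  c1 : |c| ≤ Real.exp (Λ * (t - a))
  s1 : 1 / C₀ ≤ s
  s2 : s ≤ C₀
  d1 : -1 ≤ d
  d2 : d ≤ C₀
  q1 : 1 / C₀ ≤ q
  q2 : q ≤ C₀
  a1 : 1 / C₀ ≤ a
  a2 : a ≤ C₀
  t1 : 0 ≤ t
  t2 : t ≤ C₀
  om1 : 1 / C₀ ≤ om
  om2 : om ≤ C₀
  w1 : 2 * |ω| / (3 * α * τ) ≤ Real.exp (Λ * C₀)
  τ1 : 1 / τ ≤ Real.exp (Λ * C₀)
  α1 : (α : ℝ) ≤ Real.exp (Λ * C₀)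
  x1 : |(x : ℝ)| ≤ Real.exp (Λ * C₀)
  y1 : |(y : ℝ)| ≤ Real.exp (Λ * C₀)
  β1 : |(β : ℝ)| ≤ Real.exp (Λ * C₀)

/-- The integral points as points of block LD. -/
def pts {ι : Type*} (f : ι → ℤ × ℤ × ℤ × ℤ) : Pts ι :=
  ⟨fun i => (f i).1, fun i => (f i).2.1, fun i => (f i).2.2.1, fun i => (f i).2.2.2⟩

/-- A family of points of a box with `t ≠ 0`, `Y ≠ 0`, pairwise non proportional `(s, t)`,
pairwise different `Hq ^ 3 / J`. -/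
structure Fam {ι : Type} (x y α β : ℤ) (ω τ ρ S Q : ℝ) (f : ι → ℤ × ℤ × ℤ × ℤ) : Prop where
  bx : ∀ i, Bx x y α β ω τ ρ S Q (f i).1 (f i).2.1 (f i).2.2.1 (f i).2.2.2
  dst : ∀ i j, i ≠ j → (f i).1 * (f j).2.1 ≠ (f j).1 * (f i).2.1
  inv : ∀ i j, i ≠ j →
    (Hq (q4 x y α β (f i).1 (f i).2.1) (f i).2.2.1 (f i).2.2.2) ^ 3
        * J432 (q4 x y α β (f j).1 (f j).2.1)
      ≠ (Hq (q4 x y α β (f j).1 (f j).2.1) (f j).2.2.1 (f j).2.2.2) ^ 3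
        * J432 (q4 x y α β (f i).1 (f i).2.1)
  t0 : ∀ i, (f i).2.1 ≠ 0
  Y0 : ∀ i, (f i).2.2.2 ≠ 0

end Pool.Agent.Work.MP_f2148a_nt.M56.H
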