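import Pool.Agent.Work.MP_f2148a_nt.M56.H.Dat

set_option autoImplicit false

/-!
# H/Size (size M): polynomial bounds for all data

PROOF of `size`. `Λ₀` so large that `exp (-Λ a) ≤ 1/5` and the absolute constants are `≤ exp Λ`. `|ξ| ≤ 2 exp (Λ q)`, `|υ| ≤ |ξ| / 5`,
`|Y| = |υ| / τ`, `|ω| ≤ exp (Λ C₀) * 3 α τ / 2`, `|X| ≤ τ |ξ| + |ω| |Y|`, `0 < d₂ ≤ 10 exp (Λ s)`,
`|d₁| = d₂ |z - p₂(r)| / p₁(r) ≤ 6 d₂` (`cz_eq`, `|z| ≤ 1` for large `Λ` because `4 q + s + d ≥ η`), `|s| = 3 α |d₁| / τ`, `|t| = 3 τ / α |d₂ + 2 ω s / (3 α τ)|`.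
PROOF of `ht_up`. `ht (cf (rl F m n g))`: `cf (rl F m n g) = rlM F m n *ᵥ cf g` (`LD.cf_rl` or by `LD.Ev`), the entries of `rlM` are
bounded by a constant times a power of the entries of the frame (which are at most `6 exp (3 Λ C₀)`). Any argument is fine; only the
shape `exp (Λ C₂)`, `C₂ = C₂ (C₀, C₁, J)`, matters.
PROOF of `nrm_psi_le`. `psi` is `ev`, a sum of `cf e * mon`; `LD.nrm_sum`, `nrm_mul`, `nrm_pow`.
-/

namespace Pool.Agent.Work.MP_f2148a_nt.M56.H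

open G4 G3 LD Polynomial

private theorem exp_big {A Λ : ℝ} (h : A ≤ Λ) : A ≤ Real.exp Λ := by
  have := Real.add_one_le_exp Λ
  linarith

private theorem pb_le {l c r : ℝ} (hc : |c| ≤ 1) (hr : |r| ≤ 1 / 5) : |pb l c r| ≤ 1 := by
  have hr4 : |r ^ 4| ≤ 1 / 625 := by
    rw [abs_pow]
    calc |r| ^ 4 ≤ (1 / 5) ^ 4 := pow_le_pow_left₀ (abs_nonneg _) hr 4
      _ = 1 / 625 := by norm_num
  have e3 : |c * r ^ 4| ≤ 1 / 625 := by
    calc |c * r ^ 4| = |c| * |r ^ 4| := abs_mul _ _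
      _ ≤ 1 * (1 / 625) := mul_le_mul hc hr4 (abs_nonneg _) (by norm_num)
      _ = _ := by norm_num
  unfold pb
  have h1 := abs_le.1 hr
  have h2 := abs_le.1 e3
  rw [abs_le]
  constructor <;> linarith

/-- elementary bounds of the reference data -/
private theorem data_bd {C₀ Λ : ℝ} (hΛ : 0 ≤ Λ) (hC : 1 ≤ C₀) {x y α β : ℤ}
    {ω τ Δ l c s d q a t om : ℝ} (P : Par C₀ Λ x y α β ω τ Δ l c s d q a t om) :
    (1 : ℝ) ≤ α ∧ 0 < τ ∧ τ ≤ 1 ∧ 1 / τ ≤ Real.exp (Λ * C₀) ∧ (α : ℝ) ≤ Real.exp (Λ * C₀) ∧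
      |ω| ≤ 3 / 2 * α * τ * Real.exp (Λ * C₀) ∧ 1 ≤ Real.exp (Λ * C₀) := by
  have hα : (1 : ℝ) ≤ α := by exact_mod_cast P.rf.hα
  have hτ := P.rf.hτ
  refine ⟨hα, hτ, P.rf.hτ1, P.τ1, P.α1, ?_, Real.one_le_exp (by positivity)⟩
  have h := P.w1
  rw [div_le_iff₀ (by positivity)] at h
  linarith

theorem size (C₀ η : ℝ) (hC : 1 ≤ C₀) (hη : 0 < η) : ∃ C₁ Λ₀ : ℝ, ∀ Λ : ℝ, Λ₀ ≤ Λ →
    ∀ (x y α β : ℤ) (ω τ Δ l c s d q a t om : ℝ), Par C₀ Λ x y α β ω τ Δ l c s d q a t om →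
      η ≤ 4 * q + s + d → ∀ s' t' X Y : ℤ, Bx x y α β ω τ (Real.exp (-(Λ * a)))
        (Real.exp (Λ * s)) (Real.exp (Λ * q)) s' t' X Y →
      |(s' : ℝ)| ≤ Real.exp (Λ * C₁) ∧ |(t' : ℝ)| ≤ Real.exp (Λ * C₁) ∧
        |(X : ℝ)| ≤ Real.exp (Λ * C₁) ∧ |(Y : ℝ)| ≤ Real.exp (Λ * C₁) := by
  refine ⟨5 * C₀, max (max (5 * C₀) (4 / η)) 390, ?_⟩
  intro Λ hΛ x y α β ω τ Δ l c s d q a t om P hab s' t' X Y hb
  have hΛ1 : 5 * C₀ ≤ Λ := ((le_max_left _ _).trans (le_max_left _ _)).trans hΛ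
  have hΛ2 : 4 / η ≤ Λ := ((le_max_right _ _).trans (le_max_left _ _)).trans hΛ
  have hΛ3 : 390 ≤ Λ := (le_max_right _ _).trans hΛ
  have hΛ0 : 0 < Λ := by linarith
  obtain ⟨hα, hτ, hτ1, hτe, hαe, hωe, hE1⟩ := data_bd hΛ0.le hC P
  have h5 : 5 ≤ Λ * a := by
    calc (5 : ℝ) = (5 * C₀) * (1 / C₀) := by field_simp
      _ ≤ Λ * a := mul_le_mul hΛ1 P.a1 (by positivity) hΛ0.le
  have hρ15 : Real.exp (-(Λ * a)) ≤ 1 / 5 := by
    rw [Real.exp_neg, one_div]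
    have := Real.add_one_le_exp (Λ * a)
    exact inv_anti₀ (by norm_num) (by linarith)
  have hd1 : Real.exp (Λ * s) / 10 ≤ cd2 α ω τ s' t' := hb.d1
  have hd2 : cd2 α ω τ s' t' ≤ 10 * Real.exp (Λ * s) := hb.d2
  have hd : 0 < cd2 α ω τ s' t' := lt_of_lt_of_le (by positivity) hd1
  have hx1 : Real.exp (Λ * q) ≤ |cxi ω τ X Y| := hb.xi1
  have hx2 : |cxi ω τ X Y| ≤ 2 * Real.exp (Λ * q) := hb.xi2
  have hx : 0 < |cxi ω τ X Y| := lt_of_lt_of_le (Real.exp_pos _) hx1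
  have hrr : |cr ω τ X Y| ≤ Real.exp (-(Λ * a)) := by
    unfold cr
    rw [abs_div, div_le_iff₀ hx]
    exact hb.rr
  set W := Real.exp (Λ * C₀) with hW
  have hW0 : 0 < W := Real.exp_pos _
  have hsW : Real.exp (Λ * s) ≤ W := Real.exp_le_exp.2 (mul_le_mul_of_nonneg_left P.s2 hΛ0.le)
  have hqW : Real.exp (Λ * q) ≤ W := Real.exp_le_exp.2 (mul_le_mul_of_nonneg_left P.q2 hΛ0.le)
  have h390 : 390 ≤ W := by
    refine exp_big ?_
    nlinarith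
  have hξ : |cxi ω τ X Y| ≤ 2 * W := by linarith
  have hd2W : cd2 α ω τ s' t' ≤ 10 * W := by linarith
  have hΔ0 : 0 < Δ := lt_of_lt_of_le (Real.exp_pos _) P.Δ1
  have hω2 : |ω| ≤ 3 / 2 * W ^ 2 := by
    calc |ω| ≤ 3 / 2 * α * τ * W := hωe
      _ ≤ 3 / 2 * W * 1 * W := by gcongr
      _ = _ := by ring
  -- Y
  have hY : |(Y : ℝ)| ≤ 2 * W ^ 2 := by
    have h1 : |τ * (Y : ℝ)| ≤ 2 * W := by
      refine hb.rr.trans ?_
      have h2 : |((X : ℝ) + ω * Y) / τ| ≤ 2 * W := hξ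
      calc Real.exp (-(Λ * a)) * |((X : ℝ) + ω * Y) / τ| ≤ 1 * (2 * W) := by
            refine mul_le_mul (by linarith) h2 (abs_nonneg _) (by norm_num)
        _ = _ := one_mul _
    rw [abs_mul, abs_of_pos hτ] at h1
    calc |(Y : ℝ)| = 1 / τ * (τ * |(Y : ℝ)|) := by field_simp
      _ ≤ W * (2 * W) := mul_le_mul hτe h1 (by positivity) hW0.le
      _ = _ := by ring
  have hX : |(X : ℝ)| ≤ 5 * W ^ 4 := by
    have h1 : (X : ℝ) = τ * cxi ω τ X Y - ω * Y := by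
      unfold cxi
      field_simp
      ring
    have h2 : |τ * cxi ω τ X Y| ≤ 2 * W := by
      rw [abs_mul, abs_of_pos hτ]
      calc τ * |cxi ω τ X Y| ≤ 1 * (2 * W) := mul_le_mul hτ1 hξ (abs_nonneg _) (by norm_num)
        _ = _ := one_mul _
    have h3 : |ω * Y| ≤ 3 / 2 * W ^ 2 * (2 * W ^ 2) := by
      rw [abs_mul]
      exact mul_le_mul hω2 hY (abs_nonneg _) (by positivity)
    have h4 : W ≤ W ^ 4 := by
      calc W = W ^ 1 := (pow_one W).symm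
        _ ≤ W ^ 4 := pow_le_pow_right₀ hE1 (by norm_num)
    calc |(X : ℝ)| = |τ * cxi ω τ X Y - ω * Y| := by rw [← h1]
      _ ≤ |τ * cxi ω τ X Y| + |ω * Y| := abs_sub _ _
      _ ≤ 2 * W + 3 / 2 * W ^ 2 * (2 * W ^ 2) := add_le_add h2 h3
      _ ≤ 2 * W ^ 4 + 3 / 2 * W ^ 2 * (2 * W ^ 2) := by linarith
      _ = _ := by ring
  -- d1
  have hz1 : |cz α ω τ l c s' t' X Y| ≤ 1 := by
    rw [cz_eq P.rf hρ15 (Real.exp_pos _) (Real.exp_pos _) hb]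
    have h4 : Real.exp (Λ * q) ^ 4 ≤ cxi ω τ X Y ^ 4 := by
      have := pow_le_pow_left₀ (Real.exp_pos _).le hx1 4
      rwa [pow_abs, abs_of_nonneg (by positivity)] at this
    have hx4 : 0 < cxi ω τ X Y ^ 4 := lt_of_lt_of_le (by positivity) h4
    have hpos : 0 < 3 * Δ * cd2 α ω τ s' t' * cxi ω τ X Y ^ 4 := by positivity
    rw [abs_of_pos (by positivity), div_le_iff₀ hpos, one_mul]
    have h5 : 3 * Real.exp (Λ * d) * (Real.exp (Λ * s) / 10) * Real.exp (Λ * q) ^ 4 ≤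
        3 * Δ * cd2 α ω τ s' t' * cxi ω τ X Y ^ 4 := by
      refine mul_le_mul (mul_le_mul ?_ hd1 (by positivity) (by positivity)) h4 (by positivity)
        (by positivity)
      linarith [P.Δ1]
    have h6 : Real.exp (Λ * (4 * q + s + d)) = Real.exp (Λ * d) * Real.exp (Λ * s) *
        Real.exp (Λ * q) ^ 4 := by
      rw [← Real.exp_nat_mul, ← Real.exp_add, ← Real.exp_add]
      congr 1
      push_cast
      ring
    have h7 : 4 ≤ Real.exp (Λ * (4 * q + s + d)) := by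
      refine exp_big ?_
      rw [div_le_iff₀ hη] at hΛ2
      have := mul_le_mul_of_nonneg_left hab hΛ0.le
      linarith
    nlinarith
  have hpa := pa_ge P.rf.hl P.rf.hc (hrr.trans hρ15)
  have hpb := pb_le (l := l) P.rf.hc (hrr.trans hρ15)
  have hcd1 : |cd1 α τ s'| ≤ 40 * W := by
    have h1 : cd1 α τ s' / cd2 α ω τ s' t' * pa l c (cr ω τ X Y) =
        cz α ω τ l c s' t' X Y - pb l c (cr ω τ X Y) := by
      unfold cz
      ring
    have h2 : |cd1 α τ s' / cd2 α ω τ s' t' * pa l c (cr ω τ X Y)| ≤ 2 := by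
      rw [h1]
      refine (abs_sub _ _).trans ?_
      linarith
    rw [abs_mul, abs_div, abs_of_pos hd, abs_of_pos (by linarith : 0 < pa l c (cr ω τ X Y))] at h2
    have h3 : |cd1 α τ s'| / cd2 α ω τ s' t' * (1 / 2) ≤ 2 :=
      le_trans (mul_le_mul_of_nonneg_left hpa (by positivity)) h2
    have h4 : |cd1 α τ s'| / cd2 α ω τ s' t' ≤ 4 := by linarith
    rw [div_le_iff₀ hd] at h4
    linarith
  have hs : |(s' : ℝ)| ≤ 120 * W ^ 3 := by
    have h1 : (s' : ℝ) = 3 * α * (1 / τ) * cd1 α τ s' := by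
      unfold cd1
      field_simp
    have h0 : (0 : ℝ) < α := by linarith
    rw [h1, abs_mul, abs_of_pos (by positivity : 0 < 3 * (α : ℝ) * (1 / τ))]
    calc 3 * (α : ℝ) * (1 / τ) * |cd1 α τ s'| ≤ 3 * W * W * (40 * W) := by gcongr
      _ = _ := by ring
  have ht : |(t' : ℝ)| ≤ 390 * W ^ 4 := by
    have h0 : (0 : ℝ) < α := by linarith
    have h1 : (t' : ℝ) = 3 * τ / α * (cd2 α ω τ s' t' + 2 * ω / (3 * α * τ) * s') := by
      unfold cd2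
      field_simp
      ring
    have h2 : |2 * ω / (3 * α * τ) * s'| ≤ W * (120 * W ^ 3) := by
      rw [abs_mul, abs_div, abs_mul, abs_of_pos (by positivity : 0 < 3 * (α : ℝ) * τ), abs_two]
      exact mul_le_mul P.w1 hs (abs_nonneg _) hW0.le
    have h3 : |cd2 α ω τ s' t'| ≤ 10 * W ^ 4 := by
      rw [abs_of_pos hd]
      have h4 : W ≤ W ^ 4 := by
        calc W = W ^ 1 := (pow_one W).symm
          _ ≤ W ^ 4 := pow_le_pow_right₀ hE1 (by norm_num)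
      linarith
    have h5 : 3 * τ / α ≤ 3 := by
      rw [div_le_iff₀ h0]
      nlinarith
    rw [h1, abs_mul, abs_of_pos (by positivity : 0 < 3 * τ / (α : ℝ))]
    calc 3 * τ / α * |cd2 α ω τ s' t' + 2 * ω / (3 * α * τ) * s'|
        ≤ 3 * (10 * W ^ 4 + W * (120 * W ^ 3)) := by
          refine mul_le_mul h5 ((abs_add_le _ _).trans (add_le_add h3 h2)) (abs_nonneg _)
            (by norm_num)
      _ = _ := by ring
  have e5 : Real.exp (Λ * (5 * C₀)) = W ^ 5 := by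
    rw [hW, ← Real.exp_nat_mul]
    congr 1
    push_cast
    ring
  have hW5 : 390 * W ^ 4 ≤ W ^ 5 := by
    calc 390 * W ^ 4 ≤ W * W ^ 4 := mul_le_mul_of_nonneg_right h390 (by positivity)
      _ = _ := by ring
  have m2 : W ^ 2 ≤ W ^ 4 := pow_le_pow_right₀ hE1 (by norm_num)
  have m3 : W ^ 3 ≤ W ^ 4 := pow_le_pow_right₀ hE1 (by norm_num)
  have m0 : 0 < W ^ 4 := by positivity
  rw [e5]
  refine ⟨by linarith, by linarith, by linarith, by linarith⟩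

/-- domination of coefficients -/
private def Dom (p q : ℝ[X]) : Prop := ∀ k, |p.coeff k| ≤ q.coeff k

private theorem Dom.mul {p q p' q' : ℝ[X]} (h : Dom p q) (h' : Dom p' q') :
    Dom (p * p') (q * q') := by
  intro k
  rw [Polynomial.coeff_mul, Polynomial.coeff_mul]
  refine (Finset.abs_sum_le_sum_abs _ _).trans (Finset.sum_le_sum fun i _ => ?_)
  rw [abs_mul]
  exact mul_le_mul (h _) (h' _) (abs_nonneg _) ((abs_nonneg _).trans (h _))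

private theorem Dom.pow {p q : ℝ[X]} (h : Dom p q) (n : ℕ) : Dom (p ^ n) (q ^ n) := by
  induction n with
  | zero =>
    intro k
    rw [pow_zero, pow_zero, Polynomial.coeff_one]
    split_ifs <;> simp
  | succ n ih =>
    rw [pow_succ, pow_succ]
    exact ih.mul h

private theorem Dom.le_eval {p q : ℝ[X]} (h : Dom p q) (k : ℕ) : |p.coeff k| ≤ q.eval 1 := by
  have h0 : ∀ j, 0 ≤ q.coeff j := fun j => (abs_nonneg _).trans (h j)
  refine (h k).trans ?_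
  rw [Polynomial.eval_eq_sum_range]
  simp only [one_pow, mul_one]
  by_cases hk : k ≤ q.natDegree
  · exact Finset.single_le_sum (f := fun i => q.coeff i) (fun i _ => h0 i)
      (Finset.mem_range.2 (by omega))
  · rw [Polynomial.coeff_eq_zero_of_natDegree_lt (by omega)]
    exact Finset.sum_nonneg fun i _ => h0 i

private theorem dom_lin (u v : ℝ) : Dom (C u * X + C v) (C |u| * X + C |v|) := by
  intro k
  simp only [Polynomial.coeff_add, Polynomial.coeff_C_mul, Polynomial.coeff_X, Polynomial.coeff_C]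
  split_ifs with h1 h2 h3
  · omega
  · simp
  · simp
  · simp

private theorem coeff_lin_mul {M u₁ v₁ u₂ v₂ : ℝ} (hM : 0 ≤ M) (h1 : |u₁| + |v₁| ≤ M)
    (h2 : |u₂| + |v₂| ≤ M) (i j k : ℕ) :
    |((C u₁ * X + C v₁ : ℝ[X]) ^ i * (C u₂ * X + C v₂) ^ j).coeff k| ≤ M ^ (i + j) := by
  refine (((dom_lin u₁ v₁).pow i).mul ((dom_lin u₂ v₂).pow j)).le_eval k |>.trans ?_
  simp only [Polynomial.eval_mul, Polynomial.eval_pow, Polynomial.eval_add, Polynomial.eval_C,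
    Polynomial.eval_X, mul_one]
  rw [pow_add]
  exact mul_le_mul (pow_le_pow_left₀ (by positivity) h1 _) (pow_le_pow_left₀ (by positivity) h2 _)
    (by positivity) (by positivity)

private theorem cf_mon_le {M : ℝ} (F : Frame) (hM : 1 ≤ M) (he1 : |F.e₁| ≤ M)
    (he2 : |F.e₂| + |F.e₃| ≤ M) (hk1 : |F.k₁| + |F.k₂| ≤ M) (hk3 : |F.k₃| ≤ M) (m n : ℕ)
    (e e' : E m n) :
    |cf (mon m n (C (C F.e₁ * X) : ℝ[X][X]) (C (C F.e₂ * X + C F.e₃)) (C (C F.k₁) * X + C (C F.k₂))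
      (C (C F.k₃)) e') e| ≤ M ^ m * M ^ n := by
  have h : mon m n (C (C F.e₁ * X) : ℝ[X][X]) (C (C F.e₂ * X + C F.e₃))
      (C (C F.k₁) * X + C (C F.k₂)) (C (C F.k₃)) e' =
      C ((C F.e₁ * X + C 0) ^ (e'.1 : ℕ) * (C F.e₂ * X + C F.e₃) ^ (m - e'.1)) *
        ((C F.k₁ * X + C F.k₂) ^ (e'.2 : ℕ) * (C 0 * X + C F.k₃) ^ (n - e'.2) : ℝ[X]).map C := by
    simp only [mon, map_mul, map_pow, Polynomial.map_mul, Polynomial.map_pow,
      Polynomial.map_add, Polynomial.map_C, Polynomial.map_X, map_zero, add_zero, zero_mul,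
      zero_add]
  rw [h, cf, Polynomial.coeff_C_mul, Polynomial.coeff_map, Polynomial.coeff_mul_C, abs_mul]
  have i1 : (e'.1 : ℕ) + (m - e'.1) = m := by
    have := e'.1.2
    omega
  have i2 : (e'.2 : ℕ) + (n - e'.2) = n := by
    have := e'.2.2
    omega
  have b1 := coeff_lin_mul (zero_le_one.trans hM) (u₁ := F.e₁) (v₁ := 0) (by simpa using he1) he2
    e'.1 (m - e'.1) e.1
  have b2 := coeff_lin_mul (zero_le_one.trans hM) (u₂ := 0) (v₂ := F.k₃) hk1 (by simpa using hk3)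
    e'.2 (n - e'.2) e.2
  rw [i1] at b1
  rw [i2] at b2
  exact mul_le_mul b1 b2 (abs_nonneg _) (by positivity)

private theorem cf_sum' {a b : ℕ} {ι : Type*} (T : Finset ι) (f : ι → ℝ[X][X]) (e : E a b) :
    cf (∑ i ∈ T, f i) e = ∑ i ∈ T, cf (f i) e := by
  classical
  induction T using Finset.induction_on with
  | empty => simp [cf]
  | insert i T hi ih => rw [Finset.sum_insert hi, cf_add, ih, Finset.sum_insert hi]

private theorem ht_rl {M G : ℝ} (F : Frame) (hM : 1 ≤ M) (he1 : |F.e₁| ≤ M)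
    (he2 : |F.e₂| + |F.e₃| ≤ M) (hk1 : |F.k₁| + |F.k₂| ≤ M) (hk3 : |F.k₃| ≤ M) (m n : ℕ)
    (g : ℤ[X][X]) (hg : ∀ e : E m n, |((cf g e : ℤ) : ℝ)| ≤ G) :
    ht (cf (rl F m n g) : E m n → ℝ) ≤
      ((m + 1) * (n + 1) * ((m + 1) * (n + 1))) * (G * (M ^ m * M ^ n)) := by
  have key : ∀ e : E m n, |cf (rl F m n g) e| ≤ ((m + 1) * (n + 1)) * (G * (M ^ m * M ^ n)) := by
    intro e
    unfold rl ev
    rw [cf_sum']
    refine (Finset.abs_sum_le_sum_abs _ _).trans ?_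
    have : ∀ e' ∈ (Finset.univ : Finset (E m n)), |cf ((algebraMap ℤ ℝ[X][X]) (cf g e') *
        mon m n (C (C F.e₁ * X) : ℝ[X][X]) (C (C F.e₂ * X + C F.e₃)) (C (C F.k₁) * X + C (C F.k₂))
        (C (C F.k₃)) e') e| ≤ G * (M ^ m * M ^ n) := by
      intro e' _
      have h1 : (algebraMap ℤ ℝ[X][X]) (cf g e') = C (C ((cf g e' : ℤ) : ℝ)) := by
        simp
      rw [h1, cf_C_mul, abs_mul]
      exact mul_le_mul (hg e') (cf_mon_le F hM he1 he2 hk1 hk3 m n e e') (abs_nonneg _)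
        ((abs_nonneg _).trans (hg e'))
    refine (Finset.sum_le_card_nsmul _ _ _ this).trans (le_of_eq ?_)
    rw [Finset.card_univ, Fintype.card_prod, Fintype.card_fin, Fintype.card_fin, nsmul_eq_mul]
    push_cast
    ring
  unfold ht
  refine (Finset.sum_le_card_nsmul _ _ _ fun e _ => key e).trans (le_of_eq ?_)
  rw [Finset.card_univ, Fintype.card_prod, Fintype.card_fin, Fintype.card_fin, nsmul_eq_mul]
  push_cast
  ring

theorem ht_up (C₀ C₁ : ℝ) (hC : 1 ≤ C₀) (J : ℕ) : ∃ C₂ Λ₀ : ℝ, ∀ Λ : ℝ, Λ₀ ≤ Λ →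
    ∀ (x y α β : ℤ) (ω τ Δ l c s d q a t om : ℝ), Par C₀ Λ x y α β ω τ Δ l c s d q a t om →
    ∀ m n : ℕ, m ≤ J → n ≤ J → ∀ g : ℤ[X][X],
      (∀ e : E m n, |((cf g e : ℤ) : ℝ)| ≤ Real.exp (Λ * C₁)) →
      ht (cf (rl (frm α ω τ) m n g) : E m n → ℝ) ≤ Real.exp (Λ * C₂) := by
  refine ⟨C₁ + 4 * J * C₀ + 1, max 0 (((J + 1) * (J + 1) * ((J + 1) * (J + 1))) *
    (12 ^ J * 12 ^ J)), ?_⟩
  intro Λ hΛ x y α β ω τ Δ l c s d q a t om P m n hm hn g hg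
  have hΛ0 : 0 ≤ Λ := (le_max_left _ _).trans hΛ
  have hΛ1 := (le_max_right _ _).trans hΛ
  obtain ⟨hα, hτ, hτ1, hτe, hαe, hωe, hE1⟩ := data_bd hΛ0 hC P
  set W := Real.exp (Λ * C₀) with hW
  have hW0 : 0 < W := Real.exp_pos _
  have h0 : (0 : ℝ) < α := by linarith
  have hWW : W ≤ W ^ 2 := by nlinarith
  have he1 : |(frm α ω τ).e₁| ≤ 12 * W ^ 2 := by
    change |3 * (α : ℝ) / τ| ≤ 12 * W ^ 2
    rw [abs_of_pos (by positivity)]
    calc 3 * (α : ℝ) / τ = 3 * α * (1 / τ) := by ring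
      _ ≤ 3 * W * W := by gcongr
      _ ≤ _ := by nlinarith
  have he2 : |(frm α ω τ).e₂| + |(frm α ω τ).e₃| ≤ 12 * W ^ 2 := by
    change |6 * ω / (α * τ)| + |3 * τ / (α : ℝ)| ≤ 12 * W ^ 2
    have a1 : |6 * ω / (α * τ)| ≤ 9 * W := by
      rw [abs_div, abs_mul, abs_of_pos (by positivity : 0 < (α : ℝ) * τ),
        div_le_iff₀ (by positivity), abs_of_pos (by norm_num : (0 : ℝ) < 6)]
      linarith
    have a2 : |3 * τ / (α : ℝ)| ≤ 3 := by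
      rw [abs_of_pos (by positivity), div_le_iff₀ h0]
      nlinarith
    nlinarith
  have hk1 : |(frm α ω τ).k₁| + |(frm α ω τ).k₂| ≤ 12 * W ^ 2 := by
    change |τ| + |-ω / τ| ≤ 12 * W ^ 2
    have a1 : |-ω / τ| ≤ 3 / 2 * W ^ 2 := by
      rw [abs_div, abs_neg, abs_of_pos hτ, div_le_iff₀ hτ]
      calc |ω| ≤ 3 / 2 * α * τ * W := hωe
        _ ≤ 3 / 2 * W * τ * W := by gcongr
        _ = _ := by ring
    rw [abs_of_pos hτ]
    nlinarith
  have hk3 : |(frm α ω τ).k₃| ≤ 12 * W ^ 2 := by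
    change |1 / τ| ≤ 12 * W ^ 2
    rw [abs_of_pos (by positivity)]
    nlinarith
  have hM : 1 ≤ 12 * W ^ 2 := by nlinarith
  refine (ht_rl (frm α ω τ) hM he1 he2 hk1 hk3 m n g hg).trans ?_
  have c1 : ((m : ℝ) + 1) * (n + 1) * ((m + 1) * (n + 1)) ≤
      ((J : ℝ) + 1) * (J + 1) * ((J + 1) * (J + 1)) := by
    have hm' : (m : ℝ) ≤ J := by exact_mod_cast hm
    have hn' : (n : ℝ) ≤ J := by exact_mod_cast hn
    gcongr
  have c2 : (12 * W ^ 2) ^ m * (12 * W ^ 2) ^ n ≤ (12 * W ^ 2) ^ J * (12 * W ^ 2) ^ J := by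
    have u1 : (12 * W ^ 2) ^ m ≤ (12 * W ^ 2) ^ J := pow_le_pow_right₀ hM hm
    have u2 : (12 * W ^ 2) ^ n ≤ (12 * W ^ 2) ^ J := pow_le_pow_right₀ hM hn
    gcongr
  calc ((m : ℝ) + 1) * (n + 1) * ((m + 1) * (n + 1)) *
        (Real.exp (Λ * C₁) * ((12 * W ^ 2) ^ m * (12 * W ^ 2) ^ n))
      ≤ ((J : ℝ) + 1) * (J + 1) * ((J + 1) * (J + 1)) *
        (Real.exp (Λ * C₁) * ((12 * W ^ 2) ^ J * (12 * W ^ 2) ^ J)) := by
        gcongr
    _ = (((J : ℝ) + 1) * (J + 1) * ((J + 1) * (J + 1)) * (12 ^ J * 12 ^ J)) *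
        (Real.exp (Λ * C₁) * (W ^ (2 * J) * W ^ (2 * J))) := by
        rw [mul_pow, ← pow_mul]
        ring
    _ ≤ Real.exp Λ * (Real.exp (Λ * C₁) * (W ^ (2 * J) * W ^ (2 * J))) := by
        refine mul_le_mul_of_nonneg_right (exp_big hΛ1) (by positivity)
    _ = _ := by
        rw [hW, ← Real.exp_nat_mul, ← Real.exp_add, ← Real.exp_add, ← Real.exp_add]
        congr 1
        push_cast
        ring

theorem nrm_psi_le {ρ γ B : ℝ} (hρ : 0 ≤ ρ) (hγ : 0 ≤ γ) (hρ1 : ρ ≤ 1) (hγ1 : γ ≤ 1) (hB : 1 ≤ B)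
    {U₁ U₂ : A} (h1 : nrm 1 1 U₁ ≤ B) (h2 : nrm 1 1 U₂ ≤ B) (m n : ℕ) (G : ℝ[X][X]) :
    nrm ρ γ (psi U₁ U₂ m n G) ≤ B ^ m * ht (cf G : E m n → ℝ) := by
  have h := LD.nrm_psi_le hB h1 h2 m n G
  rw [mul_comm] at h
  refine le_trans ?_ h
  unfold nrm
  refine Finset.sum_le_sum fun x _ => mul_le_mul_of_nonneg_left ?_ (abs_nonneg _)
  unfold wt
  rw [one_pow, one_pow, one_mul]
  exact mul_le_one₀ (pow_le_one₀ hρ hρ1) (pow_nonneg hγ _) (pow_le_one₀ hγ hγ1)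

end Pool.Agent.Work.MP_f2148a_nt.M56.H
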